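import Mathlib

set_option autoImplicit false

namespace Pool.Agent.H697w

/-- The diagonal form `⟨1, b_i (i ∈ ι)⟩` over `F` has no nontrivial relation
`∑_j (q_j² + ∑_i b_i w_{ji}²) = 0` all of whose vectors `(q_j, w_j)` lie in a common hyperplane
`d q + ∑_i c_i w_i = 0`, `(d, c) ≠ 0`. -/
def FullOne (F : Type) [Field F] {ι : Type} [Fintype ι] (b : ι → F) : Prop :=
  ∀ (m : ℕ) (q : Fin m → F) (w : Fin m → ι → F) (d : F) (c : ι → F),
    ∑ j, (q j ^ 2 + ∑ i, b i * w j i ^ 2) = 0 →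
    (∀ j, d * q j + ∑ i, c i * w j i = 0) → (d ≠ 0 ∨ c ≠ 0) → ∀ j, q j = 0 ∧ w j = 0

/-- `⟨1, (α²+β²) b_i⟩` is full over every finite extension of odd degree of `k`. -/
def POdd (k : Type) [Field k] {ι : Type} [Fintype ι] (b : ι → k) : Prop :=
  ∀ (L : Type) [Field L] [Algebra k L] [FiniteDimensional k L], Odd (Module.finrank k L) →
    ∀ α β : L, (α ≠ 0 ∨ β ≠ 0) →
      FullOne L (fun i => (α ^ 2 + β ^ 2) * algebraMap k L (b i))

/-- `F` is a real field: `0` is not a nontrivial sum of squares. -/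
def RealF (F : Type) [Field F] : Prop :=
  ∀ (m : ℕ) (y : Fin m → F), ∑ j, y j ^ 2 = 0 → ∀ j, y j = 0

/-- There is a discrete valuation ring `O` of `κ`, with uniformizer `π` and residue map
`ρ : O → l`, such that `l` is a finite extension of odd degree of `k` (compatibly with
`φ : k → κ`) and `x = π^e v` with `e` odd and `v` a unit. -/
def HasOddPlace (k κ : Type) [Field k] [Field κ] (φ : k →+* κ) (x : κ) : Prop :=
  ∃ (l : Type) (_ : Field l) (_ : Algebra k l) (O : Subring κ) (ρ : O →+* l) (π : O) (e : ℕ)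
    (v : O),
    FiniteDimensional k l ∧ Odd (Module.finrank k l) ∧ π ≠ 0 ∧
    (∀ t : O, ρ t = 0 ↔ ∃ s : O, t = π * s) ∧
    (∀ y : κ, y ≠ 0 → ∃ (n : ℤ) (u : O), ρ u ≠ 0 ∧ y = (π : κ) ^ n * (u : κ)) ∧
    (∀ a : k, ∃ t : O, (t : κ) = φ a ∧ ρ t = algebraMap k l a) ∧
    Odd e ∧ ρ v ≠ 0 ∧ x = (π : κ) ^ e * (v : κ)

end Pool.Agent.H697w
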