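import Mathlib
import Pool.Agent.H697w.Defs

set_option autoImplicit false

namespace Pool.Agent.H697w
open Polynomial

/-! PROOF OF THE TARGET in words.
l = B ⧸ P (a field: Ideal.Quotient.field P). O = the localization of B at P as a subring of κ (for instance the subring of all
a/s, a in B, s ∉ P; Localization.subalgebra.ofField κ P.primeCompl is available, with IsLocalization and IsFractionRing instances),
a discrete valuation ring (IsLocalization.AtPrime.isDiscreteValuationRing_of_dedekind_domain B hP P O). ρ : O → B ⧸ P is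
IsLocalization.lift of Ideal.Quotient.mk P (elements outside P become units of the field B ⧸ P); ρ t = 0 iff t is in the
maximal ideal of O = (π). Every nonzero y of κ is π^n u, n an integer, u a unit of O. (Alternatively pick π0 ∈ P, π0 ∉ P^2.)
x ∈ P^e, x ∉ P^(e+1) says that x = π^e * unit in O (e.g. IsLocalization.AtPrime / comap of powers of the maximal ideal,
Ideal.IsPrimary of P^n; or the P-adic valuation).
-/

/-! TARGET -/
theorem hasOddPlace_of_prime {k κ B : Type} [Field k] [Field κ] [CommRing B]
    [IsDedekindDomain B] [Algebra B κ] [IsFractionRing B κ] [Algebra k B]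
    (P : Ideal B) [P.IsMaximal] (hP : P ≠ ⊥) [FiniteDimensional k (B ⧸ P)]
    (hodd : Odd (Module.finrank k (B ⧸ P))) (x : B) (e : ℕ) (he : Odd e)
    (hx : x ∈ P ^ e) (hx' : x ∉ P ^ (e + 1)) :
    HasOddPlace k κ ((algebraMap B κ).comp (algebraMap k B)) (algebraMap B κ x) := by
  classical
  have hM : P.primeCompl ≤ nonZeroDivisors B := P.primeCompl_le_nonZeroDivisors
  let S : Subalgebra B κ := Localization.subalgebra.ofField κ P.primeCompl hM
  have hloc : IsLocalization.AtPrime S P :=
    Localization.subalgebra.isLocalization_ofField κ P.primeCompl hM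
  have hfr : IsFractionRing S κ := inferInstance
  have hdvr : IsDiscreteValuationRing S :=
    IsLocalization.AtPrime.isDiscreteValuationRing_of_dedekind_domain B hP S
  obtain ⟨ϖ, hϖ⟩ := IsDiscreteValuationRing.exists_irreducible S
  have hunit : ∀ y : P.primeCompl, IsUnit (Ideal.Quotient.mk P y) := by
    intro y
    let _ : Field (B ⧸ P) := Ideal.Quotient.field P
    refine IsUnit.mk0 _ ?_
    intro h
    exact y.2 (Ideal.Quotient.eq_zero_iff_mem.mp h)
  let ρ : S →+* B ⧸ P := IsLocalization.lift (M := P.primeCompl) hunit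
  have hρ : ∀ b : B, ρ (algebraMap B S b) = Ideal.Quotient.mk P b := fun b =>
    IsLocalization.lift_eq hunit b
  have hρ0 : ∀ t : S, ρ t = 0 ↔ t ∈ IsLocalRing.maximalIdeal S := by
    intro t
    obtain ⟨⟨a, s⟩, hst⟩ := IsLocalization.surj (M := P.primeCompl) t
    simp only at hst
    have h1 : ρ t * Ideal.Quotient.mk P s = Ideal.Quotient.mk P a := by
      rw [← hρ, ← hρ, ← map_mul, hst]
    have h2 : ρ t = 0 ↔ a ∈ P := by
      rw [← Ideal.Quotient.eq_zero_iff_mem, ← h1]
      constructor
      · intro h; rw [h, zero_mul]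
      · intro h; exact (hunit s).mul_left_eq_zero.mp h
    rw [h2, ← IsLocalization.AtPrime.to_map_mem_maximal_iff S P, ← hst]
    have hs : IsUnit (algebraMap B S s) := IsLocalization.map_units S s
    constructor
    · intro h
      rw [mul_comm] at h
      exact (Ideal.unit_mul_mem_iff_mem _ hs).mp h
    · intro h
      exact Ideal.mul_mem_right _ _ h
  have hmem : ∀ t : S, t ∈ IsLocalRing.maximalIdeal S ↔ ∃ s : S, t = ϖ * s := by
    intro t
    rw [hϖ.maximalIdeal_eq, Ideal.mem_span_singleton]
    exact Iff.rfl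
  -- the element x
  have hxe : algebraMap B S x ∈ (IsLocalRing.maximalIdeal S) ^ e := by
    have h := (IsLocalization.AtPrime.under_maximalIdeal_pow P S e)
    have : x ∈ (IsLocalRing.maximalIdeal S ^ e).under B := by rw [h]; exact hx
    exact this
  have hxe' : algebraMap B S x ∉ (IsLocalRing.maximalIdeal S) ^ (e + 1) := by
    intro hh
    have h := (IsLocalization.AtPrime.under_maximalIdeal_pow P S (e + 1))
    have : x ∈ (IsLocalRing.maximalIdeal S ^ (e + 1)).under B := hh
    rw [h] at this
    exact hx' this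
  rw [hϖ.maximalIdeal_eq, Ideal.span_singleton_pow, Ideal.mem_span_singleton] at hxe hxe'
  obtain ⟨v, hv⟩ := hxe
  have hρv : ρ v ≠ 0 := by
    intro h
    obtain ⟨s, rfl⟩ := (hmem v).mp ((hρ0 v).mp h)
    exact hxe' ⟨s, by rw [hv, pow_succ, mul_assoc]⟩
  refine ⟨B ⧸ P, Ideal.Quotient.field P, inferInstance, S.toSubring, ρ, ϖ, e, v, ?_, ?_, ?_, ?_, ?_,
    ?_, he, hρv, ?_⟩
  · infer_instance
  · exact hodd
  · exact hϖ.ne_zero
  · intro t
    exact (hρ0 t).trans (hmem t)
  · intro y hy
    obtain ⟨n, u, hu⟩ := IsDiscreteValuationRing.exists_units_eq_smul_zpow_of_irreducible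
      (R := S) hϖ hy
    refine ⟨n, (u : S), ?_, ?_⟩
    · intro h
      have h2 := (hρ0 (u : S)).mp h
      exact (IsLocalRing.mem_maximalIdeal _).mp h2 u.isUnit
    · rw [hu, mul_comm]
      rfl
  · intro a
    exact ⟨algebraMap B S (algebraMap k B a), rfl, hρ _⟩
  · have h := congrArg (fun t : S => (t : κ)) hv
    exact h

end Pool.Agent.H697w
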