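import Mathlib
import Pool.Agent.H697w.Defs
import Pool.Agent.H697w.W5

set_option autoImplicit false

namespace Pool.Agent.H697w
open Polynomial

/-! PROOF OF THE TARGET in words.
A = k[X] (Dedekind), K = RatFunc k its fraction field, κ/K finite separable (char 0), B = integralClosure k[X] κ (with κ an
algebra over k[X] through RatFunc k): a Dedekind domain, finite over A (IsIntegralClosure.finite, integralClosure.isDedekindDomain,
integralClosure.isFractionRing_of_finite_extension). p = Ideal.span {X}, maximal. Ideal.sum_ramification_inertia: the sum over the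
primes P above p of e(P) f(P) is [κ:K], odd; so some P has e(P) f(P) odd, so e(P), f(P) both odd. f(P) = finrank (A/p) (B/P), and
A/p is k (k → A/p bijective), so B/P is finite over k of degree f(P) (Module.finrank_mul_finrank or a semilinear transport).
Image x of X in B: x ∈ P^e, x ∉ P^(e+1) by the definition of the ramification index (map p ≤ P^e, not ≤ P^(e+1), map p = span {x};
Ideal.ramificationIdx lemmas). Apply hasOddPlace_of_prime (algebra k → B through k[X]); its φ is the map
algebraMap B κ ∘ algebraMap k B = (algebraMap (RatFunc k) κ) ∘ RatFunc.C (ext), its x is algebraMap (RatFunc k) κ X.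
-/

/-! TARGET -/
theorem hasOddPlace_X {k κ : Type} [Field k] [CharZero k] [Field κ] [Algebra (RatFunc k) κ]
    [FiniteDimensional (RatFunc k) κ] (hodd : Odd (Module.finrank (RatFunc k) κ)) :
    HasOddPlace k κ ((algebraMap (RatFunc k) κ).comp RatFunc.C)
      (algebraMap (RatFunc k) κ RatFunc.X) := by
  classical
  let _ : Algebra k[X] κ := ((algebraMap (RatFunc k) κ).comp (algebraMap k[X] (RatFunc k))).toAlgebra
  have : IsScalarTower k[X] (RatFunc k) κ := IsScalarTower.of_algebraMap_eq' rfl
  have : Algebra.IsSeparable (RatFunc k) κ := inferInstance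
  have : IsDedekindDomain (integralClosure k[X] κ) :=
    integralClosure.isDedekindDomain k[X] (RatFunc k) κ
  have : IsFractionRing (integralClosure k[X] κ) κ :=
    integralClosure.isFractionRing_of_finite_extension (RatFunc k) κ
  have : Module.Finite k[X] (integralClosure k[X] κ) :=
    IsIntegralClosure.finite k[X] (RatFunc k) κ (integralClosure k[X] κ)
  let _ : Algebra k (integralClosure k[X] κ) :=
    ((algebraMap k[X] (integralClosure k[X] κ)).comp (algebraMap k k[X])).toAlgebra
  have : IsScalarTower k k[X] (integralClosure k[X] κ) := IsScalarTower.of_algebraMap_eq' rfl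
  set p : Ideal k[X] := Ideal.span {Polynomial.X} with hp
  have hp0 : p ≠ ⊥ := by
    rw [hp, Ne, Ideal.span_singleton_eq_bot]
    exact Polynomial.X_ne_zero
  have hpm : p.IsMaximal := by
    rw [hp]
    exact PrincipalIdealRing.isMaximal_of_irreducible Polynomial.irreducible_X
  have hinj : Function.Injective (algebraMap k[X] κ) := by
    rw [IsScalarTower.algebraMap_eq k[X] (RatFunc k) κ]
    exact (algebraMap (RatFunc k) κ).injective.comp (IsFractionRing.injective k[X] (RatFunc k))
  have hfs : FaithfulSMul k[X] (integralClosure k[X] κ) := by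
    rw [faithfulSMul_iff_algebraMap_injective]
    intro a b hab
    exact hinj (congrArg (fun t : integralClosure k[X] κ => (t : κ)) hab)
  have htf : Module.IsTorsionFree k[X] (integralClosure k[X] κ) :=
    Module.isTorsionFree_iff_faithfulSMul.2 hfs
  have hsum := Ideal.sum_ramification_inertia (integralClosure k[X] κ) (RatFunc k) κ hp0
  obtain ⟨P, hP, hPodd⟩ : ∃ P ∈ IsDedekindDomain.primesOverFinset p (integralClosure k[X] κ),
      Odd (Ideal.ramificationIdx' p P * Ideal.inertiaDeg' p P) := by
    by_contra hcon
    push Not at hcon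
    have h1 : Even (∑ P ∈ IsDedekindDomain.primesOverFinset p (integralClosure k[X] κ),
        Ideal.ramificationIdx' p P * Ideal.inertiaDeg' p P) := by
      apply Finset.even_sum
      intro P hP
      exact Nat.not_odd_iff_even.1 (hcon P hP)
    rw [hsum] at h1
    exact Nat.not_even_iff_odd.2 hodd h1
  have hPover := (IsDedekindDomain.mem_primesOverFinset_iff hp0 _).1 hP
  have hPp : P.IsPrime := hPover.1
  have hPl : P.LiesOver p := hPover.2
  have hPm : P.IsMaximal := Ideal.IsMaximal.of_liesOver_isMaximal P p
  obtain ⟨he, hf⟩ := Nat.odd_mul.1 hPodd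
  set e := Ideal.ramificationIdx' p P with hedef
  rw [Ideal.inertiaDeg'_algebraMap] at hf
  have hPbot : P ≠ ⊥ := Ideal.ne_bot_of_liesOver_of_ne_bot hp0 P
  have htow : IsScalarTower k (k[X] ⧸ p) ((integralClosure k[X] κ) ⧸ P) := inferInstance
  have hk1 : Module.finrank k (k[X] ⧸ p) = 1 := by
    rw [hp, finrank_quotient_span_eq_natDegree, Polynomial.natDegree_X]
  have hkf : FiniteDimensional k (k[X] ⧸ p) := Module.finite_of_finrank_pos (by omega)
  let _ : Field (k[X] ⧸ p) := Ideal.Quotient.field p
  have hfin : Module.finrank k ((integralClosure k[X] κ) ⧸ P) =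
      Module.finrank (k[X] ⧸ p) ((integralClosure k[X] κ) ⧸ P) := by
    rw [← Module.finrank_mul_finrank k (k[X] ⧸ p) ((integralClosure k[X] κ) ⧸ P), hk1, one_mul]
  have hff : FiniteDimensional k ((integralClosure k[X] κ) ⧸ P) :=
    Module.Finite.trans (k[X] ⧸ p) _
  have hmap : Ideal.map (algebraMap k[X] (integralClosure k[X] κ)) p =
      Ideal.span {algebraMap k[X] (integralClosure k[X] κ) Polynomial.X} := by
    rw [hp, Ideal.map_span, Set.image_singleton]
  have hx : algebraMap k[X] (integralClosure k[X] κ) Polynomial.X ∈ P ^ e := by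
    have h1 : Ideal.map (algebraMap k[X] (integralClosure k[X] κ)) p ≤ P ^ e :=
      Ideal.le_pow_ramificationIdx'
    exact h1 (Ideal.mem_map_of_mem _ (Ideal.mem_span_singleton_self _))
  have hx' : algebraMap k[X] (integralClosure k[X] κ) Polynomial.X ∉ P ^ (e + 1) := by
    intro h1
    have h2 : Ideal.map (algebraMap k[X] (integralClosure k[X] κ)) p ≤ P ^ (e + 1) := by
      rw [hmap, Ideal.span_singleton_le_iff_mem]
      exact h1
    by_cases hb : BddAbove {n : ℕ | Ideal.map (algebraMap k[X] (integralClosure k[X] κ)) p ≤ P ^ n}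
    · have h3 : e + 1 ≤ e := le_csSup hb h2
      omega
    · have h3 : e = 0 := Nat.sSup_of_not_bddAbove hb
      rw [h3] at he
      exact absurd he (by decide)
  have hres := hasOddPlace_of_prime (k := k) (κ := κ) P hPbot (by rw [hfin]; exact hf)
    (algebraMap k[X] (integralClosure k[X] κ) Polynomial.X) e he hx hx'
  have e1 : (algebraMap (integralClosure k[X] κ) κ).comp (algebraMap k (integralClosure k[X] κ)) =
      (algebraMap (RatFunc k) κ).comp RatFunc.C := by
    ext a
    show algebraMap k[X] κ (Polynomial.C a) = algebraMap (RatFunc k) κ (RatFunc.C a)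
    rw [IsScalarTower.algebraMap_apply k[X] (RatFunc k) κ, RatFunc.algebraMap_C]
  have e2 : algebraMap (integralClosure k[X] κ) κ
      (algebraMap k[X] (integralClosure k[X] κ) Polynomial.X) = algebraMap (RatFunc k) κ RatFunc.X := by
    show algebraMap k[X] κ Polynomial.X = algebraMap (RatFunc k) κ RatFunc.X
    rw [IsScalarTower.algebraMap_apply k[X] (RatFunc k) κ, RatFunc.algebraMap_X]
  rw [e1, e2] at hres
  exact hres

end Pool.Agent.H697w
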