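import Mathlib
import Pool.Agent.H697w.Defs
import Pool.Agent.H697w.W6

set_option autoImplicit false

namespace Pool.Agent.H697w
open Polynomial

/-! PROOF OF THE TARGET in words.
Let σ : RatFunc k ≃+* RatFunc k be the k-automorphism with σ(X) = 1/X (k[X] → RatFunc k, X ↦ X⁻¹ is injective since X⁻¹ is
transcendental over k; extend it to RatFunc k (IsFractionRing.lift / RatFunc.liftRingHom); σ∘σ = id since it fixes C a and X; so
σ is an equivalence). Give κ the new (RatFunc k)-algebra structure ((algebraMap (RatFunc k) κ).comp σ).toAlgebra; its finrank is the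
same (Algebra.finrank_eq_of_equiv_equiv, or LinearEquiv / semilinear argument) and it is finite-dimensional. Apply hasOddPlace_X to
it (with @ or letI): the new φ is (algebraMap).comp (σ.comp C) = (algebraMap).comp C, the new x is algebraMap (σ X) = (algebraMap X)⁻¹.
-/

theorem invX_eval_inj (k : Type) [Field k] : Function.Injective
    (Polynomial.eval₂RingHom (RatFunc.C : k →+* RatFunc k) (RatFunc.X : RatFunc k)⁻¹) := by
  rw [injective_iff_map_eq_zero]
  intro p hp
  rw [Polynomial.coe_eval₂RingHom] at hp
  have hX : (RatFunc.X : RatFunc k) ≠ 0 := RatFunc.X_ne_zero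
  let _ : Invertible (RatFunc.X : RatFunc k)⁻¹ := invertibleOfNonzero (inv_ne_zero hX)
  have h1 := (Polynomial.eval₂_reverse_eq_zero_iff (RatFunc.C : k →+* RatFunc k)
    ((RatFunc.X : RatFunc k)⁻¹) p).2 hp
  have h2 : (⅟((RatFunc.X : RatFunc k)⁻¹) : RatFunc k) = RatFunc.X := by
    rw [invOf_eq_inv, inv_inv]
  rw [h2] at h1
  have h3 : ∀ q : Polynomial k, Polynomial.eval₂ (RatFunc.C : k →+* RatFunc k) RatFunc.X q
      = algebraMap (Polynomial k) (RatFunc k) q := by
    intro q
    have : (Polynomial.eval₂RingHom (RatFunc.C : k →+* RatFunc k) (RatFunc.X : RatFunc k))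
        = algebraMap (Polynomial k) (RatFunc k) := by
      apply Polynomial.ringHom_ext
      · intro a
        simp
      · simp
    have h4 := congrArg (fun f : Polynomial k →+* RatFunc k => f q) this
    simpa using h4
  rw [h3] at h1
  have h5 : p.reverse = 0 := by
    apply IsFractionRing.injective (Polynomial k) (RatFunc k)
    rw [h1, map_zero]
  exact Polynomial.reverse_eq_zero.1 h5

/-- the substitution X -> 1/X -/
noncomputable def invX (k : Type) [Field k] : RatFunc k →+* RatFunc k :=
  IsFractionRing.lift (invX_eval_inj k)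

theorem invX_algebraMap (k : Type) [Field k] (p : Polynomial k) :
    invX k (algebraMap (Polynomial k) (RatFunc k) p)
      = Polynomial.eval₂ (RatFunc.C : k →+* RatFunc k) (RatFunc.X : RatFunc k)⁻¹ p := by
  unfold invX
  rw [IsFractionRing.lift_algebraMap]
  rfl

theorem invX_C (k : Type) [Field k] (a : k) : invX k (RatFunc.C a) = RatFunc.C a := by
  rw [← RatFunc.algebraMap_C, invX_algebraMap, Polynomial.eval₂_C]
  rw [RatFunc.algebraMap_C]

theorem invX_X (k : Type) [Field k] : invX k RatFunc.X = (RatFunc.X : RatFunc k)⁻¹ := by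
  rw [← RatFunc.algebraMap_X, invX_algebraMap, Polynomial.eval₂_X]
  rw [RatFunc.algebraMap_X]

theorem invX_invX (k : Type) [Field k] : (invX k).comp (invX k) = RingHom.id (RatFunc k) := by
  apply IsLocalization.ringHom_ext (nonZeroDivisors (Polynomial k))
  apply Polynomial.ringHom_ext
  · intro a
    simp only [RingHom.comp_apply, RingHom.id_apply]
    rw [RatFunc.algebraMap_C, invX_C, invX_C]
  · simp only [RingHom.comp_apply, RingHom.id_apply]
    rw [RatFunc.algebraMap_X, invX_X, map_inv₀, invX_X, inv_inv]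

/-- the substitution X -> 1/X as an automorphism -/
noncomputable def invXE (k : Type) [Field k] : RatFunc k ≃+* RatFunc k :=
  RingEquiv.ofRingHom (invX k) (invX k) (invX_invX k) (invX_invX k)

/-- the twisted algebra structure -/
@[reducible] noncomputable def twAlg {k κ : Type} [Field k] [Field κ] (a1 : Algebra (RatFunc k) κ) :
    Algebra (RatFunc k) κ :=
  ((@algebraMap (RatFunc k) κ _ _ a1).comp (invX k)).toAlgebra

theorem twAlg_map {k κ : Type} [Field k] [Field κ] (a1 : Algebra (RatFunc k) κ) (x : RatFunc k) :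
    @algebraMap (RatFunc k) κ _ _ (twAlg a1) x = @algebraMap (RatFunc k) κ _ _ a1 (invX k x) :=
  rfl

theorem twAlg_finrank {k κ : Type} [Field k] [Field κ] (a1 : Algebra (RatFunc k) κ) :
    @Module.finrank (RatFunc k) κ _ _ (twAlg a1).toModule
      = @Module.finrank (RatFunc k) κ _ _ a1.toModule := by
  refine @Algebra.finrank_eq_of_equiv_equiv (RatFunc k) κ _ _ (twAlg a1) (RatFunc k) κ _ _ a1
      (invXE k) (RingEquiv.refl κ) ?_
  apply RingHom.ext
  intro x
  rfl

/-! TARGET -/
theorem hasOddPlace_inv {k κ : Type} [Field k] [CharZero k] [Field κ] [Algebra (RatFunc k) κ]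
    [FiniteDimensional (RatFunc k) κ] (hodd : Odd (Module.finrank (RatFunc k) κ)) :
    HasOddPlace k κ ((algebraMap (RatFunc k) κ).comp RatFunc.C)
      (algebraMap (RatFunc k) κ RatFunc.X)⁻¹ := by
  rename_i a1 _
  have hodd2 : Odd (@Module.finrank (RatFunc k) κ _ _ (twAlg a1).toModule) := by
    rw [twAlg_finrank]; exact hodd
  have hfd : @FiniteDimensional (RatFunc k) κ _ _ (twAlg a1).toModule :=
    @FiniteDimensional.of_finrank_pos (RatFunc k) κ _ _ (twAlg a1).toModule hodd2.pos
  have key := @hasOddPlace_X k κ _ _ _ (twAlg a1) hfd hodd2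
  have e1 : (@algebraMap (RatFunc k) κ _ _ (twAlg a1)).comp RatFunc.C
      = (@algebraMap (RatFunc k) κ _ _ a1).comp RatFunc.C := by
    apply RingHom.ext
    intro a
    rw [RingHom.comp_apply, RingHom.comp_apply, twAlg_map, invX_C]
  have e2 : @algebraMap (RatFunc k) κ _ _ (twAlg a1) RatFunc.X
      = (@algebraMap (RatFunc k) κ _ _ a1 RatFunc.X)⁻¹ := by
    rw [twAlg_map, invX_X, map_inv₀]
  rw [e1, e2] at key
  exact key

end Pool.Agent.H697w
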