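import Mathlib
import Pool.Agent.H697w.Defs

set_option autoImplicit false

namespace Pool.Agent.H697w
open Polynomial

/-! PROOF OF THE TARGET in words.
Facts: for t in O, ρ t ≠ 0 implies (t:κ)⁻¹ ∈ O (write t⁻¹ = π^n u by hrep; n < 0 would give π^|n| = t u in O and ρ of it 0 while
ρ(t u) ≠ 0). ρ π = 0. NORMALIZATION: for a finite type τ and f : τ → κ not identically zero there are a : κ, a ≠ 0, and
F : τ → O with f t = a * F t for all t, and some t with ρ (F t) ≠ 0 (write each nonzero f t = π^(n t) * u t by hrep, take a = π^n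
with n the minimum of the n t). Proof of lemmaR: suppose c₀ = 0. Put w'_j = (s₀ p_j, s₁ q_j, s_i w_ji), c' = (c₀/s₀, c₁/s₁,
c_i/s_i): the relation becomes ∑_j (π u₀ p'_j² + u₁ q'_j² + ∑_i u_i w'_ji²) = 0, orthogonality is kept. Normalize the family of all
coordinates of all w'_j (index Fin m × Option (Option ι) or similar), and the family c'. So we get the same relation and
orthogonality in O with P_j, Q_j, W_ji, C₁, C_i in O (C₀ = 0), not all of ρ(P_j), ρ(Q_j), ρ(W_ji) zero, and not all of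
ρ(C₁), ρ(C_i) zero. Apply ρ: ∑_j (ρ(u₁) ρ(Q_j)² + ∑_i ρ(u_i) ρ(W_ji)²) = 0 and ρ(C₁) ρ(Q_j) + ∑_i ρ(C_i) ρ(W_ji) = 0. Divide by ρ(u₁)
and use hfull: ρ(Q_j) = 0, ρ(W_ji) = 0 for all j, i. By hker Q_j = π Q'_j, W_ji = π W'_ji. The relation in O divided by π:
∑_j (u₀ P_j² + π (u₁ Q'_j² + ∑_i u_i W'_ji²)) = 0; apply ρ: ρ(u₀) ∑_j ρ(P_j)² = 0, so all ρ(P_j) = 0 by hreal: contradiction.
-/

theorem lemmaR_norm {κ l : Type} [Field κ] [Field l] (O : Subring κ) (ρ : O →+* l) (π : O)
    (hπ : π ≠ 0)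
    (hrep : ∀ y : κ, y ≠ 0 → ∃ (n : ℤ) (u : O), ρ u ≠ 0 ∧ y = (π : κ) ^ n * (u : κ))
    {τ : Type} [Finite τ] (f : τ → κ) (hf : ∃ t, f t ≠ 0) :
    ∃ (a : κ) (F : τ → O), a ≠ 0 ∧ (∀ t, f t = a * (F t : κ)) ∧ ∃ t, ρ (F t) ≠ 0 := by
  classical
  have hπκ : (π : κ) ≠ 0 := fun h => hπ (by ext; simpa using h)
  have h1 : ∀ t : τ, ∃ (n : ℤ) (u : O), f t ≠ 0 → (ρ u ≠ 0 ∧ f t = (π : κ) ^ n * (u : κ)) := by
    intro t
    by_cases h : f t = 0
    · exact ⟨0, 0, fun h' => absurd h h'⟩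
    · obtain ⟨n, u, h2⟩ := hrep (f t) h
      exact ⟨n, u, fun _ => h2⟩
  choose n u hnu using h1
  obtain ⟨t0, ht0⟩ := hf
  have hfin : (Set.univ : Set {t : τ // f t ≠ 0}).Finite := Set.finite_univ
  obtain ⟨t1, -, ht1⟩ := Set.exists_min_image (Set.univ : Set {t : τ // f t ≠ 0})
    (fun t => n t.1) hfin ⟨⟨t0, ht0⟩, Set.mem_univ _⟩
  refine ⟨(π : κ) ^ (n t1.1), fun t => if f t = 0 then 0 else
    π ^ (n t - n t1.1).toNat * u t, zpow_ne_zero _ hπκ, ?_, t1.1, ?_⟩
  · intro t
    by_cases h : f t = 0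
    · simp [h]
    · have h2 := ht1 ⟨t, h⟩ (Set.mem_univ _)
      have h3 : ((n t - n t1.1).toNat : ℤ) = n t - n t1.1 := Int.toNat_of_nonneg (by
        have : n t1.1 ≤ n t := h2
        omega)
      simp only [h, if_false]
      push_cast
      rw [← mul_assoc, ← zpow_natCast, ← zpow_add₀ hπκ, h3]
      have h4 : n t1.1 + (n t - n t1.1) = n t := by ring
      rw [h4]
      exact (hnu t h).2
  · have h2 : f t1.1 ≠ 0 := t1.2
    simp only [h2, if_false, sub_self, Int.toNat_zero, pow_zero, one_mul]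
    exact (hnu t1.1 h2).1

/-! TARGET -/
theorem lemmaR {κ l : Type} [Field κ] [Field l] (O : Subring κ) (ρ : O →+* l) (π : O)
    (hπ : π ≠ 0) (hker : ∀ t : O, ρ t = 0 ↔ ∃ s : O, t = π * s)
    (hrep : ∀ y : κ, y ≠ 0 → ∃ (n : ℤ) (u : O), ρ u ≠ 0 ∧ y = (π : κ) ^ n * (u : κ))
    {ι : Type} [Fintype ι] (u₀ u₁ : O) (u : ι → O) (hu₀ : ρ u₀ ≠ 0) (hu₁ : ρ u₁ ≠ 0)
    (hfull : FullOne l (fun i => ρ (u i) / ρ u₁)) (hreal : RealF l)
    (s₀ s₁ : κ) (s : ι → κ) (hs₀ : s₀ ≠ 0) (hs₁ : s₁ ≠ 0) (hs : ∀ i, s i ≠ 0)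
    (m : ℕ) (p q : Fin m → κ) (w : Fin m → ι → κ) (c₀ c₁ : κ) (c : ι → κ)
    (hrel : ∑ j, (s₀ ^ 2 * ((π : κ) * (u₀ : κ)) * p j ^ 2 + s₁ ^ 2 * (u₁ : κ) * q j ^ 2 +
      ∑ i, s i ^ 2 * (u i : κ) * w j i ^ 2) = 0)
    (horth : ∀ j, c₀ * p j + c₁ * q j + ∑ i, c i * w j i = 0)
    (hc : c₀ ≠ 0 ∨ c₁ ≠ 0 ∨ c ≠ 0) (hw : ∃ j, p j ≠ 0 ∨ q j ≠ 0 ∨ w j ≠ 0) : c₀ ≠ 0 := by
  classical
  intro hc₀
  have hπκ : (π : κ) ≠ 0 := fun h => hπ (by ext; simpa using h)
  have hρπ : ρ π = 0 := (hker π).2 ⟨1, by ring⟩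
  -- the normalised families
  let f : Fin m × Option (Option ι) → κ := fun t => match t.2 with
    | none => s₀ * p t.1
    | some none => s₁ * q t.1
    | some (some i) => s i * w t.1 i
  have hf : ∃ t, f t ≠ 0 := by
    obtain ⟨j, h | h | h⟩ := hw
    · exact ⟨(j, none), mul_ne_zero hs₀ h⟩
    · exact ⟨(j, some none), mul_ne_zero hs₁ h⟩
    · have : ∃ i, w j i ≠ 0 := by
        by_contra hcon
        push Not at hcon
        exact h (funext hcon)
      obtain ⟨i, hi⟩ := this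
      exact ⟨(j, some (some i)), mul_ne_zero (hs i) hi⟩
  let g : Option ι → κ := fun t => match t with
    | none => c₁ / s₁
    | some i => c i / s i
  have hg : ∃ t, g t ≠ 0 := by
    rcases hc with h | h | h
    · exact absurd hc₀ h
    · exact ⟨none, div_ne_zero h hs₁⟩
    · have : ∃ i, c i ≠ 0 := by
        by_contra hcon
        push Not at hcon
        exact h (funext hcon)
      obtain ⟨i, hi⟩ := this
      exact ⟨some i, div_ne_zero hi (hs i)⟩
  obtain ⟨a, F, ha, hF, tF, htF⟩ := lemmaR_norm O ρ π hπ hrep f hf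
  obtain ⟨b, G, hb, hG, tG, htG⟩ := lemmaR_norm O ρ π hπ hrep g hg
  have hP : ∀ j, s₀ * p j = a * (F (j, none) : κ) := fun j => hF (j, none)
  have hQ : ∀ j, s₁ * q j = a * (F (j, some none) : κ) := fun j => hF (j, some none)
  have hW : ∀ j i, s i * w j i = a * (F (j, some (some i)) : κ) := fun j i =>
    hF (j, some (some i))
  have hC1 : c₁ / s₁ = b * (G none : κ) := hG none
  have hC : ∀ i, c i / s i = b * (G (some i) : κ) := fun i => hG (some i)
  -- the relation in `O`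
  have hrelO : ∑ j, (π * u₀ * F (j, none) ^ 2 + u₁ * F (j, some none) ^ 2 +
      ∑ i, u i * F (j, some (some i)) ^ 2) = 0 := by
    have h1 : a ^ 2 * (((∑ j, (π * u₀ * F (j, none) ^ 2 + u₁ * F (j, some none) ^ 2 +
      ∑ i, u i * F (j, some (some i)) ^ 2) : O)) : κ) = 0 := by
      rw [← hrel]
      push_cast
      rw [Finset.mul_sum]
      refine Finset.sum_congr rfl fun j _ => ?_
      rw [mul_add, mul_add, Finset.mul_sum]
      congr 1
      · congr 1
        · calc a ^ 2 * ((π : κ) * u₀ * (F (j, none) : κ) ^ 2)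
              = (π : κ) * u₀ * (a * (F (j, none) : κ)) ^ 2 := by ring
            _ = (π : κ) * u₀ * (s₀ * p j) ^ 2 := by rw [hP]
            _ = _ := by ring
        · calc a ^ 2 * ((u₁ : κ) * (F (j, some none) : κ) ^ 2)
              = (u₁ : κ) * (a * (F (j, some none) : κ)) ^ 2 := by ring
            _ = (u₁ : κ) * (s₁ * q j) ^ 2 := by rw [hQ]
            _ = _ := by ring
      · refine Finset.sum_congr rfl fun i _ => ?_
        calc a ^ 2 * ((u i : κ) * (F (j, some (some i)) : κ) ^ 2)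
            = (u i : κ) * (a * (F (j, some (some i)) : κ)) ^ 2 := by ring
          _ = (u i : κ) * (s i * w j i) ^ 2 := by rw [hW]
          _ = _ := by ring
    have h2 := (mul_eq_zero.1 h1).resolve_left (pow_ne_zero 2 ha)
    exact_mod_cast h2
  have horthO : ∀ j, G none * F (j, some none) + ∑ i, G (some i) * F (j, some (some i)) = 0 := by
    intro j
    have h1 : (b * a) * ((G none * F (j, some none) +
        ∑ i, G (some i) * F (j, some (some i)) : O) : κ) = 0 := by
      have h2 := horth j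
      rw [hc₀, zero_mul, zero_add] at h2
      rw [← h2]
      push_cast
      rw [mul_add, Finset.mul_sum]
      congr 1
      · calc b * a * ((G none : κ) * (F (j, some none) : κ))
            = (b * (G none : κ)) * (a * (F (j, some none) : κ)) := by ring
          _ = (c₁ / s₁) * (s₁ * q j) := by rw [← hC1, ← hQ]
          _ = c₁ * q j := by field_simp
      · refine Finset.sum_congr rfl fun i _ => ?_
        have hsi := hs i
        calc b * a * ((G (some i) : κ) * (F (j, some (some i)) : κ))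
            = (b * (G (some i) : κ)) * (a * (F (j, some (some i)) : κ)) := by ring
          _ = (c i / s i) * (s i * w j i) := by rw [← hC, ← hW]
          _ = c i * w j i := by field_simp
    have h2 := (mul_eq_zero.1 h1).resolve_left (mul_ne_zero hb ha)
    exact_mod_cast h2
  -- apply `ρ`
  have hrelρ : ∑ j, (ρ (F (j, some none)) ^ 2 +
      ∑ i, ρ (u i) / ρ u₁ * ρ (F (j, some (some i))) ^ 2) = 0 := by
    have h1 := congrArg ρ hrelO
    rw [map_sum, map_zero] at h1
    have h2 : ρ u₁ * ∑ j, (ρ (F (j, some none)) ^ 2 +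
        ∑ i, ρ (u i) / ρ u₁ * ρ (F (j, some (some i))) ^ 2) = 0 := by
      rw [← h1, Finset.mul_sum]
      refine Finset.sum_congr rfl fun j _ => ?_
      rw [map_add, map_add, map_sum, map_mul, map_mul, hρπ, zero_mul, zero_mul, zero_add, mul_add,
        Finset.mul_sum, map_mul, map_pow]
      congr 1
      refine Finset.sum_congr rfl fun i _ => ?_
      rw [map_mul, map_pow]
      field_simp
    exact (mul_eq_zero.1 h2).resolve_left hu₁
  have hzero := hfull m (fun j => ρ (F (j, some none))) (fun j i => ρ (F (j, some (some i))))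
    (ρ (G none)) (fun i => ρ (G (some i))) hrelρ
    (by
      intro j
      have h1 := congrArg ρ (horthO j)
      rw [map_zero, map_add, map_mul, map_sum] at h1
      simp only [map_mul] at h1
      exact h1)
    (by
      cases tG with
      | none => exact Or.inl htG
      | some i => exact Or.inr fun h => htG (congrFun h i))
  have hQ0 : ∀ j, ρ (F (j, some none)) = 0 := fun j => (hzero j).1
  have hW0 : ∀ j i, ρ (F (j, some (some i))) = 0 := fun j i => congrFun (hzero j).2 i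
  choose Q' hQ' using fun j => (hker _).1 (hQ0 j)
  choose W' hW' using fun j i => (hker _).1 (hW0 j i)
  have hrelO2 : ∑ j, (u₀ * F (j, none) ^ 2 + π * (u₁ * Q' j ^ 2 + ∑ i, u i * W' j i ^ 2)) = 0 := by
    have h1 : π * ∑ j, (u₀ * F (j, none) ^ 2 + π * (u₁ * Q' j ^ 2 + ∑ i, u i * W' j i ^ 2)) = 0 := by
      rw [← hrelO, Finset.mul_sum]
      refine Finset.sum_congr rfl fun j _ => ?_
      rw [hQ' j]
      have h2 : ∑ i, u i * F (j, some (some i)) ^ 2 = π * (π * ∑ i, u i * W' j i ^ 2) := by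
        rw [Finset.mul_sum, Finset.mul_sum]
        refine Finset.sum_congr rfl fun i _ => ?_
        rw [hW' j i]
        ring
      rw [h2]
      ring
    exact (mul_eq_zero.1 h1).resolve_left hπ
  have hPρ : ∑ j, ρ (F (j, none)) ^ 2 = 0 := by
    have h1 := congrArg ρ hrelO2
    rw [map_sum, map_zero] at h1
    have h2 : ρ u₀ * ∑ j, ρ (F (j, none)) ^ 2 = 0 := by
      rw [← h1, Finset.mul_sum]
      refine Finset.sum_congr rfl fun j _ => ?_
      rw [map_add, map_mul, map_mul, hρπ, zero_mul, add_zero, map_pow]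
    exact (mul_eq_zero.1 h2).resolve_left hu₀
  have hP0 := hreal m _ hPρ
  apply htF
  rcases tF with ⟨j, o⟩
  match o with
  | none => exact hP0 j
  | some none => exact hQ0 j
  | some (some i) => exact hW0 j i

end Pool.Agent.H697w
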