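import Mathlib
import Pool.Agent.H697w.Defs
import Pool.Agent.H697w.W8

set_option autoImplicit false

namespace Pool.Agent.H697w
open Polynomial

/-! PROOF OF THE TARGET in words.
Unfold hpl. (a) RealF l: for y with ∑ y_j² = 0 apply hP l hodd 1 0 (FullOne l b) with q = y, w = 0, d = 0, c = Function.update/
Pi.single i 1 (ι nonempty). (b) For a pair (a₁,a₂) ≠ (0,0) in κ there are s ≠ 0 in κ and e₁, e₂ in O with a_i = s e_i and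
ρ(e₁), ρ(e₂) not both 0 (normalization by the smaller power of π, hrep), so a₁²+a₂² = s² (e₁²+e₂²) with ρ(e₁²+e₂²) ≠ 0 by RealF l.
Apply (b) to ε, δ, (α,β): ε₁²+ε₂² = sε² E₀, δ₁²+δ₂² = sδ² E₁, α²+β² = sh² H, with E₀, E₁, H in O, of nonzero residue, each a sum
of two squares of O. x = π^e v, e = 2e'+1, so x ∈ O, ρ x = 0. φ(b i) is in O with residue algebraMap k l (b i). Apply lemmaR with
s₀ = π^e' sε, u₀ = v E₀, s₁ = sδ, u₁ = E₁, s i = sh, u i = (x+1) H φ(b i). Its hfull: ρ(u i)/ρ(u₁) = (ρ(H)/ρ(E₁)) * b_i and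
ρ(H)/ρ(E₁) = ρ(H) ρ(E₁)/ρ(E₁)² = α'² + β'² by Brahmagupta ((a²+b²)(c²+d²) = (ac-bd)²+(ad+bc)²), not both zero since the product is
nonzero; so hfull is hP l hodd α' β' (rewrite the function).
-/

theorem realF_of {k l : Type} [Field k] [Field l] [Algebra k l] [FiniteDimensional k l]
    (hodd : Odd (Module.finrank k l)) {ι : Type} [Fintype ι] [Nonempty ι] (b : ι → k)
    (hP : POdd k b) : RealF l := by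
  classical
  intro m y hy
  obtain ⟨i₀⟩ := (inferInstance : Nonempty ι)
  have h := hP l hodd 1 0 (Or.inl one_ne_zero) m y (fun _ => 0) 0 (Pi.single i₀ 1)
    (by simpa using hy) (by intro j; simp)
    (Or.inr (by
      intro h0
      have h1 := congrFun h0 i₀
      simp at h1))
  intro j
  exact (h j).1

theorem normPair {κ l : Type} [Field κ] [Field l] (O : Subring κ) (ρ : O →+* l) (π : O)
    (hπ : π ≠ 0)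
    (hrep : ∀ y : κ, y ≠ 0 → ∃ (n : ℤ) (u : O), ρ u ≠ 0 ∧ y = (π : κ) ^ n * (u : κ))
    (a₁ a₂ : κ) (ha : a₁ ≠ 0 ∨ a₂ ≠ 0) :
    ∃ s : κ, s ≠ 0 ∧ ∃ e₁ e₂ : O, a₁ = s * e₁ ∧ a₂ = s * e₂ ∧ (ρ e₁ ≠ 0 ∨ ρ e₂ ≠ 0) := by
  have hπ' : (π : κ) ≠ 0 := by
    intro h; apply hπ; exact Subtype.ext h
  have key : ∀ (n₁ n₂ : ℤ) (u₁ u₂ : O), n₁ ≤ n₂ → ρ u₁ ≠ 0 → ρ u₂ ≠ 0 →
      ∀ a₁ a₂ : κ, a₁ = (π : κ) ^ n₁ * u₁ → a₂ = (π : κ) ^ n₂ * u₂ →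
      ∃ s : κ, s ≠ 0 ∧ ∃ e₁ e₂ : O, a₁ = s * e₁ ∧ a₂ = s * e₂ ∧ ρ e₁ ≠ 0 := by
    intro n₁ n₂ u₁ u₂ hn h1 h2 a₁ a₂ e1 e2
    obtain ⟨d, hd⟩ := Int.le.dest hn
    refine ⟨(π : κ) ^ n₁, zpow_ne_zero _ hπ', u₁, π ^ d * u₂, e1, ?_, h1⟩
    rw [e2, ← hd, zpow_add₀ hπ', zpow_natCast]
    push_cast
    ring
  by_cases h1 : a₁ = 0
  · have h2 : a₂ ≠ 0 := by
      rcases ha with h | h
      · exact absurd h1 h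
      · exact h
    exact ⟨a₂, h2, 0, 1, by simp [h1], by simp, Or.inr (by simp)⟩
  by_cases h2 : a₂ = 0
  · exact ⟨a₁, h1, 1, 0, by simp, by simp [h2], Or.inl (by simp)⟩
  obtain ⟨n₁, u₁, hu₁, e1⟩ := hrep a₁ h1
  obtain ⟨n₂, u₂, hu₂, e2⟩ := hrep a₂ h2
  rcases le_total n₁ n₂ with h | h
  · obtain ⟨s, hs, x₁, x₂, k1, k2, k3⟩ := key n₁ n₂ u₁ u₂ h hu₁ hu₂ a₁ a₂ e1 e2
    exact ⟨s, hs, x₁, x₂, k1, k2, Or.inl k3⟩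
  · obtain ⟨s, hs, x₁, x₂, k1, k2, k3⟩ := key n₂ n₁ u₂ u₁ h hu₂ hu₁ a₂ a₁ e2 e1
    exact ⟨s, hs, x₂, x₁, k2, k1, Or.inr k3⟩

theorem normSq {κ l : Type} [Field κ] [Field l] (O : Subring κ) (ρ : O →+* l) (π : O)
    (hπ : π ≠ 0)
    (hrep : ∀ y : κ, y ≠ 0 → ∃ (n : ℤ) (u : O), ρ u ≠ 0 ∧ y = (π : κ) ^ n * (u : κ))
    (hreal : RealF l)
    (a₁ a₂ : κ) (ha : a₁ ≠ 0 ∨ a₂ ≠ 0) :
    ∃ s : κ, s ≠ 0 ∧ ∃ e₁ e₂ : O, a₁ ^ 2 + a₂ ^ 2 = s ^ 2 * ((e₁ ^ 2 + e₂ ^ 2 : O) : κ) ∧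
      ρ (e₁ ^ 2 + e₂ ^ 2) ≠ 0 := by
  obtain ⟨s, hs, e₁, e₂, h1, h2, h3⟩ := normPair O ρ π hπ hrep a₁ a₂ ha
  refine ⟨s, hs, e₁, e₂, ?_, ?_⟩
  · rw [h1, h2]
    push_cast
    ring
  · intro h0
    rw [map_add, map_pow, map_pow] at h0
    have h := hreal 2 ![ρ e₁, ρ e₂] (by simpa [Fin.sum_univ_two] using h0)
    rcases h3 with h3 | h3
    · exact h3 (h 0)
    · exact h3 (h 1)

/-! TARGET -/
theorem placeB {k κ : Type} [Field k] [Field κ] {φ : k →+* κ} {x : κ}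
    (hpl : HasOddPlace k κ φ x) {ι : Type} [Fintype ι] [Nonempty ι] (b : ι → k) (hP : POdd k b)
    (ε₁ ε₂ δ₁ δ₂ α β : κ) (hε : ε₁ ≠ 0 ∨ ε₂ ≠ 0) (hδ : δ₁ ≠ 0 ∨ δ₂ ≠ 0) (hαβ : α ≠ 0 ∨ β ≠ 0)
    (m : ℕ) (p q : Fin m → κ) (w : Fin m → ι → κ) (c₀ c₁ : κ) (c : ι → κ)
    (hrel : ∑ j, (x * (ε₁ ^ 2 + ε₂ ^ 2) * p j ^ 2 + (δ₁ ^ 2 + δ₂ ^ 2) * q j ^ 2 +
      ∑ i, (x + 1) * (α ^ 2 + β ^ 2) * φ (b i) * w j i ^ 2) = 0)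
    (horth : ∀ j, c₀ * p j + c₁ * q j + ∑ i, c i * w j i = 0)
    (hc : c₀ ≠ 0 ∨ c₁ ≠ 0 ∨ c ≠ 0) (hw : ∃ j, p j ≠ 0 ∨ q j ≠ 0 ∨ w j ≠ 0) : c₀ ≠ 0 := by
  classical
  obtain ⟨l, instF, instA, O, ρ, π, e, v, hfd, hodd, hπ, hker, hrep, hφ, he, hv, hx⟩ := hpl
  have hreal : RealF l := realF_of hodd b hP
  have hπ' : (π : κ) ≠ 0 := by
    intro h; apply hπ; exact Subtype.ext h
  have hρπ : ρ π = 0 := (hker π).2 ⟨1, by simp⟩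
  obtain ⟨sε, hsε, f₁, f₂, hε1, hε2⟩ := normSq O ρ π hπ hrep hreal ε₁ ε₂ hε
  obtain ⟨sδ, hsδ, g₁, g₂, hδ1, hδ2⟩ := normSq O ρ π hπ hrep hreal δ₁ δ₂ hδ
  obtain ⟨sh, hsh, h₁, h₂, hh1, hh2⟩ := normSq O ρ π hπ hrep hreal α β hαβ
  obtain ⟨e', he'⟩ := he
  choose t ht1 ht2 using fun i => hφ (b i)
  have hX : ρ (π ^ e * v) = 0 := by
    rw [map_mul, map_pow, hρπ, he']
    simp
  have hX1 : ρ (π ^ e * v + 1) = 1 := by rw [map_add, hX]; simp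
  have hxO : x = ((π ^ e * v : O) : κ) := by rw [hx]; push_cast; ring
  refine lemmaR O ρ π hπ hker hrep (v * (f₁ ^ 2 + f₂ ^ 2)) (g₁ ^ 2 + g₂ ^ 2)
    (fun i => (π ^ e * v + 1) * (h₁ ^ 2 + h₂ ^ 2) * t i)
    (by rw [map_mul]; exact mul_ne_zero hv hε2) hδ2 ?_ hreal
    ((π : κ) ^ e' * sε) sδ (fun _ => sh) (mul_ne_zero (pow_ne_zero _ hπ') hsε) hsδ
    (fun _ => hsh) m p q w c₀ c₁ c ?_ horth hc hw
  · have hα : ∃ α' β' : l, (α' ≠ 0 ∨ β' ≠ 0) ∧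
        ρ (h₁ ^ 2 + h₂ ^ 2) / ρ (g₁ ^ 2 + g₂ ^ 2) = α' ^ 2 + β' ^ 2 := by
      have hD : (ρ g₁ ^ 2 + ρ g₂ ^ 2 : l) ≠ 0 := by
        simpa [map_add, map_pow] using hδ2
      have hN : (ρ h₁ ^ 2 + ρ h₂ ^ 2 : l) ≠ 0 := by
        simpa [map_add, map_pow] using hh2
      have hid : (ρ h₁ ^ 2 + ρ h₂ ^ 2) / (ρ g₁ ^ 2 + ρ g₂ ^ 2) =
          ((ρ h₁ * ρ g₁ - ρ h₂ * ρ g₂) / (ρ g₁ ^ 2 + ρ g₂ ^ 2)) ^ 2 +
          ((ρ h₁ * ρ g₂ + ρ h₂ * ρ g₁) / (ρ g₁ ^ 2 + ρ g₂ ^ 2)) ^ 2 := by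
        field_simp
        ring
      refine ⟨_, _, ?_, by simpa [map_add, map_pow] using hid⟩
      by_contra hcon
      push Not at hcon
      rw [hcon.1, hcon.2] at hid
      have : (ρ h₁ ^ 2 + ρ h₂ ^ 2) / (ρ g₁ ^ 2 + ρ g₂ ^ 2) ≠ 0 := div_ne_zero hN hD
      apply this
      rw [hid]; ring
    obtain ⟨α', β', hne, hαβ'⟩ := hα
    have hfull := hP l hodd α' β' hne
    have hfun : (fun i => ρ ((π ^ e * v + 1) * (h₁ ^ 2 + h₂ ^ 2) * t i) /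
        ρ (g₁ ^ 2 + g₂ ^ 2)) = fun i => (α' ^ 2 + β' ^ 2) * algebraMap k l (b i) := by
      funext i
      rw [← hαβ', map_mul, map_mul, hX1, ht2 i]
      ring
    rw [hfun]
    exact hfull
  · rw [← hrel]
    refine Finset.sum_congr rfl (fun j _ => ?_)
    have hsum : ∑ i, sh ^ 2 * (((π ^ e * v + 1) * (h₁ ^ 2 + h₂ ^ 2) * t i : O) : κ) * w j i ^ 2 =
        ∑ i, (x + 1) * (α ^ 2 + β ^ 2) * φ (b i) * w j i ^ 2 := by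
      refine Finset.sum_congr rfl (fun i _ => ?_)
      rw [hh1, ← ht1 i, hxO]
      push_cast
      ring
    have h0 : ((π : κ) ^ e' * sε) ^ 2 * ((π : κ) * ((v * (f₁ ^ 2 + f₂ ^ 2) : O) : κ)) =
        x * (ε₁ ^ 2 + ε₂ ^ 2) := by
      rw [hε1, hx, he']
      push_cast
      ring
    rw [h0, hδ1]
    congr 1
end Pool.Agent.H697w
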