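import Mathlib
import Pool.Agent.H697w.Defs
import Pool.Agent.H697w.W9
import Pool.Agent.H697w.W6
import Pool.Agent.H697w.W7

set_option autoImplicit false

namespace Pool.Agent.H697w
open Polynomial

/-! PROOF OF THE TARGET in words.
c₀ ≠ 0: placeB with φ = (algebraMap (RatFunc k) κ).comp RatFunc.C, x = algebraMap X, δ = (1,0) (hasOddPlace_X). c₁ ≠ 0: multiply the
relation by x⁻¹ (x = algebraMap X ≠ 0): (ε₁²+ε₂²) p² + x⁻¹ q² + ∑ (x⁻¹ + 1) (α²+β²) φ(b_i) w²; apply placeB with x⁻¹ in the place of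
x (hasOddPlace_inv), the roles of p and q exchanged, its ε = (1,0), its δ = (ε₁,ε₂), its c₀ = our c₁.
-/

/-! TARGET -/
theorem lemmaB {k κ : Type} [Field k] [CharZero k] [Field κ] [Algebra (RatFunc k) κ]
    [FiniteDimensional (RatFunc k) κ] (hodd : Odd (Module.finrank (RatFunc k) κ))
    {ι : Type} [Fintype ι] [Nonempty ι] (b : ι → k) (hP : POdd k b)
    (ε₁ ε₂ α β : κ) (hε : ε₁ ≠ 0 ∨ ε₂ ≠ 0) (hαβ : α ≠ 0 ∨ β ≠ 0)
    (m : ℕ) (p q : Fin m → κ) (w : Fin m → ι → κ) (c₀ c₁ : κ) (c : ι → κ)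
    (hrel : ∑ j, (algebraMap (RatFunc k) κ RatFunc.X * (ε₁ ^ 2 + ε₂ ^ 2) * p j ^ 2 + q j ^ 2 +
      ∑ i, algebraMap (RatFunc k) κ ((RatFunc.X + 1) * RatFunc.C (b i)) * (α ^ 2 + β ^ 2) *
        w j i ^ 2) = 0)
    (horth : ∀ j, c₀ * p j + c₁ * q j + ∑ i, c i * w j i = 0)
    (hc : c₀ ≠ 0 ∨ c₁ ≠ 0 ∨ c ≠ 0) (hw : ∃ j, p j ≠ 0 ∨ q j ≠ 0 ∨ w j ≠ 0) :
    c₀ ≠ 0 ∧ c₁ ≠ 0 := by
  have hx : algebraMap (RatFunc k) κ RatFunc.X ≠ 0 := by
    rw [Ne, map_eq_zero]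
    exact RatFunc.X_ne_zero
  have hmap : ∀ i, algebraMap (RatFunc k) κ ((RatFunc.X + 1) * RatFunc.C (b i)) =
      (algebraMap (RatFunc k) κ RatFunc.X + 1) *
        ((algebraMap (RatFunc k) κ).comp RatFunc.C) (b i) := by
    intro i
    rw [map_mul, map_add, map_one]
    rfl
  have hX := hasOddPlace_X hodd
  have hI := hasOddPlace_inv hodd
  generalize hφ : (algebraMap (RatFunc k) κ).comp RatFunc.C = φ at hX hI hmap
  simp only [hmap] at hrel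
  generalize algebraMap (RatFunc k) κ RatFunc.X = x at hx hrel hX hI
  constructor
  · refine placeB hX b hP ε₁ ε₂ 1 0 α β hε (Or.inl one_ne_zero) hαβ m p q w c₀ c₁ c ?_ horth hc hw
    refine Eq.trans (Finset.sum_congr rfl fun j _ => ?_) hrel
    congr 1
    · ring
    · refine Finset.sum_congr rfl fun i _ => ?_
      ring
  · refine placeB hI b hP 1 0 ε₁ ε₂ α β (Or.inl one_ne_zero) hε hαβ m q p w c₁ c₀ c ?_ ?_ ?_ ?_
    · have h0 : ∑ j, (x⁻¹ * (1 ^ 2 + 0 ^ 2) * q j ^ 2 + (ε₁ ^ 2 + ε₂ ^ 2) * p j ^ 2 +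
          ∑ i, (x⁻¹ + 1) * (α ^ 2 + β ^ 2) * φ (b i) * w j i ^ 2) =
          x⁻¹ * ∑ j, (x * (ε₁ ^ 2 + ε₂ ^ 2) * p j ^ 2 + q j ^ 2 +
            ∑ i, (x + 1) * φ (b i) * (α ^ 2 + β ^ 2) * w j i ^ 2) := by
        rw [Finset.mul_sum]
        refine Finset.sum_congr rfl fun j _ => ?_
        rw [mul_add x⁻¹ (x * (ε₁ ^ 2 + ε₂ ^ 2) * p j ^ 2 + q j ^ 2), Finset.mul_sum]
        congr 1
        · field_simp
          ring
        · refine Finset.sum_congr rfl fun i _ => ?_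
          field_simp
          ring
      rw [h0, hrel, mul_zero]
    · intro j
      rw [← horth j]
      ring
    · tauto
    · obtain ⟨j, hj⟩ := hw
      exact ⟨j, by tauto⟩

end Pool.Agent.H697w

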