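import Mathlib
import Pool.Agent.H697w.Defs
import Pool.Agent.H697w.W10

set_option autoImplicit false

namespace Pool.Agent.H697w
open Polynomial

/-! PROOF OF THE TARGET in words.
κ = AdjoinRoot P over RatFunc k (Fact (Irreducible P)), finrank = natDegree P odd (AdjoinRoot.powerBasis / finrank_eq). Let N be the
largest power with P^N dividing all p j, q j, w j i (exists since not all are zero: e.g. strong induction on a degree, or minimal
total degree: if P divides all of them divide by P; the relation is homogeneous of degree 2, the orthogonality of degree 1). So we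
may assume that P does not divide all p j, q j, w j i. Apply mk P: the relation and orthogonality hold in κ with the images;
mk P (C a) = of P a = algebraMap a; ε = (mk X, 1), X^2 + 1 = ε₁² + ε₂²; (mk α, mk β) ≠ (0,0) since α, β are coprime (if P divides
both it is a unit); c ≠ 0 in κ by hc; lemmaB gives mk c₀ ≠ 0 and mk c₁ ≠ 0 (AdjoinRoot.mk_eq_zero).
-/

theorem lemmaA_scale1 {R : Type} [CommRing R] {ι : Type} [Fintype ι] {m : ℕ} (A B D n : R)
    (g : ι → R) (p q p' q' : Fin m → R) (w w' : Fin m → ι → R) (hp : ∀ j, p j = n * p' j)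
    (hq : ∀ j, q j = n * q' j) (hw : ∀ j i, w j i = n * w' j i) :
    ∑ j, (A * B * p j ^ 2 + q j ^ 2 + ∑ i, g i * D * w j i ^ 2) =
      n ^ 2 * ∑ j, (A * B * p' j ^ 2 + q' j ^ 2 + ∑ i, g i * D * w' j i ^ 2) := by
  rw [Finset.mul_sum]
  refine Finset.sum_congr rfl fun j _ => ?_
  have h : ∑ i, g i * D * w j i ^ 2 = n ^ 2 * ∑ i, g i * D * w' j i ^ 2 := by
    rw [Finset.mul_sum]
    exact Finset.sum_congr rfl fun i _ => by rw [hw j i]; ring
  rw [h, hp j, hq j]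
  ring

theorem lemmaA_scale2 {R : Type} [CommRing R] {ι : Type} [Fintype ι] (n c₀ c₁ p q p' q' : R)
    (c w w' : ι → R) (hp : p = n * p') (hq : q = n * q') (hw : ∀ i, w i = n * w' i) :
    c₀ * p + c₁ * q + ∑ i, c i * w i = n * (c₀ * p' + c₁ * q' + ∑ i, c i * w' i) := by
  have h : ∑ i, c i * w i = n * ∑ i, c i * w' i := by
    rw [Finset.mul_sum]
    exact Finset.sum_congr rfl fun i _ => by rw [hw i]; ring
  rw [h, hp, hq]
  ring

/-- dividing by the common power of the irreducible polynomial -/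
theorem lemmaA_div {K : Type} [Field K] {ι : Type} (P : K[X]) (hP : Irreducible P) (m : ℕ)
    (p q : Fin m → K[X]) (w : Fin m → ι → K[X])
    (hw : ∃ j, p j ≠ 0 ∨ q j ≠ 0 ∨ w j ≠ 0) :
    ∃ (N : ℕ) (p' q' : Fin m → K[X]) (w' : Fin m → ι → K[X]),
      (∀ j, p j = P ^ N * p' j) ∧ (∀ j, q j = P ^ N * q' j) ∧
      (∀ j i, w j i = P ^ N * w' j i) ∧
      ¬ ∀ j, P ∣ p' j ∧ P ∣ q' j ∧ ∀ i, P ∣ w' j i := by
  classical
  have hex : ∃ n : ℕ, ¬ ∀ j, P ^ (n + 1) ∣ p j ∧ P ^ (n + 1) ∣ q j ∧ ∀ i, P ^ (n + 1) ∣ w j i := by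
    have hfin : ∀ x : K[X], x ≠ 0 → ∃ n : ℕ, ¬ P ^ (n + 1) ∣ x := by
      intro x hx
      exact FiniteMultiplicity.of_not_isUnit hP.not_isUnit hx
    obtain ⟨j, hj | hj | hj⟩ := hw
    · obtain ⟨n, hn⟩ := hfin _ hj
      exact ⟨n, fun h => hn (h j).1⟩
    · obtain ⟨n, hn⟩ := hfin _ hj
      exact ⟨n, fun h => hn (h j).2.1⟩
    · obtain ⟨i, hi⟩ := Function.ne_iff.1 hj
      obtain ⟨n, hn⟩ := hfin _ hi
      exact ⟨n, fun h => hn ((h j).2.2 i)⟩
  have hN := Nat.find_spec hex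
  have hmin := fun n (hn : n < Nat.find hex) => Nat.find_min hex hn
  set N := Nat.find hex with hNdef
  have hdiv : ∀ j, P ^ N ∣ p j ∧ P ^ N ∣ q j ∧ ∀ i, P ^ N ∣ w j i := by
    rcases Nat.eq_zero_or_pos N with h0 | h0
    · intro j
      rw [h0, pow_zero]
      exact ⟨one_dvd _, one_dvd _, fun i => one_dvd _⟩
    · have h1 := not_not.1 (hmin (N - 1) (by omega))
      have h2 : N - 1 + 1 = N := by omega
      rw [h2] at h1
      exact h1
  choose p' hp' using fun j => (hdiv j).1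
  choose q' hq' using fun j => (hdiv j).2.1
  choose w' hw' using fun j => (hdiv j).2.2
  refine ⟨N, p', q', w', hp', hq', hw', fun h => hN fun j => ?_⟩
  have hs : ∀ x y : K[X], x = P ^ N * y → P ∣ y → P ^ (N + 1) ∣ x := by
    rintro x y rfl ⟨t, rfl⟩
    exact ⟨t, by ring⟩
  exact ⟨hs _ _ (hp' j) (h j).1, hs _ _ (hq' j) (h j).2.1, fun i =>
    hs _ _ (hw' j i) ((h j).2.2 i)⟩

/-- the target for an abstract residue field -/
theorem lemmaA_core {k κ : Type} [Field k] [CharZero k] [Field κ] [Algebra (RatFunc k) κ]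
    [FiniteDimensional (RatFunc k) κ] (hodd : Odd (Module.finrank (RatFunc k) κ))
    (mk : (RatFunc k)[X] →+* κ) (P : (RatFunc k)[X]) (hPirr : Irreducible P)
    (hmk : ∀ x, mk x = 0 ↔ P ∣ x) (halg : ∀ a, mk (C a) = algebraMap (RatFunc k) κ a)
    {ι : Type} [Fintype ι] [Nonempty ι]
    (b : ι → k) (hP : POdd k b) (α β : (RatFunc k)[X]) (hαβ : IsCoprime α β)
    (m : ℕ) (p' q' : Fin m → (RatFunc k)[X]) (w' : Fin m → ι → (RatFunc k)[X])
    (c₀ c₁ : (RatFunc k)[X]) (c : ι → (RatFunc k)[X])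
    (hrel' : ∑ j, (C (RatFunc.X : RatFunc k) * (X ^ 2 + 1) * p' j ^ 2 + q' j ^ 2 +
      ∑ i, C (((RatFunc.X : RatFunc k) + 1) * RatFunc.C (b i)) * (α ^ 2 + β ^ 2) *
        w' j i ^ 2) = 0)
    (horth' : ∀ j, c₀ * p' j + c₁ * q' j + ∑ i, c i * w' j i = 0)
    (hc : ¬ (P ∣ c₀ ∧ P ∣ c₁ ∧ ∀ i, P ∣ c i))
    (hprim : ¬ ∀ j, P ∣ p' j ∧ P ∣ q' j ∧ ∀ i, P ∣ w' j i) :
    ¬ P ∣ c₀ ∧ ¬ P ∣ c₁ := by
  classical
  have hrelκ := congrArg mk hrel'
  have horthκ := fun j => congrArg mk (horth' j)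
  simp only [map_sum, map_add, map_mul, map_pow, map_one, map_zero, halg] at hrelκ horthκ
  have hαβ' : mk α ≠ 0 ∨ mk β ≠ 0 := by
    by_contra hcon
    rw [not_or, not_not, not_not, hmk, hmk] at hcon
    exact hPirr.not_isUnit (hαβ.isUnit_of_dvd' hcon.1 hcon.2)
  have hcκ : mk c₀ ≠ 0 ∨ mk c₁ ≠ 0 ∨ (fun i => mk (c i)) ≠ 0 := by
    by_contra hcon
    rw [not_or, not_or, not_not, not_not, not_not, hmk, hmk] at hcon
    exact hc ⟨hcon.1, hcon.2.1, fun i => (hmk _).1 (congrFun hcon.2.2 i)⟩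
  have hwκ : ∃ j, mk (p' j) ≠ 0 ∨ mk (q' j) ≠ 0 ∨ (fun i => mk (w' j i)) ≠ 0 := by
    by_contra hcon
    push Not at hcon
    exact hprim fun j => ⟨(hmk _).1 (hcon j).1, (hmk _).1 (hcon j).2.1, fun i =>
      (hmk _).1 (congrFun (hcon j).2.2 i)⟩
  have hB := lemmaB (κ := κ) hodd b hP (mk X) 1 (mk α) (mk β) (Or.inr one_ne_zero) hαβ' m
    (fun j => mk (p' j)) (fun j => mk (q' j)) (fun j i => mk (w' j i)) (mk c₀) (mk c₁)
    (fun i => mk (c i))
    (by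
      rw [← hrelκ]
      refine Finset.sum_congr rfl fun j _ => ?_
      rw [one_pow]
      simp only [map_add, map_mul, map_one]) horthκ hcκ hwκ
  rw [Ne, hmk, Ne, hmk] at hB
  exact hB

/-! TARGET -/
theorem lemmaA {k : Type} [Field k] [CharZero k] {ι : Type} [Fintype ι] [Nonempty ι]
    (b : ι → k) (hP : POdd k b) (α β : (RatFunc k)[X]) (hαβ : IsCoprime α β)
    (P : (RatFunc k)[X]) (hPirr : Irreducible P) (hPodd : Odd P.natDegree)
    (m : ℕ) (p q : Fin m → (RatFunc k)[X]) (w : Fin m → ι → (RatFunc k)[X])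
    (c₀ c₁ : (RatFunc k)[X]) (c : ι → (RatFunc k)[X])
    (hrel : ∑ j, (C (RatFunc.X : RatFunc k) * (X ^ 2 + 1) * p j ^ 2 + q j ^ 2 +
      ∑ i, C (((RatFunc.X : RatFunc k) + 1) * RatFunc.C (b i)) * (α ^ 2 + β ^ 2) * w j i ^ 2) = 0)
    (horth : ∀ j, c₀ * p j + c₁ * q j + ∑ i, c i * w j i = 0)
    (hc : ¬ (P ∣ c₀ ∧ P ∣ c₁ ∧ ∀ i, P ∣ c i)) (hw : ∃ j, p j ≠ 0 ∨ q j ≠ 0 ∨ w j ≠ 0) :
    ¬ P ∣ c₀ ∧ ¬ P ∣ c₁ := by
  classical
  obtain ⟨N, p', q', w', hp', hq', hw', hprim⟩ := lemmaA_div P hPirr m p q w hw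
  have hP0 : P ≠ 0 := hPirr.ne_zero
  have hPN : P ^ N ≠ 0 := pow_ne_zero _ hP0
  have hrel' : ∑ j, (C (RatFunc.X : RatFunc k) * (X ^ 2 + 1) * p' j ^ 2 + q' j ^ 2 +
      ∑ i, C (((RatFunc.X : RatFunc k) + 1) * RatFunc.C (b i)) * (α ^ 2 + β ^ 2) *
        w' j i ^ 2) = 0 := by
    have h1 := (lemmaA_scale1 (C (RatFunc.X : RatFunc k)) (X ^ 2 + 1) (α ^ 2 + β ^ 2) (P ^ N)
      (fun i => C (((RatFunc.X : RatFunc k) + 1) * RatFunc.C (b i))) p q p' q' w w' hp' hq'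
      hw').symm.trans hrel
    exact (mul_eq_zero.1 h1).resolve_left (pow_ne_zero _ hPN)
  have horth' : ∀ j, c₀ * p' j + c₁ * q' j + ∑ i, c i * w' j i = 0 := by
    intro j
    have h1 := (lemmaA_scale2 (P ^ N) c₀ c₁ (p j) (q j) (p' j) (q' j) c (w j) (w' j) (hp' j)
      (hq' j) (hw' j)).symm.trans (horth j)
    exact (mul_eq_zero.1 h1).resolve_left hPN
  have : Fact (Irreducible P) := ⟨hPirr⟩
  have hfd : FiniteDimensional (RatFunc k) (AdjoinRoot P) :=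
    (AdjoinRoot.powerBasis hP0).finite
  have hodd : Odd (Module.finrank (RatFunc k) (AdjoinRoot P)) := by
    rw [(AdjoinRoot.powerBasis hP0).finrank, AdjoinRoot.powerBasis_dim]
    exact hPodd
  exact lemmaA_core hodd (AdjoinRoot.mk P) P hPirr (fun x => AdjoinRoot.mk_eq_zero)
    (fun a => by rw [AdjoinRoot.mk_C, AdjoinRoot.algebraMap_eq]) b hP α β hαβ m p' q' w' c₀ c₁ c
    hrel' horth' hc hprim

end Pool.Agent.H697w

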