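import Mathlib
import Pool.Agent.H697w.Defs
import Pool.Agent.H697w.W10

set_option autoImplicit false

namespace Pool.Agent.H697w
open Polynomial

/-! PROOF OF THE TARGET in words.
Let d = max (natDegree α, natDegree β), a* = α.coeff d, b* = β.coeff d (not both 0). Multiply all p, q, w by X^(d+1) (allowed: the
relation is homogeneous); then the following shifted indices are natural numbers. M = the largest of all natDegree (p j) + 1 (p j ≠ 0),
natDegree (q j) (q j ≠ 0), natDegree (w j i) + d (w j i ≠ 0). So natDegree p j ≤ M - 1, q j ≤ M, w j i ≤ M - d and the vectors of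
coefficients p*_j = coeff (M-1), q*_j = coeff M, w*_ji = coeff (M-d) are not all 0. The coefficient of X^(2M) of the relation:
∑_j (x p*_j² + q*_j² + ∑ (x+1) b_i (a*²+b*²) w*_ji²) = 0 over F = RatFunc k (use Polynomial.coeff_mul_add_eq_of_natDegree_le and friends).
Similarly multiply c₀, c₁, c_i by X^(d+1) and let N' be the largest of natDegree c₀ + d, natDegree c₁ + d + 1, natDegree c_i + 1 (over
the nonzero ones); c₀* = coeff (N' - d), c₁* = coeff (N'-d-1), c_i* = coeff (N' - 1) (natural numbers after the multiplication), not all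
zero; the coefficient of X^(M + N' - d - 1) of the orthogonality: c₀* p*_j + c₁* q*_j + ∑ c_i* w*_ji = 0. lemmaB with κ = F = RatFunc k
itself (finrank 1, odd), ε = (1,0): c₀* ≠ 0, c₁* ≠ 0. So natDegree c₀ = N' - d (after the shift), natDegree c₁ = N' - d - 1, so
natDegree c₀ = natDegree c₁ + 1 (the shift by d+1 is the same for both).
-/

/-- job helper: top weighted coefficients -/
theorem exists_top {F : Type} [Field F] {T : Type} [Fintype T] (f : T → F[X]) (s : T → ℕ) (D : ℕ)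
    (hs : ∀ t, s t ≤ D) (hf : ∃ t, f t ≠ 0) :
    ∃ K : ℕ, (∀ t, (X ^ D * f t).natDegree ≤ K + (D - s t)) ∧
      ∃ t, (X ^ D * f t).coeff (K + (D - s t)) ≠ 0 := by
  classical
  have hne : (Finset.univ.filter (fun t => f t ≠ 0)).Nonempty := by
    obtain ⟨t, ht⟩ := hf
    exact ⟨t, by simp [ht]⟩
  obtain ⟨t₀, ht₀, hmax⟩ := Finset.exists_max_image (Finset.univ.filter (fun t => f t ≠ 0))
    (fun t => (f t).natDegree + s t) hne
  have h0 : f t₀ ≠ 0 := by simpa using ht₀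
  refine ⟨(f t₀).natDegree + s t₀, ?_, t₀, ?_⟩
  · intro t
    by_cases ht : f t = 0
    · simp [ht]
    · have h1 := hmax t (by simp [ht])
      have h2 := hs t
      have h3 : (X ^ D * f t).natDegree ≤ D + (f t).natDegree := by
        refine (natDegree_mul_le).trans ?_
        simp
      omega
  · have h2 := hs t₀
    have h4 : (f t₀).natDegree + s t₀ + (D - s t₀) = (f t₀).natDegree + D := by omega
    rw [h4, coeff_X_pow_mul, coeff_natDegree]
    exact leadingCoeff_ne_zero.mpr h0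

theorem exists_M {F : Type} [Field F] {ι : Type} [Fintype ι] (d m : ℕ) (p q : Fin m → F[X])
    (w : Fin m → ι → F[X]) (hw : ∃ j, p j ≠ 0 ∨ q j ≠ 0 ∨ w j ≠ 0) :
    ∃ M : ℕ, (∀ j, (X ^ (d + 1) * p j).natDegree ≤ M + d) ∧
      (∀ j, (X ^ (d + 1) * q j).natDegree ≤ M + (d + 1)) ∧
      (∀ j i, (X ^ (d + 1) * w j i).natDegree ≤ M + 1) ∧
      ∃ j, (X ^ (d + 1) * p j).coeff (M + d) ≠ 0 ∨ (X ^ (d + 1) * q j).coeff (M + (d + 1)) ≠ 0 ∨
        ∃ i, (X ^ (d + 1) * w j i).coeff (M + 1) ≠ 0 := by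
  classical
  obtain ⟨M, hM, tM, htM⟩ := exists_top
    (fun t : (Fin m ⊕ Fin m) ⊕ (Fin m × ι) =>
      Sum.elim (Sum.elim p q) (fun t => w t.1 t.2) t)
    (fun t => Sum.elim (Sum.elim (fun _ => 1) (fun _ => 0)) (fun _ => d) t) (d + 1) (by
      rintro ((j | j) | i) <;> simp) (by
      obtain ⟨j, h | h | h⟩ := hw
      · exact ⟨Sum.inl (Sum.inl j), h⟩
      · exact ⟨Sum.inl (Sum.inr j), h⟩
      · obtain ⟨i, hi⟩ := Function.ne_iff.mp h
        exact ⟨Sum.inr (j, i), hi⟩)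
  have ed1 : d + 1 - 1 = d := by omega
  have ed2 : d + 1 - d = 1 := by omega
  have ed3 : d + 1 - 0 = d + 1 := by omega
  refine ⟨M, fun j => ?_, fun j => ?_, fun j i => ?_, ?_⟩
  · have := hM (Sum.inl (Sum.inl j))
    simp only [Sum.elim_inl, ed1] at this
    exact this
  · have := hM (Sum.inl (Sum.inr j))
    simp only [Sum.elim_inl, Sum.elim_inr, ed3] at this
    exact this
  · have := hM (Sum.inr (j, i))
    simp only [Sum.elim_inr, ed2] at this
    exact this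
  · obtain ((j | j) | i) := tM
    · simp only [Sum.elim_inl, ed1] at htM
      exact ⟨j, Or.inl htM⟩
    · simp only [Sum.elim_inl, Sum.elim_inr, ed3] at htM
      exact ⟨j, Or.inr (Or.inl htM)⟩
    · simp only [Sum.elim_inr, ed2] at htM
      exact ⟨i.1, Or.inr (Or.inr ⟨i.2, htM⟩)⟩

theorem exists_N {F : Type} [Field F] {ι : Type} [Fintype ι] (d : ℕ) (c₀ c₁ : F[X])
    (c : ι → F[X]) (hc : c₀ ≠ 0 ∨ c₁ ≠ 0 ∨ c ≠ 0) :
    ∃ N : ℕ, (X ^ (d + 1) * c₀).natDegree ≤ N + 1 ∧ (X ^ (d + 1) * c₁).natDegree ≤ N ∧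
      (∀ i, (X ^ (d + 1) * c i).natDegree ≤ N + d) ∧
      ((X ^ (d + 1) * c₀).coeff (N + 1) ≠ 0 ∨ (X ^ (d + 1) * c₁).coeff N ≠ 0 ∨
        ∃ i, (X ^ (d + 1) * c i).coeff (N + d) ≠ 0) := by
  classical
  obtain ⟨N, hN, tN, htN⟩ := exists_top
    (fun t : (Unit ⊕ Unit) ⊕ ι => Sum.elim (Sum.elim (fun _ => c₀) (fun _ => c₁)) c t)
    (fun t => Sum.elim (Sum.elim (fun _ => d) (fun _ => d + 1)) (fun _ => 1) t) (d + 1) (by
      rintro ((j | j) | i) <;> simp) (by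
      rcases hc with h | h | h
      · exact ⟨Sum.inl (Sum.inl ()), h⟩
      · exact ⟨Sum.inl (Sum.inr ()), h⟩
      · obtain ⟨i, hi⟩ := Function.ne_iff.mp h
        exact ⟨Sum.inr i, hi⟩)
  have ed1 : d + 1 - 1 = d := by omega
  have ed2 : d + 1 - d = 1 := by omega
  have ed3 : d + 1 - (d + 1) = 0 := by omega
  refine ⟨N, ?_, ?_, fun i => ?_, ?_⟩
  · have := hN (Sum.inl (Sum.inl ()))
    simp only [Sum.elim_inl, ed2] at this
    exact this
  · have := hN (Sum.inl (Sum.inr ()))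
    simp only [Sum.elim_inl, Sum.elim_inr, ed3, Nat.add_zero] at this
    exact this
  · have := hN (Sum.inr i)
    simp only [Sum.elim_inr, ed1] at this
    exact this
  · obtain ((j | j) | i) := tN
    · simp only [Sum.elim_inl, ed2] at htN
      exact Or.inl htN
    · simp only [Sum.elim_inl, Sum.elim_inr, ed3, Nat.add_zero] at htN
      exact Or.inr (Or.inl htN)
    · simp only [Sum.elim_inr, ed1] at htN
      exact Or.inr (Or.inr ⟨i, htN⟩)

theorem exists_d {F : Type} [Field F] (α β : F[X]) (hαβ : α ≠ 0 ∨ β ≠ 0) :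
    ∃ d : ℕ, α.natDegree ≤ d ∧ β.natDegree ≤ d ∧ (α.coeff d ≠ 0 ∨ β.coeff d ≠ 0) := by
  refine ⟨max α.natDegree β.natDegree, le_max_left _ _, le_max_right _ _, ?_⟩
  by_cases h1 : β.natDegree ≤ α.natDegree
  · rw [max_eq_left h1]
    by_cases h2 : α = 0
    · have h3 : β ≠ 0 := by
        rcases hαβ with h | h
        · exact absurd h2 h
        · exact h
      right
      have h4 : β.natDegree = 0 := by
        rw [h2] at h1; simpa using h1
      rw [h2, natDegree_zero, ← h4, coeff_natDegree]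
      exact leadingCoeff_ne_zero.mpr h3
    · left
      rw [coeff_natDegree]
      exact leadingCoeff_ne_zero.mpr h2
  · right
    push Not at h1
    rw [max_eq_right h1.le]
    have h6 : β ≠ 0 := by
      rintro rfl
      simp at h1
    rw [coeff_natDegree]
    exact leadingCoeff_ne_zero.mpr h6

theorem finish_deg {F : Type} [Field F] (d N : ℕ) (c₀ c₁ : F[X])
    (k0 : (X ^ (d + 1) * c₀).coeff (N + 1) ≠ 0) (k1 : (X ^ (d + 1) * c₁).coeff N ≠ 0)
    (b0 : (X ^ (d + 1) * c₀).natDegree ≤ N + 1) (b1 : (X ^ (d + 1) * c₁).natDegree ≤ N) :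
    c₀ ≠ 0 ∧ c₁ ≠ 0 ∧ c₀.natDegree = c₁.natDegree + 1 := by
  have hc0 : c₀ ≠ 0 := by
    rintro rfl
    simp at k0
  have hc1 : c₁ ≠ 0 := by
    rintro rfl
    simp at k1
  have a0 : N + 1 ≤ (X ^ (d + 1) * c₀).natDegree := le_natDegree_of_ne_zero k0
  have a1 : N ≤ (X ^ (d + 1) * c₁).natDegree := le_natDegree_of_ne_zero k1
  have n0 : (X ^ (d + 1) * c₀).natDegree = c₀.natDegree + (d + 1) := natDegree_X_pow_mul _ hc0
  have n1 : (X ^ (d + 1) * c₁).natDegree = c₁.natDegree + (d + 1) := natDegree_X_pow_mul _ hc1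
  refine ⟨hc0, hc1, ?_⟩
  omega

theorem rel_coeff {F : Type} [Field F] {ι : Type} [Fintype ι] (A : F) (B : ι → F)
    (α β : F[X]) (d M : ℕ) (hα : α.natDegree ≤ d) (hβ : β.natDegree ≤ d)
    (m : ℕ) (p q : Fin m → F[X]) (w : Fin m → ι → F[X])
    (hrel : ∑ j, (C A * (X ^ 2 + 1) * p j ^ 2 + q j ^ 2 +
      ∑ i, C (B i) * (α ^ 2 + β ^ 2) * w j i ^ 2) = 0)
    (hp : ∀ j, (p j).natDegree ≤ M + d) (hq : ∀ j, (q j).natDegree ≤ M + (d + 1))
    (hw : ∀ j i, (w j i).natDegree ≤ M + 1) :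
    ∑ j, (A * (1 ^ 2 + 0 ^ 2) * (p j).coeff (M + d) ^ 2 + (q j).coeff (M + (d + 1)) ^ 2 +
      ∑ i, B i * (α.coeff d ^ 2 + β.coeff d ^ 2) * (w j i).coeff (M + 1) ^ 2) = 0 := by
  have h := congrArg (fun f => Polynomial.coeff f (2 * (M + (d + 1)))) hrel
  simp only [finsetSum_coeff, coeff_add, coeff_zero] at h
  refine Eq.trans ?_ h
  refine Finset.sum_congr rfl fun j _ => ?_
  have e1 : (C A * (X ^ 2 + 1) * p j ^ 2).coeff (2 * (M + (d + 1))) =
      A * ((p j).coeff (M + d)) ^ 2 := by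
    have e : 2 * (M + (d + 1)) = 2 + 2 * (M + d) := by ring
    rw [mul_assoc, coeff_C_mul, e, coeff_mul_add_eq_of_natDegree_le,
      coeff_pow_of_natDegree_le (hp j)]
    · simp [coeff_one]
    · compute_degree
    · exact natDegree_pow_le_of_le 2 (hp j)
  have e2 : (q j ^ 2).coeff (2 * (M + (d + 1))) = ((q j).coeff (M + (d + 1))) ^ 2 :=
    coeff_pow_of_natDegree_le (hq j)
  have e3 : ∀ i, (C (B i) * (α ^ 2 + β ^ 2) *
      w j i ^ 2).coeff (2 * (M + (d + 1))) = B i *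
      (α.coeff d ^ 2 + β.coeff d ^ 2) * ((w j i).coeff (M + 1)) ^ 2 := by
    intro i
    have e : 2 * (M + (d + 1)) = 2 * d + 2 * (M + 1) := by ring
    rw [mul_assoc, coeff_C_mul, e, coeff_mul_add_eq_of_natDegree_le, coeff_add,
      coeff_pow_of_natDegree_le hα, coeff_pow_of_natDegree_le hβ,
      coeff_pow_of_natDegree_le (hw j i)]
    · ring
    · exact natDegree_add_le_of_degree_le (natDegree_pow_le_of_le 2 hα)
        (natDegree_pow_le_of_le 2 hβ)
    · exact natDegree_pow_le_of_le 2 (hw j i)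
  rw [e1, e2, Finset.sum_congr rfl fun i _ => e3 i]
  ring

theorem orth_coeff {F : Type} [Field F] {ι : Type} [Fintype ι] (d M N : ℕ)
    (p q : F[X]) (w : ι → F[X]) (c₀ c₁ : F[X]) (c : ι → F[X])
    (horth : c₀ * p + c₁ * q + ∑ i, c i * w i = 0)
    (hp : p.natDegree ≤ M + d) (hq : q.natDegree ≤ M + (d + 1))
    (hw : ∀ i, (w i).natDegree ≤ M + 1)
    (hc0 : c₀.natDegree ≤ N + 1) (hc1 : c₁.natDegree ≤ N) (hci : ∀ i, (c i).natDegree ≤ N + d) :
    c₀.coeff (N + 1) * p.coeff (M + d) + c₁.coeff N * q.coeff (M + (d + 1)) +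
      ∑ i, (c i).coeff (N + d) * (w i).coeff (M + 1) = 0 := by
  have h := congrArg (fun f => Polynomial.coeff f (N + (M + (d + 1)))) horth
  simp only [finsetSum_coeff, coeff_add, coeff_zero] at h
  refine Eq.trans ?_ h
  have e1 : (c₀ * p).coeff (N + (M + (d + 1))) = c₀.coeff (N + 1) * p.coeff (M + d) := by
    have e : N + (M + (d + 1)) = (N + 1) + (M + d) := by ring
    rw [e, coeff_mul_add_eq_of_natDegree_le hc0 hp]
  have e2 : (c₁ * q).coeff (N + (M + (d + 1))) = c₁.coeff N * q.coeff (M + (d + 1)) :=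
    coeff_mul_add_eq_of_natDegree_le hc1 hq
  have e3 : ∀ i, (c i * w i).coeff (N + (M + (d + 1))) =
      (c i).coeff (N + d) * (w i).coeff (M + 1) := by
    intro i
    have e : N + (M + (d + 1)) = (N + d) + (M + 1) := by ring
    rw [e, coeff_mul_add_eq_of_natDegree_le (hci i) (hw i)]
  rw [e1, e2, Finset.sum_congr rfl fun i _ => e3 i]

theorem shift_rel {F : Type} [Field F] {ι : Type} [Fintype ι] (A : F) (B : ι → F)
    (α β : F[X]) (d : ℕ) (m : ℕ) (p q : Fin m → F[X]) (w : Fin m → ι → F[X])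
    (hrel : ∑ j, (C A * (X ^ 2 + 1) * p j ^ 2 + q j ^ 2 +
      ∑ i, C (B i) * (α ^ 2 + β ^ 2) * w j i ^ 2) = 0) :
    ∑ j, (C A * (X ^ 2 + 1) * (X ^ (d + 1) * p j) ^ 2 + (X ^ (d + 1) * q j) ^ 2 +
      ∑ i, C (B i) * (α ^ 2 + β ^ 2) * (X ^ (d + 1) * w j i) ^ 2) = 0 := by
  have h := congrArg (fun f => X ^ (2 * (d + 1)) * f) hrel
  simp only [mul_zero] at h
  refine Eq.trans ?_ h
  rw [Finset.mul_sum]
  refine Finset.sum_congr rfl fun j _ => ?_
  rw [mul_add (X ^ (2 * (d + 1))), Finset.mul_sum]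
  refine congrArg₂ (· + ·) ?_ ?_
  · ring
  · refine Finset.sum_congr rfl fun i _ => ?_
    ring

theorem shift_orth {F : Type} [Field F] {ι : Type} [Fintype ι] (d : ℕ)
    (p q : F[X]) (w : ι → F[X]) (c₀ c₁ : F[X]) (c : ι → F[X])
    (horth : c₀ * p + c₁ * q + ∑ i, c i * w i = 0) :
    (X ^ (d + 1) * c₀) * (X ^ (d + 1) * p) + (X ^ (d + 1) * c₁) * (X ^ (d + 1) * q) +
      ∑ i, (X ^ (d + 1) * c i) * (X ^ (d + 1) * w i) = 0 := by
  have h := congrArg (fun f => X ^ (2 * (d + 1)) * f) horth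
  simp only [mul_zero] at h
  refine Eq.trans ?_ h
  rw [mul_add (X ^ (2 * (d + 1))), Finset.mul_sum]
  refine congrArg₂ (· + ·) ?_ ?_
  · ring
  · refine Finset.sum_congr rfl fun i _ => ?_
    ring

/-! TARGET -/
theorem lemmaInf {k : Type} [Field k] [CharZero k] {ι : Type} [Fintype ι] [Nonempty ι]
    (b : ι → k) (hP : POdd k b) (α β : (RatFunc k)[X]) (hαβ : α ≠ 0 ∨ β ≠ 0)
    (m : ℕ) (p q : Fin m → (RatFunc k)[X]) (w : Fin m → ι → (RatFunc k)[X])
    (c₀ c₁ : (RatFunc k)[X]) (c : ι → (RatFunc k)[X])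
    (hrel : ∑ j, (C (RatFunc.X : RatFunc k) * (X ^ 2 + 1) * p j ^ 2 + q j ^ 2 +
      ∑ i, C (((RatFunc.X : RatFunc k) + 1) * RatFunc.C (b i)) * (α ^ 2 + β ^ 2) * w j i ^ 2) = 0)
    (horth : ∀ j, c₀ * p j + c₁ * q j + ∑ i, c i * w j i = 0)
    (hc : c₀ ≠ 0 ∨ c₁ ≠ 0 ∨ c ≠ 0) (hw : ∃ j, p j ≠ 0 ∨ q j ≠ 0 ∨ w j ≠ 0) :
    c₀ ≠ 0 ∧ c₁ ≠ 0 ∧ c₀.natDegree = c₁.natDegree + 1 := by
  obtain ⟨d, hα, hβ, hdne⟩ := exists_d α β hαβ
  obtain ⟨M, hM1, hM2, hM3, hM4⟩ := exists_M d m p q w hw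
  obtain ⟨N, hN1, hN2, hN3, hN4⟩ := exists_N d c₀ c₁ c hc
  have hrel' := rel_coeff (RatFunc.X : RatFunc k)
    (fun i => ((RatFunc.X : RatFunc k) + 1) * RatFunc.C (b i)) α β d M hα hβ m
    (fun j => X ^ (d + 1) * p j) (fun j => X ^ (d + 1) * q j) (fun j i => X ^ (d + 1) * w j i)
    (shift_rel (RatFunc.X : RatFunc k)
      (fun i => ((RatFunc.X : RatFunc k) + 1) * RatFunc.C (b i)) α β d m p q w hrel)
    hM1 hM2 hM3
  have horth' := fun j => orth_coeff d M N (X ^ (d + 1) * p j) (X ^ (d + 1) * q j)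
    (fun i => X ^ (d + 1) * w j i) (X ^ (d + 1) * c₀) (X ^ (d + 1) * c₁)
    (fun i => X ^ (d + 1) * c i) (shift_orth d (p j) (q j) (w j) c₀ c₁ c (horth j))
    (hM1 j) (hM2 j) (hM3 j) hN1 hN2 hN3
  have hfin : Odd (Module.finrank (RatFunc k) (RatFunc k)) := by
    rw [Module.finrank_self]; exact odd_one
  have hcs : (X ^ (d + 1) * c₀).coeff (N + 1) ≠ 0 ∨ (X ^ (d + 1) * c₁).coeff N ≠ 0 ∨
      (fun i => (X ^ (d + 1) * c i).coeff (N + d)) ≠ 0 := by
    rcases hN4 with h | h | ⟨i, h⟩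
    · exact Or.inl h
    · exact Or.inr (Or.inl h)
    · exact Or.inr (Or.inr fun h0 => h (congrFun h0 i))
  have hws : ∃ j, (X ^ (d + 1) * p j).coeff (M + d) ≠ 0 ∨
      (X ^ (d + 1) * q j).coeff (M + (d + 1)) ≠ 0 ∨
      (fun i => (X ^ (d + 1) * w j i).coeff (M + 1)) ≠ 0 := by
    obtain ⟨j, h⟩ := hM4
    refine ⟨j, ?_⟩
    rcases h with h | h | ⟨i, h⟩
    · exact Or.inl h
    · exact Or.inr (Or.inl h)
    · exact Or.inr (Or.inr fun h0 => h (congrFun h0 i))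
  obtain ⟨k0, k1⟩ := lemmaB (κ := RatFunc k) hfin b hP 1 0 (α.coeff d) (β.coeff d)
    (Or.inl one_ne_zero) hdne m
    (fun j => (X ^ (d + 1) * p j).coeff (M + d)) (fun j => (X ^ (d + 1) * q j).coeff (M + (d + 1)))
    (fun j i => (X ^ (d + 1) * w j i).coeff (M + 1)) ((X ^ (d + 1) * c₀).coeff (N + 1))
    ((X ^ (d + 1) * c₁).coeff N) (fun i => (X ^ (d + 1) * c i).coeff (N + d))
    (by simp only [Algebra.algebraMap_self, RingHom.id_apply]; exact hrel') horth' hcs hws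
  exact finish_deg d N c₀ c₁ k0 k1 hN1 hN2

end Pool.Agent.H697w
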