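import Mathlib
import Pool.Agent.H697w.Defs
import Pool.Agent.H697w.W11
import Pool.Agent.H697w.W12

set_option autoImplicit false

namespace Pool.Agent.H697w
open Polynomial

theorem w13_even_deg {K : Type} [Field K] (f : K[X]) (hf : f ≠ 0)
    (h : ∀ P : K[X], Irreducible P → Odd P.natDegree → ¬ P ∣ f) : Even f.natDegree := by
  revert hf h
  refine WfDvdMonoid.induction_on_irreducible f ?_ ?_ ?_
  · intro hf
    exact absurd rfl hf
  · intro u hu _ _
    rw [natDegree_eq_zero_of_isUnit hu]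
    exact Even.zero
  · intro a i ha hi ih hf h
    rw [natDegree_mul hi.ne_zero ha]
    have h1 : Even i.natDegree := by
      rw [← Nat.not_odd_iff_even]
      intro ho
      exact h i hi ho (dvd_mul_right _ _)
    exact h1.add (ih ha (fun P hP ho hd => h P hP ho (hd.mul_left _)))

theorem w13_coprime {k : Type} [Field k] [CharZero k] {ι : Type} [Fintype ι] [Nonempty ι]
    (b : ι → k) (hP : POdd k b) (α β : (RatFunc k)[X]) (hαβ : IsCoprime α β)
    (m : ℕ) (p q : Fin m → (RatFunc k)[X]) (w : Fin m → ι → (RatFunc k)[X])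
    (hrel : ∑ j, (C (RatFunc.X : RatFunc k) * (X ^ 2 + 1) * p j ^ 2 + q j ^ 2 +
      ∑ i, C (((RatFunc.X : RatFunc k) + 1) * RatFunc.C (b i)) * (α ^ 2 + β ^ 2) * w j i ^ 2) = 0)
    (hw : ∃ j, p j ≠ 0 ∨ q j ≠ 0 ∨ w j ≠ 0) :
    ∀ (n : ℕ) (c₀ c₁ : (RatFunc k)[X]) (c : ι → (RatFunc k)[X]), c₀.natDegree = n →
      (∀ j, c₀ * p j + c₁ * q j + ∑ i, c i * w j i = 0) → (c₀ ≠ 0 ∨ c₁ ≠ 0 ∨ c ≠ 0) → False := by
  intro n
  induction n using Nat.strong_induction_on with
  | _ n ih =>
    intro c₀ c₁ c hn horth hc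
    obtain ⟨h0, h1, hdeg⟩ := lemmaInf b hP α β hαβ.ne_zero_or_ne_zero m p q w c₀ c₁ c hrel horth
      hc hw
    by_cases hex : ∃ P : (RatFunc k)[X], Irreducible P ∧ Odd P.natDegree ∧
        (P ∣ c₀ ∧ P ∣ c₁ ∧ ∀ i, P ∣ c i)
    · obtain ⟨P, hPirr, hPodd, ⟨d₀, hd₀⟩, ⟨d₁, hd₁⟩, hd⟩ := hex
      choose d hd using hd
      have hd0 : d₀ ≠ 0 := by
        intro h2
        rw [h2, mul_zero] at hd₀
        exact h0 hd₀
      have hlt : d₀.natDegree < n := by
        rw [← hn, hd₀, natDegree_mul hPirr.ne_zero hd0]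
        have := hPodd.pos
        omega
      refine ih d₀.natDegree hlt d₀ d₁ d rfl ?_ (Or.inl hd0)
      intro j
      have h2 := horth j
      rw [hd₀, hd₁] at h2
      have h3 : ∑ i, c i * w j i = P * ∑ i, d i * w j i := by
        rw [Finset.mul_sum]
        apply Finset.sum_congr rfl
        intro i _
        rw [hd i, mul_assoc]
      rw [h3] at h2
      have h4 : P * (d₀ * p j + d₁ * q j + ∑ i, d i * w j i) = 0 := by
        rw [← h2]
        ring
      rcases mul_eq_zero.mp h4 with h5 | h5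
      · exact absurd h5 hPirr.ne_zero
      · exact h5
    · have key : ∀ P : (RatFunc k)[X], Irreducible P → Odd P.natDegree →
          ¬ P ∣ c₀ ∧ ¬ P ∣ c₁ := by
        intro P hPirr hPodd
        exact lemmaA b hP α β hαβ P hPirr hPodd m p q w c₀ c₁ c hrel horth
          (fun h => hex ⟨P, hPirr, hPodd, h⟩) hw
      have e0 := w13_even_deg c₀ h0 (fun P h2 h3 => (key P h2 h3).1)
      have e1 := w13_even_deg c₁ h1 (fun P h2 h3 => (key P h2 h3).2)
      rw [hdeg] at e0
      rw [Nat.even_add_one] at e0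
      exact e0 e1

/-! TARGET -/
theorem thmG_poly {k : Type} [Field k] [CharZero k] {ι : Type} [Fintype ι] [Nonempty ι]
    (b : ι → k) (hP : POdd k b) (α β : (RatFunc k)[X]) (hαβ : α ≠ 0 ∨ β ≠ 0)
    (m : ℕ) (p q : Fin m → (RatFunc k)[X]) (w : Fin m → ι → (RatFunc k)[X])
    (c₀ c₁ : (RatFunc k)[X]) (c : ι → (RatFunc k)[X])
    (hrel : ∑ j, (C (RatFunc.X : RatFunc k) * (X ^ 2 + 1) * p j ^ 2 + q j ^ 2 +
      ∑ i, C (((RatFunc.X : RatFunc k) + 1) * RatFunc.C (b i)) * (α ^ 2 + β ^ 2) * w j i ^ 2) = 0)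
    (horth : ∀ j, c₀ * p j + c₁ * q j + ∑ i, c i * w j i = 0)
    (hc : c₀ ≠ 0 ∨ c₁ ≠ 0 ∨ c ≠ 0) (j : Fin m) : p j = 0 ∧ q j = 0 ∧ w j = 0 := by
  classical
  by_contra hj
  obtain ⟨g, α', β', hg, hα, hβ, hco⟩ : ∃ g α' β' : (RatFunc k)[X], g ≠ 0 ∧ α = g * α' ∧
      β = g * β' ∧ IsCoprime α' β' := by
    obtain ⟨α', hα⟩ := EuclideanDomain.gcd_dvd_left α β
    obtain ⟨β', hβ⟩ := EuclideanDomain.gcd_dvd_right α β
    have hg : EuclideanDomain.gcd α β ≠ 0 := by
      intro h0
      rw [EuclideanDomain.gcd_eq_zero_iff] at h0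
      rcases hαβ with h | h
      · exact h h0.1
      · exact h h0.2
    refine ⟨EuclideanDomain.gcd α β, α', β', hg, hα, hβ, ?_⟩
    refine ⟨EuclideanDomain.gcdA α β, EuclideanDomain.gcdB α β, ?_⟩
    have h1 := EuclideanDomain.gcd_eq_gcd_ab α β
    have h2 : EuclideanDomain.gcd α β * (EuclideanDomain.gcdA α β * α'
        + EuclideanDomain.gcdB α β * β') = EuclideanDomain.gcd α β * 1 := by
      rw [mul_one]
      calc EuclideanDomain.gcd α β * (EuclideanDomain.gcdA α β * α'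
            + EuclideanDomain.gcdB α β * β')
          = (EuclideanDomain.gcd α β * α') * EuclideanDomain.gcdA α β
            + (EuclideanDomain.gcd α β * β') * EuclideanDomain.gcdB α β := by ring
        _ = α * EuclideanDomain.gcdA α β + β * EuclideanDomain.gcdB α β := by rw [← hα, ← hβ]
        _ = EuclideanDomain.gcd α β := h1.symm
    exact mul_left_cancel₀ hg h2
  refine w13_coprime b hP α' β' hco m p q (fun j i => g * w j i) ?_ ?_ (g * c₀).natDegree
    (g * c₀) (g * c₁) c rfl ?_ ?_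
  · rw [← hrel]
    apply Finset.sum_congr rfl
    intro j _
    congr 1
    apply Finset.sum_congr rfl
    intro i _
    rw [hα, hβ]
    ring
  · refine ⟨j, ?_⟩
    by_contra hcon
    apply hj
    rw [not_or, not_or, not_not, not_not, not_not] at hcon
    refine ⟨hcon.1, hcon.2.1, ?_⟩
    funext i
    have h1 := congrFun hcon.2.2 i
    rcases mul_eq_zero.mp h1 with h2 | h2
    · exact absurd h2 hg
    · exact h2
  · intro j
    have h1 : ∑ i, c i * (g * w j i) = g * ∑ i, c i * w j i := by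
      rw [Finset.mul_sum]
      apply Finset.sum_congr rfl
      intro i _
      ring
    rw [h1]
    have h2 : g * c₀ * p j + g * c₁ * q j + g * ∑ i, c i * w j i
        = g * (c₀ * p j + c₁ * q j + ∑ i, c i * w j i) := by ring
    rw [h2, horth j, mul_zero]
  · rcases hc with h | h | h
    · exact Or.inl (mul_ne_zero hg h)
    · exact Or.inr (Or.inl (mul_ne_zero hg h))
    · exact Or.inr (Or.inr h)

end Pool.Agent.H697w
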