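import Mathlib
import Pool.Agent.H697w.Defs
import Pool.Agent.H697w.W13

set_option autoImplicit false

namespace Pool.Agent.H697w
open Polynomial

/-! PROOF OF THE TARGET in words.
F = RatFunc k, RatFunc F is the fraction field of F[X] (RatFunc.C a = algebraMap F[X] _ (C a), RatFunc.X = algebraMap F[X] _ X). Choose a
nonzero D ∈ F[X] with D α, D β in the image of F[X]: D α = α', D β = β'. Put w' = w / D, c' i = D c i: the relation holds with α', β', w',
the orthogonality with c'. Choose a nonzero D₁ ∈ F[X] with D₁ p, D₁ q, D₁ w' in the image (finitely many elements), and a nonzero D₂ with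
D₂ c₀, D₂ c₁, D₂ c' in the image. Transfer to F[X] by injectivity of F[X] → RatFunc F and apply thmG_poly. (It is convenient to prove
first: for a finite type τ and f : τ → RatFunc F there are D ≠ 0 in F[X] and f' : τ → F[X] with algebraMap D * f t = algebraMap (f' t):
IsLocalization.exist_integer_multiples_of_finite or exist_integer_multiples.)
-/

theorem h18_clear {F : Type} [Field F] {τ : Type} [Finite τ] (f : τ → RatFunc F) :
    ∃ D : F[X], D ≠ 0 ∧ ∃ f' : τ → F[X], ∀ t,
      algebraMap F[X] (RatFunc F) D * f t = algebraMap F[X] (RatFunc F) (f' t) := by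
  obtain ⟨b, hb⟩ := IsLocalization.exist_integer_multiples_of_finite (nonZeroDivisors F[X]) f
  refine ⟨b, nonZeroDivisors.ne_zero b.2, ?_⟩
  choose g hg using hb
  refine ⟨g, fun t => ?_⟩
  rw [hg t, Algebra.smul_def]

/-! TARGET -/
theorem thmG {k : Type} [Field k] [CharZero k] {ι : Type} [Fintype ι] [Nonempty ι]
    (b : ι → k) (hP : POdd k b) (α β : RatFunc (RatFunc k)) (hαβ : α ≠ 0 ∨ β ≠ 0)
    (m : ℕ) (p q : Fin m → RatFunc (RatFunc k)) (w : Fin m → ι → RatFunc (RatFunc k))
    (c₀ c₁ : RatFunc (RatFunc k)) (c : ι → RatFunc (RatFunc k))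
    (hrel : ∑ j, (RatFunc.C (RatFunc.X : RatFunc k) * (RatFunc.X ^ 2 + 1) * p j ^ 2 + q j ^ 2 +
      ∑ i, RatFunc.C (((RatFunc.X : RatFunc k) + 1) * RatFunc.C (b i)) * (α ^ 2 + β ^ 2) * w j i ^ 2) = 0)
    (horth : ∀ j, c₀ * p j + c₁ * q j + ∑ i, c i * w j i = 0)
    (hc : c₀ ≠ 0 ∨ c₁ ≠ 0 ∨ c ≠ 0) (j : Fin m) : p j = 0 ∧ q j = 0 ∧ w j = 0 := by
  obtain ⟨D, hD, g, hg⟩ := h18_clear ![α, β]
  have hga := hg 0
  have hgb := hg 1
  simp only [Matrix.cons_val_zero, Matrix.cons_val_one] at hga hgb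
  set A := algebraMap (RatFunc k)[X] (RatFunc (RatFunc k)) with hA
  have hinj : Function.Injective A := IsFractionRing.injective _ _
  have hAD : A D ≠ 0 := fun h => hD (hinj (by rw [h, map_zero]))
  obtain ⟨D₁, hD₁, f, hf⟩ := h18_clear (Sum.elim (Sum.elim p q)
    (fun x : Fin m × ι => w x.1 x.2 / A D))
  obtain ⟨D₂, hD₂, e, he⟩ := h18_clear (Sum.elim (Sum.elim (fun _ : Unit => c₀) (fun _ : Unit => c₁))
    (fun x : ι => A D * c x))
  have hAD₁ : A D₁ ≠ 0 := fun h => hD₁ (hinj (by rw [h, map_zero]))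
  have hAD₂ : A D₂ ≠ 0 := fun h => hD₂ (hinj (by rw [h, map_zero]))
  have hp : ∀ j, A D₁ * p j = A (f (Sum.inl (Sum.inl j))) := fun j => hf (Sum.inl (Sum.inl j))
  have hq : ∀ j, A D₁ * q j = A (f (Sum.inl (Sum.inr j))) := fun j => hf (Sum.inl (Sum.inr j))
  have hw : ∀ j i, A D₁ * (w j i / A D) = A (f (Sum.inr (j, i))) := fun j i => hf (Sum.inr (j, i))
  have hc0 : A D₂ * c₀ = A (e (Sum.inl (Sum.inl ()))) := he (Sum.inl (Sum.inl ()))
  have hc1 : A D₂ * c₁ = A (e (Sum.inl (Sum.inr ()))) := he (Sum.inl (Sum.inr ()))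
  have hci : ∀ i, A D₂ * (A D * c i) = A (e (Sum.inr i)) := fun i => he (Sum.inr i)
  have hAX : A X = RatFunc.X := RatFunc.algebraMap_X
  have hAC : ∀ a, A (C a) = RatFunc.C a := fun a => RatFunc.algebraMap_C a
  have key := thmG_poly b hP (g 0) (g 1) ?_ m (fun j => f (Sum.inl (Sum.inl j)))
    (fun j => f (Sum.inl (Sum.inr j))) (fun j i => f (Sum.inr (j, i)))
    (e (Sum.inl (Sum.inl ()))) (e (Sum.inl (Sum.inr ()))) (fun i => e (Sum.inr i)) ?_ ?_ ?_ j
  · obtain ⟨k1, k2, k3⟩ := key
    refine ⟨?_, ?_, ?_⟩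
    · have := hp j
      have k1' : f (Sum.inl (Sum.inl j)) = 0 := k1
      rw [k1', map_zero] at this
      exact (mul_eq_zero.mp this).resolve_left hAD₁
    · have := hq j
      have k2' : f (Sum.inl (Sum.inr j)) = 0 := k2
      rw [k2', map_zero] at this
      exact (mul_eq_zero.mp this).resolve_left hAD₁
    · funext i
      have := hw j i
      have k3' : f (Sum.inr (j, i)) = 0 := congrFun k3 i
      rw [k3', map_zero] at this
      have h2 := (mul_eq_zero.mp this).resolve_left hAD₁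
      rcases div_eq_zero_iff.mp h2 with h3 | h3
      · exact h3
      · exact absurd h3 hAD
  · rcases hαβ with h | h
    · left
      intro h0
      rw [h0, map_zero] at hga
      rcases mul_eq_zero.mp hga with h3 | h3
      · exact hAD h3
      · exact h h3
    · right
      intro h0
      rw [h0, map_zero] at hgb
      rcases mul_eq_zero.mp hgb with h3 | h3
      · exact hAD h3
      · exact h h3
  · apply hinj
    rw [map_zero, map_sum]
    have h1 : ∀ j, A (C (RatFunc.X : RatFunc k) * (X ^ 2 + 1) * (f (Sum.inl (Sum.inl j))) ^ 2 +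
        (f (Sum.inl (Sum.inr j))) ^ 2 + ∑ i, C (((RatFunc.X : RatFunc k) + 1) * RatFunc.C (b i)) *
        ((g 0) ^ 2 + (g 1) ^ 2) * (f (Sum.inr (j, i))) ^ 2) =
        A D₁ ^ 2 * (RatFunc.C (RatFunc.X : RatFunc k) * (RatFunc.X ^ 2 + 1) * p j ^ 2 + q j ^ 2 +
      ∑ i, RatFunc.C (((RatFunc.X : RatFunc k) + 1) * RatFunc.C (b i)) * (α ^ 2 + β ^ 2) *
        w j i ^ 2) := by
      intro j
      rw [map_add, map_add, map_mul, map_mul, map_add, map_pow, map_pow, map_pow, map_one, map_sum,
        hAX, hAC, ← hp, ← hq]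
      refine Eq.trans ?_ (mul_add (A D₁ ^ 2) _ _).symm
      rw [Finset.mul_sum]
      congr 1
      · ring
      · refine Finset.sum_congr rfl fun i _ => ?_
        rw [map_mul, map_mul, map_add, map_pow, map_pow, map_pow, hAC, ← hga, ← hgb, ← hw]
        field_simp
    rw [Finset.sum_congr rfl fun j _ => h1 j, ← Finset.mul_sum, hrel, mul_zero]
  · intro j
    apply hinj
    rw [map_zero, map_add, map_add, map_mul, map_mul, map_sum, ← hp, ← hq, ← hc0, ← hc1]
    have h2 : ∀ i, A (e (Sum.inr i) * f (Sum.inr (j, i))) = A D₂ * A D₁ * (c i * w j i) := by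
      intro i
      rw [map_mul, ← hci, ← hw]
      field_simp
    rw [Finset.sum_congr rfl fun i _ => h2 i, ← Finset.mul_sum]
    have := horth j
    calc A D₂ * c₀ * (A D₁ * p j) + A D₂ * c₁ * (A D₁ * q j) + A D₂ * A D₁ * ∑ i, c i * w j i =
        A D₂ * A D₁ * (c₀ * p j + c₁ * q j + ∑ i, c i * w j i) := by ring
      _ = 0 := by rw [this, mul_zero]
  · rcases hc with h | h | h
    · left
      intro h0
      rw [h0, map_zero] at hc0
      exact h ((mul_eq_zero.mp hc0).resolve_left hAD₂)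
    · right; left
      intro h0
      rw [h0, map_zero] at hc1
      exact h ((mul_eq_zero.mp hc1).resolve_left hAD₂)
    · right; right
      intro h0
      apply h
      funext i
      have h3 := hci i
      have h4 : e (Sum.inr i) = 0 := congrFun h0 i
      rw [h4, map_zero] at h3
      exact (mul_eq_zero.mp ((mul_eq_zero.mp h3).resolve_left hAD₂)).resolve_left hAD

end Pool.Agent.H697w
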