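import Mathlib
import Pool.Agent.H697w.Defs

set_option autoImplicit false

namespace Pool.Agent.H697w
open Polynomial

/-! PROOF OF THE TARGET in words.
h = α²+β² ≠ 0 (RealF). a = (1, h e, h f), q(u) = u₁² + he u₂² + hf u₃². Not full: vectors w_j ∈ L³ not all 0 (w_j = (q j, w j 0, w j 1)),
c = (c₁,c₂,c₃) ≠ 0 (c₁ = d, c₂ = c 0, c₃ = c 1), c·w_j = 0, ∑ q(w_j) = 0. Let D(v) = h²ef v₁² + hf v₂² + he v₃² (a₂a₃v₁²+a₁a₃v₂²+a₁a₂v₃²).
KEY: it suffices to find v ≠ 0 in L³ and s with D(v) = -∑ s_j²: put C₀ = h v₁, M = (α,β)^T (v₂,v₃): M₁₁ = αv₂, M₁₂ = αv₃, M₂₁ = βv₂,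
M₂₂ = βv₃. Take j₀ with u = w_{j₀} ≠ 0. Case q(u) = 0: v_i = a_i u_i gives D(v) = a₁a₂a₃ q(u) = 0, v ≠ 0 (a_i ≠ 0), s = 0 (m = 0).
Case q(u) ≠ 0: w_j × u = λ_j c for scalars λ_j (both w_j and u are orthogonal to c ≠ 0). Lagrange: q(u) q(w_j) - b(u,w_j)² = D(u × w_j)
= λ_j² D(c), b(u,w) = ∑ a_i u_i w_i =: p_j. Sum over j: -∑ p_j² = Λ D(c), Λ = ∑ λ_j². If all λ_j = 0 then w_j = μ_j u for all j
(w_j × u = 0, u ≠ 0), μ_{j₀} = 1, so (∑ μ_j²) q(u) = 0, contradiction with RealF and q(u) ≠ 0. So Λ ≠ 0 (RealF) and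
D(Λ c) = Λ² D(c) = -Λ ∑ p_j² = -∑_{i,j} (λ_i p_j)²; v = Λ c ≠ 0, s indexed by Fin m × Fin m ≃ Fin (m*m) (finProdFinEquiv).
-/

/-! helper lemmas -/
theorem key_zero {L : Type} [Field L] (hreal : RealF L) (e f : L) (α β : L)
    (hαβ : α ≠ 0 ∨ β ≠ 0) (v₁ v₂ v₃ : L) (hv : v₁ ≠ 0 ∨ v₂ ≠ 0 ∨ v₃ ≠ 0) (m : ℕ) (s : Fin m → L)
    (hD : (α ^ 2 + β ^ 2) ^ 2 * e * f * v₁ ^ 2 + (α ^ 2 + β ^ 2) * f * v₂ ^ 2 +
      (α ^ 2 + β ^ 2) * e * v₃ ^ 2 + ∑ j, s j ^ 2 = 0) :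
    ∃ (m : ℕ) (C₀ M₁₁ M₁₂ M₂₁ M₂₂ : L) (s : Fin m → L),
      ¬ (C₀ = 0 ∧ M₁₁ = 0 ∧ M₁₂ = 0 ∧ M₂₁ = 0 ∧ M₂₂ = 0 ∧ s = 0) ∧
      e * f * C₀ ^ 2 + f * (M₁₁ ^ 2 + M₂₁ ^ 2) + e * (M₁₂ ^ 2 + M₂₂ ^ 2) + ∑ j, s j ^ 2 = 0 ∧
      M₁₁ * M₂₂ - M₁₂ * M₂₁ = 0 := by
  have hh : α ^ 2 + β ^ 2 ≠ 0 := by
    intro h0
    have h1 := hreal 2 ![α, β] (by simpa [Fin.sum_univ_two] using h0)
    have h2 := h1 0
    have h3 := h1 1
    simp at h2 h3
    rcases hαβ with h | h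
    · exact h h2
    · exact h h3
  refine ⟨m, (α ^ 2 + β ^ 2) * v₁, α * v₂, α * v₃, β * v₂, β * v₃, s, ?_, ?_, by ring⟩
  · rintro ⟨h1, h2, h3, h4, h5, -⟩
    have w1 : v₁ = 0 := (mul_eq_zero.1 h1).resolve_left hh
    have w2 : v₂ = 0 := by
      rcases hαβ with h | h
      · exact (mul_eq_zero.1 h2).resolve_left h
      · exact (mul_eq_zero.1 h4).resolve_left h
    have w3 : v₃ = 0 := by
      rcases hαβ with h | h
      · exact (mul_eq_zero.1 h3).resolve_left h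
      · exact (mul_eq_zero.1 h5).resolve_left h
    rcases hv with h | h | h
    · exact h w1
    · exact h w2
    · exact h w3
  · rw [← hD]
    ring

theorem lam_ex {L : Type} [Field L] (c₁ c₂ c₃ p₁ p₂ p₃ : L) (h : c₁ ≠ 0 ∨ c₂ ≠ 0 ∨ c₃ ≠ 0)
    (e1 : c₁ * p₂ = c₂ * p₁) (e2 : c₁ * p₃ = c₃ * p₁) (e3 : c₂ * p₃ = c₃ * p₂) :
    ∃ l : L, p₁ = l * c₁ ∧ p₂ = l * c₂ ∧ p₃ = l * c₃ := by
  rcases h with h | h | h
  · refine ⟨p₁ / c₁, ?_, ?_, ?_⟩
    · field_simp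
    · field_simp
      linear_combination e1
    · field_simp
      linear_combination e2
  · refine ⟨p₂ / c₂, ?_, ?_, ?_⟩
    · field_simp
      linear_combination -e1
    · field_simp
    · field_simp
      linear_combination e3
  · refine ⟨p₃ / c₃, ?_, ?_, ?_⟩
    · field_simp
      linear_combination -e2
    · field_simp
      linear_combination -e3
    · field_simp

/-! TARGET -/
theorem common_zero_of_not_full {L : Type} [Field L] (hreal : RealF L) (e f : L) (he : e ≠ 0)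
    (hf : f ≠ 0) (α β : L) (hαβ : α ≠ 0 ∨ β ≠ 0)
    (h : ¬ FullOne L (fun i : Fin 2 => (α ^ 2 + β ^ 2) * ![e, f] i)) :
    ∃ (m : ℕ) (C₀ M₁₁ M₁₂ M₂₁ M₂₂ : L) (s : Fin m → L),
      ¬ (C₀ = 0 ∧ M₁₁ = 0 ∧ M₁₂ = 0 ∧ M₂₁ = 0 ∧ M₂₂ = 0 ∧ s = 0) ∧
      e * f * C₀ ^ 2 + f * (M₁₁ ^ 2 + M₂₁ ^ 2) + e * (M₁₂ ^ 2 + M₂₂ ^ 2) + ∑ j, s j ^ 2 = 0 ∧
      M₁₁ * M₂₂ - M₁₂ * M₂₁ = 0 := by
  have hh : α ^ 2 + β ^ 2 ≠ 0 := by
    intro h0
    have h1 := hreal 2 ![α, β] (by simpa [Fin.sum_univ_two] using h0)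
    have h2 := h1 0
    have h3 := h1 1
    simp at h2 h3
    rcases hαβ with h | h
    · exact h h2
    · exact h h3
  set H : L := α ^ 2 + β ^ 2 with hH
  unfold FullOne at h
  push Not at h
  obtain ⟨m, q, w, d, c, hsum, horth, hdc, j0, hj0⟩ := h
  have hc3 : d ≠ 0 ∨ c 0 ≠ 0 ∨ c 1 ≠ 0 := by
    rcases hdc with h | h
    · exact Or.inl h
    · right
      by_contra hcon
      push Not at hcon
      apply h
      funext i
      fin_cases i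
      · exact hcon.1
      · exact hcon.2
  have hu3 : q j0 ≠ 0 ∨ w j0 0 ≠ 0 ∨ w j0 1 ≠ 0 := by
    by_contra hcon
    push Not at hcon
    apply hj0 hcon.1
    funext i
    fin_cases i
    · exact hcon.2.1
    · exact hcon.2.2
  have hs : ∑ j, (q j ^ 2 + H * e * w j 0 ^ 2 + H * f * w j 1 ^ 2) = 0 := by
    rw [← hsum]
    refine Finset.sum_congr rfl fun j _ => ?_
    rw [Fin.sum_univ_two]
    simp
    ring
  have ho : ∀ j, d * q j + c 0 * w j 0 + c 1 * w j 1 = 0 := by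
    intro j
    have := horth j
    rw [Fin.sum_univ_two] at this
    rw [← this]
    ring
  set X := q j0 with hX
  set Y := w j0 0 with hY
  set Z := w j0 1 with hZ
  by_cases hQ : X ^ 2 + H * e * Y ^ 2 + H * f * Z ^ 2 = 0
  · refine key_zero hreal e f α β hαβ X (H * e * Y) (H * f * Z) ?_ 0 (fun _ => 0) ?_
    · rcases hu3 with h | h | h
      · exact Or.inl h
      · exact Or.inr (Or.inl (mul_ne_zero (mul_ne_zero hh he) h))
      · exact Or.inr (Or.inr (mul_ne_zero (mul_ne_zero hh hf) h))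
    · simp only [Finset.univ_eq_empty, Finset.sum_empty]
      rw [← hH]
      linear_combination (H * e * (H * f)) * hQ
  · have hl : ∀ j, ∃ l : L, w j 0 * Z - w j 1 * Y = l * d ∧ w j 1 * X - q j * Z = l * c 0 ∧
        q j * Y - w j 0 * X = l * c 1 := by
      intro j
      have o1 := ho j
      have o2 : d * X + c 0 * Y + c 1 * Z = 0 := ho j0
      refine lam_ex d (c 0) (c 1) _ _ _ hc3 ?_ ?_ ?_
      · linear_combination w j 1 * o2 - Z * o1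
      · linear_combination Y * o1 - w j 0 * o2
      · linear_combination q j * o2 - X * o1
    choose l hl1 hl2 hl3 using hl
    set b : Fin m → L := fun j => X * q j + H * e * Y * w j 0 + H * f * Z * w j 1 with hb
    set Dc : L := H ^ 2 * e * f * d ^ 2 + H * f * c 0 ^ 2 + H * e * c 1 ^ 2 with hDc
    have lag : ∀ j, (X ^ 2 + H * e * Y ^ 2 + H * f * Z ^ 2) *
        (q j ^ 2 + H * e * w j 0 ^ 2 + H * f * w j 1 ^ 2) - b j ^ 2 = l j ^ 2 * Dc := by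
      intro j
      have : l j ^ 2 * Dc = H ^ 2 * e * f * (l j * d) ^ 2 + H * f * (l j * c 0) ^ 2 +
          H * e * (l j * c 1) ^ 2 := by
        rw [hDc]
        ring
      rw [this, ← hl1 j, ← hl2 j, ← hl3 j, hb]
      ring
    have lsum : -∑ j, b j ^ 2 = (∑ j, l j ^ 2) * Dc := by
      rw [Finset.sum_mul, ← Finset.sum_congr rfl (fun j _ => lag j), Finset.sum_sub_distrib,
        ← Finset.mul_sum, hs, mul_zero, zero_sub]
    have hΛ : ∑ j, l j ^ 2 ≠ 0 := by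
      intro h0
      rw [h0, zero_mul, neg_eq_zero] at lsum
      have hb0 := hreal m b lsum j0
      apply hQ
      rw [← hb0, hb]
      simp only
      rw [← hX, ← hY, ← hZ]
      ring
    set Λ : L := ∑ j, l j ^ 2 with hΛd
    refine key_zero hreal e f α β hαβ (Λ * d) (Λ * c 0) (Λ * c 1) ?_ (m * m)
      (fun k => l (finProdFinEquiv.symm k).1 * b (finProdFinEquiv.symm k).2) ?_
    · rcases hc3 with h | h | h
      · exact Or.inl (mul_ne_zero hΛ h)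
      · exact Or.inr (Or.inl (mul_ne_zero hΛ h))
      · exact Or.inr (Or.inr (mul_ne_zero hΛ h))
    · have hprod : ∑ k : Fin (m * m), (l (finProdFinEquiv.symm k).1 *
          b (finProdFinEquiv.symm k).2) ^ 2 = Λ * ∑ j, b j ^ 2 := by
        rw [Equiv.sum_comp finProdFinEquiv.symm (fun k : Fin m × Fin m => (l k.1 * b k.2) ^ 2),
          Fintype.sum_prod_type, hΛd, Finset.sum_mul_sum]
        refine Finset.sum_congr rfl fun i _ => Finset.sum_congr rfl fun j _ => ?_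
        ring
      rw [hprod, ← hH]
      have : H ^ 2 * e * f * (Λ * d) ^ 2 + H * f * (Λ * c 0) ^ 2 + H * e * (Λ * c 1) ^ 2 =
          Λ * (Λ * Dc) := by
        rw [hDc]
        ring
      rw [this, ← lsum]
      ring

end Pool.Agent.H697w
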