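import Mathlib
import Pool.Agent.H697w.Defs

set_option autoImplicit false

namespace Pool.Agent.H697w
open Polynomial

/-! PROOF OF THE TARGET in words.
Suppose a nontrivial common zero. Factor the matrix M (det 0): there are (α,β) ≠ (0,0) and c₂, c₃ with M₁₁ = αc₂, M₁₂ = αc₃, M₂₁ = βc₂,
M₂₂ = βc₃ (first column nonzero: α = M₁₁, β = M₂₁, c₂ = 1, c₃ = M₁₂/M₁₁ or M₂₂/M₂₁; first column zero, second nonzero: α = M₁₂,
β = M₂₂, c₂ = 0, c₃ = 1; M = 0: α = 1, β = 0, c₂ = c₃ = 0). h = α²+β² ≠ 0 (RealF), c₁ = C₀/h. Let a = (1, he, hf),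
q(u) = u₁² + he u₂² + hf u₃², D(v) = h²ef v₁² + hf v₂² + he v₃². The first equation reads D(c) + ∑ s_j² = 0. c ≠ 0: else M = 0, C₀ = 0,
∑ s_j² = 0, s = 0 (RealF): trivial. Case s = 0: u_i = c_i/a_i: u ≠ 0, q(u) = c·u = D(c)/(a₁a₂a₃) = 0: contradicts h (FullOne with one
vector, m = 1). Case s ≠ 0: choose u ≠ 0 with c·u = 0 (e.g. (0, c₃, -c₂) or (c₂,-c₁,0) or (c₃,0,-c₁), one is nonzero). Let
u' = c × (a₁u₁, a₂u₂, a₃u₃) = (c₂a₃u₃ - c₃a₂u₂, c₃a₁u₁ - c₁a₃u₃, c₁a₂u₂ - c₂a₁u₁). Then c·u' = 0 and q(u') = q(u) D(c) - a₁a₂a₃ (c·u)²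
up to the exact coefficient (check with ring / linear_combination; it is q(u) D(c) modulo (c·u)). The m + 1 vectors s_j u (j < m) and u'
lie in c^⊥ and ∑ q = q(u) (∑ s_j² + D(c)) = 0, and s_j u ≠ 0 for some j: contradicts h (FullOne, with Fin (m+1), Fin.sum_univ_castSucc or
Fin.cons/Fin.snoc). In FullOne: q j is the first coordinate, w j 0, w j 1 the others, d = c₁, c = ![c₂,c₃].
-/

/-! TARGET -/
theorem no_common_zero_of_full {K : Type} [Field K] (hreal : RealF K) (e f : K) (he : e ≠ 0)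
    (hf : f ≠ 0)
    (h : ∀ α β : K, (α ≠ 0 ∨ β ≠ 0) → FullOne K (fun i : Fin 2 => (α ^ 2 + β ^ 2) * ![e, f] i))
    (m : ℕ) (C₀ M₁₁ M₁₂ M₂₁ M₂₂ : K) (s : Fin m → K)
    (h₁ : e * f * C₀ ^ 2 + f * (M₁₁ ^ 2 + M₂₁ ^ 2) + e * (M₁₂ ^ 2 + M₂₂ ^ 2) + ∑ j, s j ^ 2 = 0)
    (h₂ : M₁₁ * M₂₂ - M₁₂ * M₂₁ = 0) :
    C₀ = 0 ∧ M₁₁ = 0 ∧ M₁₂ = 0 ∧ M₂₁ = 0 ∧ M₂₂ = 0 ∧ s = 0 := by
  have hfac : ∃ α β c₂ c₃ : K, (α ≠ 0 ∨ β ≠ 0) ∧ M₁₁ = α * c₂ ∧ M₁₂ = α * c₃ ∧ M₂₁ = β * c₂ ∧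
      M₂₂ = β * c₃ := by
    by_cases h11 : M₁₁ = 0
    · by_cases h21 : M₂₁ = 0
      · by_cases h12 : M₁₂ = 0
        · by_cases h22 : M₂₂ = 0
          · exact ⟨1, 0, 0, 0, Or.inl one_ne_zero, by simp [h11], by simp [h12], by simp [h21],
              by simp [h22]⟩
          · exact ⟨M₁₂, M₂₂, 0, 1, Or.inr h22, by simp [h11], by simp, by simp [h21], by simp⟩
        · exact ⟨M₁₂, M₂₂, 0, 1, Or.inl h12, by simp [h11], by simp, by simp [h21], by simp⟩
      · have h12 : M₁₂ = 0 := by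
          rw [h11, zero_mul, zero_sub, neg_eq_zero] at h₂
          exact (mul_eq_zero.1 h₂).resolve_right h21
        exact ⟨0, M₂₁, 1, M₂₂ / M₂₁, Or.inr h21, by simp [h11], by simp [h12], by simp,
          by field_simp⟩
    · refine ⟨M₁₁, M₂₁, 1, M₁₂ / M₁₁, Or.inl h11, by simp, by field_simp, by simp, ?_⟩
      rw [← mul_div_assoc, eq_div_iff h11]
      linear_combination h₂
  obtain ⟨α, β, c₂, c₃, hab, e11, e12, e21, e22⟩ := hfac
  set g : K := α ^ 2 + β ^ 2 with hg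
  have hg0 : g ≠ 0 := by
    intro h0
    have h1 := hreal 2 ![α, β] (by rw [Fin.sum_univ_two]; exact h0)
    have h2 : α = 0 := h1 0
    have h3 : β = 0 := h1 1
    rcases hab with hab | hab
    · exact hab h2
    · exact hab h3
  have hfull := h α β hab
  rw [← hg] at hfull
  -- the vector c
  obtain ⟨c₁, hc₁⟩ : ∃ c₁, C₀ = g * c₁ := ⟨C₀ / g, by field_simp⟩
  set D : K := g ^ 2 * e * f * c₁ ^ 2 + g * f * c₂ ^ 2 + g * e * c₃ ^ 2 with hD
  have hDs : D + ∑ j, s j ^ 2 = 0 := by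
    rw [hD, ← h₁, e11, e12, e21, e22, hc₁, hg]
    ring
  by_cases hc : c₁ = 0 ∧ c₂ = 0 ∧ c₃ = 0
  · obtain ⟨k1, k2, k3⟩ := hc
    have hs0 : ∑ j, s j ^ 2 = 0 := by
      rw [hD, k1, k2, k3] at hDs
      simpa using hDs
    have hs : s = 0 := by
      funext j
      exact hreal m s hs0 j
    refine ⟨by rw [hc₁, k1, mul_zero], by rw [e11, k2, mul_zero], by rw [e12, k3, mul_zero],
      by rw [e21, k2, mul_zero], by rw [e22, k3, mul_zero], hs⟩
  exfalso
  have hc' : c₁ ≠ 0 ∨ ![c₂, c₃] ≠ (0 : Fin 2 → K) := by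
    by_contra hcon
    push Not at hcon
    refine hc ⟨hcon.1, ?_, ?_⟩
    · have := congrFun hcon.2 0
      simpa using this
    · have := congrFun hcon.2 1
      simpa using this
  by_cases hs : s = 0
  · -- one vector
    have hD0 : D = 0 := by
      rw [hs] at hDs
      simpa using hDs
    have h1 := hfull 1 (fun _ => g * e * (g * f) * c₁) (fun _ => ![g * f * c₂, g * e * c₃]) c₁
      ![c₂, c₃] (by
        simp only [Fin.sum_univ_one, Fin.sum_univ_two, Matrix.cons_val_zero, Matrix.cons_val_one]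
        have : (g * e * (g * f)) * D = 0 := by rw [hD0, mul_zero]
        rw [← this, hD]
        ring) (fun _ => by
        simp only [Fin.sum_univ_two, Matrix.cons_val_zero, Matrix.cons_val_one]
        rw [← hD0, hD]
        ring) hc' 0
    obtain ⟨h2, h3⟩ := h1
    have h4 : g * f * c₂ = 0 := by
      have := congrFun h3 0
      simpa using this
    have h5 : g * e * c₃ = 0 := by
      have := congrFun h3 1
      simpa using this
    refine hc ⟨?_, ?_, ?_⟩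
    · have h6 : g * e * (g * f) ≠ 0 := mul_ne_zero (mul_ne_zero hg0 he) (mul_ne_zero hg0 hf)
      exact (mul_eq_zero.1 h2).resolve_left h6
    · exact (mul_eq_zero.1 h4).resolve_left (mul_ne_zero hg0 hf)
    · exact (mul_eq_zero.1 h5).resolve_left (mul_ne_zero hg0 he)
  · -- m + 1 vectors
    have hu : ∃ u₁ u₂ u₃ : K, (u₁ ≠ 0 ∨ u₂ ≠ 0 ∨ u₃ ≠ 0) ∧ c₁ * u₁ + c₂ * u₂ + c₃ * u₃ = 0 := by
      by_cases k2 : c₂ = 0
      · exact ⟨0, 1, 0, Or.inr (Or.inl one_ne_zero), by rw [k2]; ring⟩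
      · exact ⟨c₂, -c₁, 0, Or.inl k2, by ring⟩
    obtain ⟨u₁, u₂, u₃, hu0, hcu⟩ := hu
    have h1 := hfull (m + 1)
      (Fin.snoc (fun j => s j * u₁) (c₂ * (g * f) * u₃ - c₃ * (g * e) * u₂))
      (Fin.snoc (α := fun _ => Fin 2 → K) (fun j => ![s j * u₂, s j * u₃])
        ![c₃ * u₁ - c₁ * (g * f) * u₃, c₁ * (g * e) * u₂ - c₂ * u₁]) c₁ ![c₂, c₃] (by
        rw [Fin.sum_univ_castSucc]
        simp only [Fin.snoc_castSucc, Fin.snoc_last, Fin.sum_univ_two, Matrix.cons_val_zero,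
          Matrix.cons_val_one]
        have e1 : ∀ j : Fin m, (s j * u₁) ^ 2 + (g * e * (s j * u₂) ^ 2 + g * f * (s j * u₃) ^ 2) =
            s j ^ 2 * (u₁ ^ 2 + g * e * u₂ ^ 2 + g * f * u₃ ^ 2) := fun j => by ring
        simp only [e1]
        rw [← Finset.sum_mul]
        have e2 : ∑ j, s j ^ 2 = -D := by linear_combination hDs
        rw [e2, hD]
        linear_combination (-(g * e * (g * f)) * (c₁ * u₁ + c₂ * u₂ + c₃ * u₃)) * hcu) (by
        intro j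
        refine Fin.lastCases ?_ (fun j => ?_) j
        · simp only [Fin.snoc_last, Fin.sum_univ_two, Matrix.cons_val_zero,
            Matrix.cons_val_one]
          ring
        · simp only [Fin.snoc_castSucc, Fin.sum_univ_two, Matrix.cons_val_zero,
            Matrix.cons_val_one]
          linear_combination s j * hcu) hc'
    apply hs
    funext j
    have h2 := h1 j.castSucc
    simp only [Fin.snoc_castSucc] at h2
    obtain ⟨h3, h4⟩ := h2
    have h5 : s j * u₂ = 0 := by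
      have := congrFun h4 0
      simpa using this
    have h6 : s j * u₃ = 0 := by
      have := congrFun h4 1
      simpa using this
    show s j = 0
    rcases hu0 with hu0 | hu0 | hu0
    · exact (mul_eq_zero.1 h3).resolve_right hu0
    · exact (mul_eq_zero.1 h5).resolve_right hu0
    · exact (mul_eq_zero.1 h6).resolve_right hu0

end Pool.Agent.H697w
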