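import Mathlib

set_option autoImplicit false

namespace Pool.Agent.H697w
open Polynomial

/-! PROOF OF THE TARGET in words.
Strong induction on n = natDegree g (for all g irreducible of odd degree at once). Write
psi(V) = ∑ i, ∑ j, C (A i j) * V i * V j. Suppose g ∣ psi(V) and not all V i are divisible by g. Reducing V i mod g
(V i %ₘ g or V i % g; psi(V) changes by a multiple of g) we may take natDegree (V i) < natDegree g, V ≠ 0. Choose such a V
(V ≠ 0, all degrees < natDegree g, g ∣ psi(V)) with D = max_i natDegree (V i) minimal. The coefficient of X^(2D) in psi(V) is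
psi_K((V i).coeff D) ≠ 0 by hA, and natDegree psi(V) ≤ 2D, so natDegree psi(V) = 2D. Write psi(V) = g * h; then
natDegree h = 2D - natDegree g is odd and < natDegree g. So h has an irreducible factor g' of odd degree (a nonzero polynomial
all of whose irreducible factors have even degree has even degree), natDegree g' ≤ natDegree h < natDegree g. By induction
g' divides all V i: V i = g' * V' i, psi(V) = g'^2 psi(V'), and g ∣ g'^2 psi(V') with g, g' coprime (irreducible of different
degrees), so g ∣ psi(V'), V' ≠ 0 and max degree smaller (natDegree g' ≥ 1): contradiction to minimality.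
-/

theorem sp_factor {K : Type} [Field K] (h : K[X]) : h ≠ 0 → Odd h.natDegree →
    ∃ g : K[X], Irreducible g ∧ g ∣ h ∧ Odd g.natDegree := by
  refine WfDvdMonoid.induction_on_irreducible h ?_ ?_ ?_
  · intro h0
    exact absurd rfl h0
  · intro u hu _ hodd
    rw [Polynomial.natDegree_eq_zero_of_isUnit hu] at hodd
    exact absurd hodd (by decide)
  · intro a i ha hi ih _ hodd
    rw [Polynomial.natDegree_mul hi.ne_zero ha] at hodd
    by_cases h1 : Odd i.natDegree
    · exact ⟨i, hi, Dvd.intro _ rfl, h1⟩
    · rw [Nat.not_odd_iff_even] at h1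
      have h2 : Odd a.natDegree := by
        rw [Nat.odd_add'] at hodd
        exact hodd.2 h1
      obtain ⟨g, hg, hga, hgo⟩ := ih ha h2
      exact ⟨g, hg, hga.mul_left i, hgo⟩

theorem sp_mod {K : Type} [Field K] {ι : Type} [Fintype ι] (A : ι → ι → K) (g : K[X])
    (V W : ι → K[X]) (h : ∀ i, g ∣ V i - W i) :
    g ∣ (∑ i, ∑ j, C (A i j) * V i * V j) - ∑ i, ∑ j, C (A i j) * W i * W j := by
  rw [← Finset.sum_sub_distrib]
  refine Finset.dvd_sum fun i _ => ?_
  rw [← Finset.sum_sub_distrib]
  refine Finset.dvd_sum fun j _ => ?_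
  have e : C (A i j) * V i * V j - C (A i j) * W i * W j =
      C (A i j) * ((V i - W i) * V j + W i * (V j - W j)) := by ring
  rw [e]
  exact Dvd.dvd.mul_left (dvd_add ((h i).mul_right _) ((h j).mul_left _)) _

theorem sp_deg {K : Type} [Field K] {ι : Type} [Fintype ι] (A : ι → ι → K)
    (V : ι → K[X]) (D : ℕ) (h : ∀ i, (V i).natDegree ≤ D) :
    (∑ i, ∑ j, C (A i j) * V i * V j).natDegree ≤ 2 * D ∧
    (∑ i, ∑ j, C (A i j) * V i * V j).coeff (2 * D) =
      ∑ i, ∑ j, A i j * (V i).coeff D * (V j).coeff D := by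
  constructor
  · refine Polynomial.natDegree_sum_le_of_forall_le _ _ fun i _ => ?_
    refine Polynomial.natDegree_sum_le_of_forall_le _ _ fun j _ => ?_
    refine Polynomial.natDegree_mul_le.trans ?_
    have h1 := Polynomial.natDegree_C_mul_le (A i j) (V i)
    have h2 := h i
    have h3 := h j
    omega
  · rw [Polynomial.finsetSum_coeff]
    refine Finset.sum_congr rfl fun i _ => ?_
    rw [Polynomial.finsetSum_coeff]
    refine Finset.sum_congr rfl fun j _ => ?_
    have h1 : (C (A i j) * V i).natDegree ≤ D := (Polynomial.natDegree_C_mul_le _ _).trans (h i)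
    rw [two_mul, Polynomial.coeff_mul_add_eq_of_natDegree_le h1 (h j), Polynomial.coeff_C_mul]

theorem sp_inner {K : Type} [Field K] {ι : Type} [Fintype ι] (A : ι → ι → K)
    (hA : ∀ v : ι → K, ∑ i, ∑ j, A i j * v i * v j = 0 → v = 0) (n : ℕ)
    (hn : ∀ n' < n, ∀ g : K[X], Irreducible g → g.natDegree = n' → Odd n' → ∀ V : ι → K[X],
      g ∣ ∑ i, ∑ j, C (A i j) * V i * V j → ∀ i, g ∣ V i)
    (g : K[X]) (hg : Irreducible g) (hgn : g.natDegree = n) (hodd : Odd n) (D : ℕ) :
    D < n → ∀ V : ι → K[X], (∀ i, (V i).natDegree ≤ D) →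
      g ∣ ∑ i, ∑ j, C (A i j) * V i * V j → ∀ i, V i = 0 := by
  induction D with
  | zero =>
    intro hD V hdeg hdvd
    obtain ⟨h1, h2⟩ := sp_deg A V 0 hdeg
    rw [mul_zero] at h1 h2
    have h3 : ∑ i, ∑ j, C (A i j) * V i * V j = 0 := by
      by_contra hne
      have := Polynomial.natDegree_le_of_dvd hdvd hne
      omega
    rw [h3, Polynomial.coeff_zero] at h2
    have h4 := hA (fun i => (V i).coeff 0) h2.symm
    intro i
    rw [Polynomial.eq_C_of_natDegree_le_zero (hdeg i)]
    have := congrFun h4 i
    simp only [Pi.zero_apply] at this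
    rw [this, C_0]
  | succ D ih =>
    intro hD V hdeg hdvd
    obtain ⟨h1, h2⟩ := sp_deg A V (D + 1) hdeg
    by_cases hv : (fun i => (V i).coeff (D + 1)) = 0
    · refine ih (by omega) V (fun i => ?_) hdvd
      rw [Polynomial.natDegree_le_iff_coeff_eq_zero]
      intro N hN
      rcases Nat.lt_or_ge (D + 1) N with h | h
      · exact Polynomial.coeff_eq_zero_of_natDegree_lt (lt_of_le_of_lt (hdeg i) h)
      · have : N = D + 1 := by omega
        rw [this]
        exact congrFun hv i
    · exfalso
      have h3 : (∑ i, ∑ j, C (A i j) * V i * V j).coeff (2 * (D + 1)) ≠ 0 := by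
        rw [h2]
        intro h
        exact hv (hA _ h)
      have h4 : (∑ i, ∑ j, C (A i j) * V i * V j).natDegree = 2 * (D + 1) :=
        le_antisymm h1 (Polynomial.le_natDegree_of_ne_zero h3)
      have h5 : (∑ i, ∑ j, C (A i j) * V i * V j) ≠ 0 := by
        intro h
        rw [h, Polynomial.coeff_zero] at h3
        exact h3 rfl
      obtain ⟨h, hh⟩ := hdvd
      have hh0 : h ≠ 0 := by
        rintro rfl
        rw [mul_zero] at hh
        exact h5 hh
      have h6 : n + h.natDegree = 2 * (D + 1) := by
        rw [← h4, hh, Polynomial.natDegree_mul hg.ne_zero hh0, hgn]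
      have h7 : Odd h.natDegree := by
        obtain ⟨a, ha⟩ := hodd
        exact ⟨D - a, by omega⟩
      obtain ⟨g', hg', hg'h, hg'o⟩ := sp_factor h hh0 h7
      have h8 : g'.natDegree ≤ h.natDegree := Polynomial.natDegree_le_of_dvd hg'h hh0
      have h9 : g'.natDegree < n := by omega
      have hg'psi : g' ∣ ∑ i, ∑ j, C (A i j) * V i * V j := by
        rw [hh]; exact hg'h.mul_left g
      have h10 := hn _ h9 g' hg' rfl hg'o V hg'psi
      choose V' hV' using h10
      have h11 : ∑ i, ∑ j, C (A i j) * V i * V j = g' ^ 2 * ∑ i, ∑ j, C (A i j) * V' i * V' j := by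
        rw [Finset.mul_sum]
        refine Finset.sum_congr rfl fun i _ => ?_
        rw [Finset.mul_sum]
        refine Finset.sum_congr rfl fun j _ => ?_
        rw [hV' i, hV' j]
        ring
      have hgp : Prime g := hg.prime
      have h12 : g ∣ ∑ i, ∑ j, C (A i j) * V' i * V' j := by
        have h13 : g ∣ g' ^ 2 * ∑ i, ∑ j, C (A i j) * V' i * V' j := by
          rw [← h11, hh]; exact Dvd.intro _ rfl
        rcases hgp.dvd_or_dvd h13 with h14 | h14
        · exfalso
          have h15 := hgp.dvd_of_dvd_pow h14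
          have := Polynomial.natDegree_le_of_dvd h15 hg'.ne_zero
          omega
        · exact h14
      have hg'pos : 1 ≤ g'.natDegree := by
        obtain ⟨a, ha⟩ := hg'o
        omega
      have h16 : ∀ i, (V' i).natDegree ≤ D := by
        intro i
        by_cases h17 : V' i = 0
        · rw [h17, Polynomial.natDegree_zero]; omega
        · have h18 := hdeg i
          rw [hV' i, Polynomial.natDegree_mul hg'.ne_zero h17] at h18
          omega
      have h19 := ih (by omega) V' h16 h12
      apply hv
      funext i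
      simp only [Pi.zero_apply]
      rw [hV' i, h19 i, mul_zero, Polynomial.coeff_zero]

theorem sp_all {K : Type} [Field K] {ι : Type} [Fintype ι] (A : ι → ι → K)
    (hA : ∀ v : ι → K, ∑ i, ∑ j, A i j * v i * v j = 0 → v = 0) (n : ℕ) :
    ∀ g : K[X], Irreducible g → g.natDegree = n → Odd n → ∀ V : ι → K[X],
      g ∣ ∑ i, ∑ j, C (A i j) * V i * V j → ∀ i, g ∣ V i := by
  induction n using Nat.strong_induction_on with
  | _ n ih =>
    intro g hg hgn hodd V hV i
    have hn0 : g.natDegree ≠ 0 := by
      obtain ⟨a, ha⟩ := hodd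
      omega
    have h1 : ∀ i, g ∣ V i - V i % g := fun i => by
      rw [EuclideanDomain.mod_eq_sub_mul_div]
      rw [sub_sub_cancel]
      exact Dvd.intro _ rfl
    have h2 := sp_mod A g V (fun i => V i % g) h1
    have h3 : g ∣ ∑ i, ∑ j, C (A i j) * (V i % g) * (V j % g) := (dvd_sub_right hV).1 h2
    have h4 := sp_inner A hA n ih g hg hgn hodd (n - 1) (by omega) (fun i => V i % g)
      (fun i => by
        have := Polynomial.natDegree_mod_lt (V i) hn0
        omega) h3 i
    exact EuclideanDomain.mod_eq_zero.1 h4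

/-! TARGET -/
theorem springer_poly {K : Type} [Field K] {ι : Type} [Fintype ι] (A : ι → ι → K)
    (hA : ∀ v : ι → K, ∑ i, ∑ j, A i j * v i * v j = 0 → v = 0)
    (g : K[X]) (hg : Irreducible g) (hodd : Odd g.natDegree)
    (V : ι → K[X]) (hV : g ∣ ∑ i, ∑ j, C (A i j) * V i * V j) : ∀ i, g ∣ V i := by
  exact sp_all A hA g.natDegree g hg rfl hodd V hV

end Pool.Agent.H697w
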