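import Mathlib
import Pool.Agent.H697w.W1

set_option autoImplicit false

namespace Pool.Agent.H697w
open Polynomial

/-! PROOF OF THE TARGET in words.
First springer_adjoinRoot: AdjoinRoot.mk g is surjective, lift v to V : ι → K[X]; the sum is mk g of psi(V), so
g ∣ psi(V) (AdjoinRoot.mk_eq_zero), so g ∣ V i by springer_poly, v i = 0. Then springer_finite: char 0 gives a primitive element
θ of L/K (Field.exists_primitive_element or Field.powerBasisOfFiniteOfSeparable); g = minpoly K θ is irreducible of degree
finrank K L, odd; v i = aeval θ (V i) for polynomials V i; aeval θ psi(V) = 0 gives g ∣ psi(V) (minpoly.dvd), so g ∣ V i and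
v i = 0. (Both theorems are targets.)
-/

/-! TARGET -/
theorem springer_adjoinRoot {K : Type} [Field K] {ι : Type} [Fintype ι] (A : ι → ι → K)
    (hA : ∀ v : ι → K, ∑ i, ∑ j, A i j * v i * v j = 0 → v = 0)
    (g : K[X]) (hg : Irreducible g) (hodd : Odd g.natDegree)
    (v : ι → AdjoinRoot g) (hv : ∑ i, ∑ j, AdjoinRoot.of g (A i j) * v i * v j = 0) : v = 0 := by
  choose V hV using fun i => AdjoinRoot.mk_surjective (g := g) (v i)
  have h1 : AdjoinRoot.mk g (∑ i, ∑ j, C (A i j) * V i * V j) = 0 := by
    rw [← hv, map_sum]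
    refine Finset.sum_congr rfl fun i _ => ?_
    rw [map_sum]
    refine Finset.sum_congr rfl fun j _ => ?_
    rw [map_mul, map_mul, AdjoinRoot.mk_C, hV, hV]
  have h2 := springer_poly A hA g hg hodd V (AdjoinRoot.mk_eq_zero.1 h1)
  funext i
  rw [← hV i]
  exact AdjoinRoot.mk_eq_zero.2 (h2 i)

theorem springer_finite {K L : Type} [Field K] [CharZero K] [Field L] [Algebra K L]
    [FiniteDimensional K L] (hodd : Odd (Module.finrank K L)) {ι : Type} [Fintype ι]
    (A : ι → ι → K) (hA : ∀ v : ι → K, ∑ i, ∑ j, A i j * v i * v j = 0 → v = 0)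
    (v : ι → L) (hv : ∑ i, ∑ j, algebraMap K L (A i j) * v i * v j = 0) : v = 0 := by
  obtain ⟨θ, hθ⟩ := Field.exists_primitive_element K L
  have hint : IsIntegral K θ := IsIntegral.of_finite K θ
  have hirr : Irreducible (minpoly K θ) := minpoly.irreducible hint
  have hdeg : (minpoly K θ).natDegree = Module.finrank K L := by
    rw [← IntermediateField.adjoin.finrank hint, hθ, IntermediateField.finrank_top']
  have hsurj : ∀ x : L, ∃ p : K[X], aeval θ p = x := by
    intro x
    have hx : x ∈ IntermediateField.adjoin K {θ} := by rw [hθ]; trivial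
    rw [← IntermediateField.mem_toSubalgebra,
      IntermediateField.adjoin_simple_toSubalgebra_of_isAlgebraic hint.isAlgebraic,
      Algebra.adjoin_singleton_eq_range_aeval] at hx
    exact hx
  choose V hV using fun i => hsurj (v i)
  have h1 : aeval θ (∑ i, ∑ j, C (A i j) * V i * V j) = 0 := by
    rw [← hv, map_sum]
    refine Finset.sum_congr rfl fun i _ => ?_
    rw [map_sum]
    refine Finset.sum_congr rfl fun j _ => ?_
    rw [map_mul, map_mul, aeval_C, hV, hV]
  have h2 := springer_poly A hA (minpoly K θ) hirr (by rw [hdeg]; exact hodd) V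
    (minpoly.dvd K θ h1)
  funext i
  rw [← hV i]
  obtain ⟨q, hq⟩ := h2 i
  rw [hq, map_mul, minpoly.aeval, zero_mul]
  rfl

end Pool.Agent.H697w
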