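import Mathlib

set_option autoImplicit false

namespace Pool.Agent.H697w
open Polynomial

/-! PROOF OF THE TARGET in words.
Write Q1(v) = ∑∑ A i j v_i v_j, Q2 the same with B, psi = Q1 + X Q2 (a quadratic form over F[X]), P(u,v) = psi(u+v) - psi(u) - psi(v)
its polar form (= ∑∑ (a_ij) (u_i v_j + v_i u_j)). Strong induction on d = a bound for natDegree of all v i (say: for all d, all v
with natDegree (v i) ≤ d and psi(v) = 0 are 0). Suppose v ≠ 0. Write v i = C (v0 i) + X * v1 i (v0 i = (v i).coeff 0,
v1 i = divX (v i)). The constant coefficient of psi(v) gives Q1(v0) = 0. If v0 = 0: psi(v) = X^2 psi(v1), so psi(v1) = 0,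
v1 ≠ 0 has smaller degree (if d = 0 then v1 = 0): induction. If v0 ≠ 0: by h, c := Q2(v0) ≠ 0. As psi(C v0) = X * C c, psi(v) = 0
divided by X reads (1): C c + P(C v0, v1) + X psi(v1) = 0. In particular d ≥ 1 (if d = 0 then v1 = 0 and c = 0).
Put s = psi(v1) and v'' = C c • v1 + s • C v0. Then psi(v'') = c^2 s + c s P(v1, v0) + s^2 X c = c s (c + P(v0,v1) + X s) = 0
by (1). Degrees: natDegree v1 ≤ d - 1; natDegree P(C v0, v1) ≤ 1 + (d-1) = d, so by (1) natDegree (X s) ≤ d, natDegree s ≤ d - 1.
So natDegree v'' ≤ d - 1. v'' ≠ 0: otherwise v1 = -(s/c) v0, so v = (1 - X (s/c)) v0 and 0 = psi(v) = (1 - X s/c)^2 X c, but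
1 - X s/c ≠ 0 (its value at 0 is 1): contradiction. So induction applies to v'': contradiction.
-/

/-- auxiliary bilinear form -/
noncomputable def bf {F : Type} [Field F] {ι : Type} [Fintype ι] (A B : ι → ι → F) (u v : ι → F[X]) : F[X] :=
  ∑ i, ∑ j, (C (A i j) + X * C (B i j)) * u i * v j

theorem bf_add_left {F : Type} [Field F] {ι : Type} [Fintype ι] (A B : ι → ι → F) (u u' v : ι → F[X]) :
    bf A B (fun i => u i + u' i) v = bf A B u v + bf A B u' v := by
  unfold bf
  rw [← Finset.sum_add_distrib]
  refine Finset.sum_congr rfl fun i _ => ?_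
  rw [← Finset.sum_add_distrib]
  refine Finset.sum_congr rfl fun j _ => ?_
  ring

theorem bf_add_right {F : Type} [Field F] {ι : Type} [Fintype ι] (A B : ι → ι → F) (u v v' : ι → F[X]) :
    bf A B u (fun i => v i + v' i) = bf A B u v + bf A B u v' := by
  unfold bf
  rw [← Finset.sum_add_distrib]
  refine Finset.sum_congr rfl fun i _ => ?_
  rw [← Finset.sum_add_distrib]
  refine Finset.sum_congr rfl fun j _ => ?_
  ring

theorem bf_mul_left {F : Type} [Field F] {ι : Type} [Fintype ι] (A B : ι → ι → F) (s : F[X]) (u v : ι → F[X]) :
    bf A B (fun i => s * u i) v = s * bf A B u v := by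
  unfold bf
  rw [Finset.mul_sum]
  refine Finset.sum_congr rfl fun i _ => ?_
  rw [Finset.mul_sum]
  refine Finset.sum_congr rfl fun j _ => ?_
  ring

theorem bf_mul_right {F : Type} [Field F] {ι : Type} [Fintype ι] (A B : ι → ι → F) (s : F[X]) (u v : ι → F[X]) :
    bf A B u (fun i => s * v i) = s * bf A B u v := by
  unfold bf
  rw [Finset.mul_sum]
  refine Finset.sum_congr rfl fun i _ => ?_
  rw [Finset.mul_sum]
  refine Finset.sum_congr rfl fun j _ => ?_
  ring

theorem bf_const {F : Type} [Field F] {ι : Type} [Fintype ι] (A B : ι → ι → F) (w : ι → F) :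
    bf A B (fun i => C (w i)) (fun i => C (w i))
      = C (∑ i, ∑ j, A i j * w i * w j) + X * C (∑ i, ∑ j, B i j * w i * w j) := by
  unfold bf
  rw [map_sum, map_sum, Finset.mul_sum, ← Finset.sum_add_distrib]
  refine Finset.sum_congr rfl fun i _ => ?_
  rw [map_sum, map_sum, Finset.mul_sum, ← Finset.sum_add_distrib]
  refine Finset.sum_congr rfl fun j _ => ?_
  simp only [C_mul]
  ring

theorem bf_deg {F : Type} [Field F] {ι : Type} [Fintype ι] (A B : ι → ι → F) (u v : ι → F[X]) (a b : ℕ)
    (hu : ∀ i, (u i).natDegree ≤ a) (hv : ∀ i, (v i).natDegree ≤ b) : (bf A B u v).natDegree ≤ 1 + a + b := by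
  unfold bf
  apply natDegree_sum_le_of_forall_le
  intro i _
  apply natDegree_sum_le_of_forall_le
  intro j _
  refine natDegree_mul_le_of_le (natDegree_mul_le_of_le ?_ (hu i)) (hv j)
  refine natDegree_add_le_of_degree_le ?_ ?_
  · rw [natDegree_C]; exact Nat.zero_le _
  · refine (natDegree_mul_le).trans ?_
    rw [natDegree_X, natDegree_C]

theorem bf_main {F : Type} [Field F] {ι : Type} [Fintype ι] (A B : ι → ι → F)
    (h : ∀ v : ι → F, ∑ i, ∑ j, A i j * v i * v j = 0 → ∑ i, ∑ j, B i j * v i * v j = 0 → v = 0) :
    ∀ (d : ℕ) (v : ι → F[X]), (∀ i, (v i).natDegree ≤ d) → bf A B v v = 0 → v = 0 := by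
  intro d
  induction d with
  | zero =>
    intro v hd hv
    have e : v = fun i => C ((v i).coeff 0) := by
      funext i
      exact eq_C_of_natDegree_le_zero (hd i)
    rw [e, bf_const] at hv
    have c0 := congrArg (fun p => coeff p 0) hv
    have c1 := congrArg (fun p => coeff p 1) hv
    simp only [coeff_add, coeff_C_zero, coeff_X_mul_zero, add_zero, coeff_zero] at c0
    rw [show (1 : ℕ) = 0 + 1 from rfl] at c1
    simp only [coeff_add, coeff_X_mul, coeff_C_succ, coeff_C_zero, zero_add, coeff_zero] at c1
    have := h _ c0 c1
    rw [e]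
    funext i
    have hi := congrFun this i
    simp only [Pi.zero_apply] at hi ⊢
    rw [hi, C_0]
  | succ d ih =>
    intro v hd hv
    set v0 : ι → F := fun i => (v i).coeff 0 with hv0
    set w : ι → F[X] := fun i => C (v0 i) with hw
    set u : ι → F[X] := fun i => divX (v i) with hu
    have ev : v = fun i => w i + X * u i := by
      funext i
      have := divX_mul_X_add (v i)
      simp only [hw, hu, hv0]
      rw [add_comm, mul_comm X]
      exact this.symm
    have hud : ∀ i, (u i).natDegree ≤ d := by
      intro i
      simp only [hu]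
      rw [natDegree_divX_eq_natDegree_tsub_one]
      have := hd i
      omega
    have hww : bf A B w w = C (∑ i, ∑ j, A i j * v0 i * v0 j) + X * C (∑ i, ∑ j, B i j * v0 i * v0 j) :=
      bf_const A B v0
    have expand : bf A B v v = bf A B w w + X * (bf A B w u + bf A B u w) + X * X * bf A B u u := by
      conv_lhs => rw [ev]
      rw [bf_add_left A B w (fun i => X * u i), bf_add_right A B w w (fun i => X * u i),
        bf_add_right A B (fun i => X * u i) w (fun i => X * u i), bf_mul_left, bf_mul_left, bf_mul_right, bf_mul_right]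
      ring
    rw [hv, hww] at expand
    have c0 : ∑ i, ∑ j, A i j * v0 i * v0 j = 0 := by
      have := congrArg (fun p => coeff p 0) expand
      simp only [coeff_add, coeff_C_zero, coeff_X_mul_zero, add_zero, coeff_zero, mul_assoc] at this
      have e : ∑ i, ∑ j, A i j * v0 i * v0 j = ∑ i, ∑ j, A i j * (v0 i * v0 j) := by
        simp only [mul_assoc]
      rw [e]
      exact this.symm
    rw [c0, C_0, zero_add] at expand
    have e1 : C (∑ i, ∑ j, B i j * v0 i * v0 j) + (bf A B w u + bf A B u w) + X * bf A B u u = 0 := by
      apply mul_left_cancel₀ (X_ne_zero : (X : F[X]) ≠ 0)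
      rw [mul_zero, expand]
      ring
    set c := ∑ i, ∑ j, B i j * v0 i * v0 j with hc
    by_cases hcz : c = 0
    · have v00 : v0 = 0 := h v0 c0 hcz
      have w0 : w = fun _ => 0 * (0 : F[X]) := by
        funext i
        simp only [hw, v00, Pi.zero_apply, C_0, mul_zero]
      have z1 : bf A B w u = 0 := by rw [w0, bf_mul_left A B 0 (fun _ => 0), zero_mul]
      have z2 : bf A B u w = 0 := by rw [w0, bf_mul_right A B 0 u (fun _ => 0), zero_mul]
      rw [hcz, z1, z2, C_0, add_zero, zero_add, zero_add] at e1
      have uu := (mul_eq_zero.mp e1).resolve_left X_ne_zero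
      have u0 := ih u hud uu
      rw [ev]
      funext i
      have h1 := congrFun w0 i
      have h2 := congrFun u0 i
      simp only [Pi.zero_apply] at h2 ⊢
      rw [h1, h2]; ring
    · exfalso
      set s := bf A B u u with hs
      have hP : (bf A B w u + bf A B u w).natDegree ≤ 1 + d := by
        apply natDegree_add_le_of_degree_le
        · have := bf_deg A B w u 0 d (fun i => by simp only [hw]; rw [natDegree_C]) hud
          omega
        · have := bf_deg A B u w d 0 hud (fun i => by simp only [hw]; rw [natDegree_C])
          omega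
      have hsd : s.natDegree ≤ d := by
        by_cases hs0 : s = 0
        · rw [hs0, natDegree_zero]; exact Nat.zero_le _
        · have e2 : X * s = -(C c + (bf A B w u + bf A B u w)) := by
            linear_combination e1
          have h1 : (X * s).natDegree = 1 + s.natDegree := by
            rw [natDegree_mul X_ne_zero hs0, natDegree_X]
          have h2 : (-(C c + (bf A B w u + bf A B u w))).natDegree ≤ 1 + d := by
            rw [natDegree_neg]
            apply natDegree_add_le_of_degree_le
            · rw [natDegree_C]; exact Nat.zero_le _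
            · exact hP
          rw [← e2, h1] at h2
          omega
      have hz := ih (fun i => C c * u i + s * w i)
        (by
          intro i
          apply natDegree_add_le_of_degree_le
          · refine natDegree_mul_le.trans ?_
            rw [natDegree_C, zero_add]
            exact hud i
          · refine natDegree_mul_le.trans ?_
            simp only [hw]
            rw [natDegree_C, add_zero]
            exact hsd)
        (by
          rw [bf_add_left A B (fun i => C c * u i) (fun i => s * w i),
            bf_add_right A B (fun i => C c * u i) (fun i => C c * u i) (fun i => s * w i),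
            bf_add_right A B (fun i => s * w i) (fun i => C c * u i) (fun i => s * w i),
            bf_mul_left, bf_mul_left, bf_mul_left, bf_mul_left, bf_mul_right, bf_mul_right, bf_mul_right, bf_mul_right,
            hww, c0, C_0, zero_add, ← hs]
          linear_combination C c * s * e1)
      have hzi : ∀ i, C c * v i = (C c - X * s) * w i := by
        intro i
        have h1 := congrFun hz i
        simp only [Pi.zero_apply] at h1
        have h2 := congrFun ev i
        rw [h2]
        linear_combination X * h1
      have h3 : bf A B (fun i => C c * v i) (fun i => C c * v i) = 0 := by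
        rw [bf_mul_left, bf_mul_right, hv]; ring
      rw [show (fun i => C c * v i) = (fun i => (C c - X * s) * w i) from funext hzi, bf_mul_left, bf_mul_right, hww, c0,
        C_0, zero_add] at h3
      have hCc : (C c : F[X]) ≠ 0 := by rwa [Ne, C_eq_zero]
      have h4 : (C c - X * s) = 0 := by
        rcases mul_eq_zero.mp h3 with h | h
        · exact h
        · rcases mul_eq_zero.mp h with h | h
          · exact h
          · exact absurd h (mul_ne_zero X_ne_zero hCc)
      have h5 := congrArg (fun p => coeff p 0) h4
      simp only [coeff_sub, coeff_C_zero, coeff_X_mul_zero, sub_zero, coeff_zero] at h5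
      exact hcz h5

/-! TARGET -/
theorem amer_brumer {F : Type} [Field F] {ι : Type} [Fintype ι] (A B : ι → ι → F)
    (h : ∀ v : ι → F, ∑ i, ∑ j, A i j * v i * v j = 0 → ∑ i, ∑ j, B i j * v i * v j = 0 → v = 0)
    (v : ι → F[X]) (hv : ∑ i, ∑ j, (C (A i j) + X * C (B i j)) * v i * v j = 0) : v = 0 := by
  have hd : ∀ i, (v i).natDegree ≤ Finset.univ.sup fun i => (v i).natDegree := fun i =>
    Finset.le_sup (f := fun i => (v i).natDegree) (Finset.mem_univ i)
  exact bf_main A B h _ v hd hv

end Pool.Agent.H697w
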