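import Mathlib
import Pool.Agent.H697w.W1
import Pool.Agent.H697w.W2
import Pool.Agent.H697w.W3

set_option autoImplicit false

namespace Pool.Agent.H697w
open Polynomial

/-! PROOF OF THE TARGET in words.
Let K0 = RatFunc F. (1) The form with matrix RatFunc.C (A i j) + RatFunc.X * RatFunc.C (B i j) is anisotropic over K0: clear
denominators (IsLocalization.exist_integer_multiples_of_finset or exists_common_denominator for F[X] → RatFunc F) and use amer_brumer.
(2) L = F(θ), primitive element (char 0), power basis pb; minpoly F pb.gen =: m0 has degree finrank F L, odd. The polynomial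
m0.map (RatFunc.C) over K0 has the same odd degree, so it has an irreducible factor g of odd degree. The map
L → AdjoinRoot g, θ ↦ root g (PowerBasis.lift, for the F-algebra structure on AdjoinRoot g through RatFunc.C, as a ring hom
j with j (algebraMap F L a) = AdjoinRoot.of g (RatFunc.C a)) is an injective ring hom (fields). (3) v' i = j (v i) satisfies
∑∑ of g (C (A i j) + X * C (B i j)) v'_i v'_j = j(Q1(v)) + X j(Q2(v)) = 0, so v' = 0 by springer_adjoinRoot, v = 0.
-/

theorem w4_aniso {F : Type} [Field F] {ι : Type} [Fintype ι] (A B : ι → ι → F)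
    (h : ∀ v : ι → F, ∑ i, ∑ j, A i j * v i * v j = 0 → ∑ i, ∑ j, B i j * v i * v j = 0 → v = 0) :
    ∀ w : ι → RatFunc F, ∑ i, ∑ j, (RatFunc.C (A i j) + RatFunc.X * RatFunc.C (B i j)) * w i * w j = 0 →
      w = 0 := by
  intro w hw
  obtain ⟨b, hb⟩ := IsLocalization.exist_integer_multiples_of_finite (nonZeroDivisors F[X]) w
  choose u hu using hb
  have hb0 : algebraMap F[X] (RatFunc F) b ≠ 0 := by
    intro h0
    rw [map_eq_zero_iff _ (IsFractionRing.injective F[X] (RatFunc F))] at h0
    exact nonZeroDivisors.ne_zero b.2 h0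
  have hu' : ∀ i, algebraMap F[X] (RatFunc F) (u i) = algebraMap F[X] (RatFunc F) b * w i := by
    intro i
    rw [hu i, Algebra.smul_def]
  have h1 : ∑ i, ∑ j, (C (A i j) + X * C (B i j)) * u i * u j = 0 := by
    apply IsFractionRing.injective F[X] (RatFunc F)
    rw [map_zero, map_sum]
    have h2 : ∀ i, algebraMap F[X] (RatFunc F) (∑ j, (C (A i j) + X * C (B i j)) * u i * u j) =
        algebraMap F[X] (RatFunc F) b ^ 2 *
          ∑ j, (RatFunc.C (A i j) + RatFunc.X * RatFunc.C (B i j)) * w i * w j := by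
      intro i
      rw [map_sum, Finset.mul_sum]
      refine Finset.sum_congr rfl fun j _ => ?_
      rw [map_mul, map_mul, map_add, map_mul, hu', hu', RatFunc.algebraMap_C, RatFunc.algebraMap_C,
        RatFunc.algebraMap_X]
      ring
    simp only [h2]
    rw [← Finset.mul_sum, hw, mul_zero]
  have h3 := amer_brumer A B h u h1
  funext i
  have h4 := hu' i
  rw [h3, Pi.zero_apply, map_zero] at h4
  exact (mul_eq_zero.1 h4.symm).resolve_left hb0

theorem w4_factor {K : Type} [Field K] (p : K[X]) (hp : p ≠ 0) (hodd : Odd p.natDegree) :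
    ∃ g : K[X], Irreducible g ∧ g ∣ p ∧ Odd g.natDegree := by
  revert hp hodd
  refine WfDvdMonoid.induction_on_irreducible p ?_ ?_ ?_
  · intro h
    exact absurd rfl h
  · intro u hu _ hodd
    rw [Polynomial.natDegree_eq_zero_of_isUnit hu] at hodd
    exact absurd hodd (by decide)
  · intro a i ha hi ih _ hodd
    rw [Polynomial.natDegree_mul hi.ne_zero ha] at hodd
    by_cases h : Odd i.natDegree
    · exact ⟨i, hi, Dvd.intro _ rfl, h⟩
    · have h2 : Odd a.natDegree := by
        rw [Nat.odd_add] at hodd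
        by_contra h3
        rw [Nat.not_odd_iff_even] at h3
        exact h (hodd.2 h3)
      obtain ⟨g, hg1, hg2, hg3⟩ := ih ha h2
      exact ⟨g, hg1, Dvd.dvd.mul_left hg2 _, hg3⟩

/-! TARGET -/
theorem common_zero_odd {F L : Type} [Field F] [CharZero F] [Field L] [Algebra F L]
    [FiniteDimensional F L] (hodd : Odd (Module.finrank F L)) {ι : Type} [Fintype ι]
    (A B : ι → ι → F)
    (h : ∀ v : ι → F, ∑ i, ∑ j, A i j * v i * v j = 0 → ∑ i, ∑ j, B i j * v i * v j = 0 → v = 0)
    (v : ι → L) (hvA : ∑ i, ∑ j, algebraMap F L (A i j) * v i * v j = 0)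
    (hvB : ∑ i, ∑ j, algebraMap F L (B i j) * v i * v j = 0) : v = 0 := by
  set M : ι → ι → RatFunc F := fun i j => RatFunc.C (A i j) + RatFunc.X * RatFunc.C (B i j) with hM
  have hMan := w4_aniso A B h
  -- the power basis
  let pb := Field.powerBasisOfFiniteOfSeparable F L
  have hdeg : (minpoly F pb.gen).natDegree = Module.finrank F L := by
    rw [pb.natDegree_minpoly, pb.finrank]
  set m1 : (RatFunc F)[X] := (minpoly F pb.gen).map (algebraMap F (RatFunc F)) with hm1
  have hm0 : minpoly F pb.gen ≠ 0 := minpoly.ne_zero (Algebra.IsIntegral.isIntegral _)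
  have hm1ne : m1 ≠ 0 := by
    rw [hm1, Polynomial.map_ne_zero_iff (algebraMap F (RatFunc F)).injective]
    exact hm0
  have hm1odd : Odd m1.natDegree := by
    rw [hm1, Polynomial.natDegree_map, hdeg]
    exact hodd
  obtain ⟨g, hg, hgdvd, hgodd⟩ := w4_factor m1 hm1ne hm1odd
  have : Fact (Irreducible g) := ⟨hg⟩
  have hroot : Polynomial.aeval (AdjoinRoot.root g) (minpoly F pb.gen) = 0 := by
    rw [← Polynomial.aeval_map_algebraMap (RatFunc F), AdjoinRoot.aeval_eq, AdjoinRoot.mk_eq_zero]
    exact hgdvd
  let φ : L →ₐ[F] AdjoinRoot g := pb.lift (AdjoinRoot.root g) hroot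
  have hφ : ∀ a : F, φ (algebraMap F L a) = AdjoinRoot.of g (RatFunc.C a) := by
    intro a
    rw [φ.commutes]
    rfl
  have hzero : (fun i => φ (v i)) = 0 := by
    refine springer_adjoinRoot M hMan g hg hgodd _ ?_
    have h1 : ∑ i, ∑ j, AdjoinRoot.of g (M i j) * φ (v i) * φ (v j) =
        φ (∑ i, ∑ j, algebraMap F L (A i j) * v i * v j) +
          AdjoinRoot.of g RatFunc.X * φ (∑ i, ∑ j, algebraMap F L (B i j) * v i * v j) := by
      rw [map_sum, map_sum, Finset.mul_sum, ← Finset.sum_add_distrib]
      refine Finset.sum_congr rfl fun i _ => ?_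
      rw [map_sum, map_sum, Finset.mul_sum, ← Finset.sum_add_distrib]
      refine Finset.sum_congr rfl fun j _ => ?_
      rw [map_mul, map_mul, map_mul, map_mul, hφ, hφ, hM]
      simp only [map_add, map_mul]
      ring
    rw [h1, hvA, hvB, map_zero, mul_zero, add_zero]
  funext i
  have h2 : φ (v i) = 0 := congrFun hzero i
  have hinj : Function.Injective φ := φ.toRingHom.injective
  exact hinj (by rw [h2]; simp)

end Pool.Agent.H697w
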