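import Mathlib
import Pool.Agent.H697w.Defs
import Pool.Agent.H697w.W2
import Pool.Agent.H697w.W4
import Pool.Agent.H697w.W16
import Pool.Agent.H697w.W17

set_option autoImplicit false

namespace Pool.Agent.H697w
open Polynomial

/-! PROOF OF THE TARGET in words.
RealF K: from h 1 0 (as for POdd: q = y, w = 0, d = 0, c = ![1,0] ≠ 0). L/K odd: RealF L by springer_finite with the identity matrix.
Let α, β ∈ L, suppose ¬ FullOne L (fun i => (α²+β²) * algebraMap K L (![e,f] i)). The function is (α²+β²) * ![algebraMap e, algebraMap f] i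
(funext, Fin.cases / fin_cases). common_zero_of_not_full gives a nontrivial zero over L of Q1 = ef C₀² + f(M₁₁²+M₂₁²) + e(M₁₂²+M₂₂²) + ∑ s_j²
and Q2 = M₁₁M₂₂ - M₁₂M₂₁. Index type ι = Fin 5 ⊕ Fin m (or Fin 5 ⊕ Fin m through a function with Sum.elim), A = diagonal matrix with
entries (ef, f, e, f, e | 1,...,1), B i j = 1 if i = M₁₁, j = M₂₂, -1 if i = M₁₂, j = M₂₁, 0 otherwise. By no_common_zero_of_full the pair
has no nontrivial common zero over K, so by common_zero_odd none over L: contradiction.
-/

/-! TARGET -/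
theorem pOdd_of_full {K : Type} [Field K] [CharZero K] (e f : K) (he : e ≠ 0) (hf : f ≠ 0)
    (h : ∀ α β : K, (α ≠ 0 ∨ β ≠ 0) → FullOne K (fun i : Fin 2 => (α ^ 2 + β ^ 2) * ![e, f] i)) :
    POdd K ![e, f] := by
  classical
  have hrealK : RealF K := by
    intro m y hy j
    have h1 := h 1 0 (Or.inl one_ne_zero) m y (fun _ _ => 0) 0 ![1, 0] (by
      simpa using hy) (by intro j; simp) (Or.inr (by
        intro h0
        have h2 := congrFun h0 0
        simp at h2)) j
    exact h1.1
  intro L _ _ _ hodd α β hαβ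
  have hrealL : RealF L := by
    intro m y hy j
    have h1 := springer_finite (K := K) (L := L) hodd
      (A := fun i j : Fin m => if i = j then (1 : K) else 0) (by
        intro v hv
        funext j
        refine hrealK m v ?_ j
        rw [← hv]
        refine Finset.sum_congr rfl fun i _ => ?_
        simp [pow_two]) y (by
        rw [← hy]
        refine Finset.sum_congr rfl fun i _ => ?_
        simp [pow_two, apply_ite (algebraMap K L)])
    rw [h1]
    rfl
  have he' : algebraMap K L e ≠ 0 := by rwa [_root_.map_ne_zero]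
  have hf' : algebraMap K L f ≠ 0 := by rwa [_root_.map_ne_zero]
  have hfun : (fun i : Fin 2 => (α ^ 2 + β ^ 2) * algebraMap K L (![e, f] i)) =
      fun i : Fin 2 => (α ^ 2 + β ^ 2) * ![algebraMap K L e, algebraMap K L f] i := by
    funext i
    fin_cases i <;> rfl
  rw [hfun]
  by_contra hcon
  obtain ⟨m, C₀, M₁₁, M₁₂, M₂₁, M₂₂, s, hne, h₁, h₂⟩ :=
    common_zero_of_not_full hrealL _ _ he' hf' α β hαβ hcon
  let A : Fin 5 ⊕ Fin m → Fin 5 ⊕ Fin m → K := fun i j =>
    if i = j then Sum.elim ![e * f, f, e, f, e] (fun _ => 1) i else 0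
  let B : Fin 5 ⊕ Fin m → Fin 5 ⊕ Fin m → K := fun i j =>
    if i = Sum.inl 1 ∧ j = Sum.inl 4 then 1 else
      if i = Sum.inl 2 ∧ j = Sum.inl 3 then -1 else 0
  have key : ∀ (F : Type) [Field F] (φ : K →+* F) (v : Fin 5 ⊕ Fin m → F),
      ∑ i, ∑ j, φ (A i j) * v i * v j =
        φ (e * f) * v (Sum.inl 0) ^ 2 + φ f * (v (Sum.inl 1) ^ 2 + v (Sum.inl 3) ^ 2) +
          φ e * (v (Sum.inl 2) ^ 2 + v (Sum.inl 4) ^ 2) + ∑ j, v (Sum.inr j) ^ 2 := by
    intro F _ φ v
    have h3 : ∀ i, ∑ j, φ (A i j) * v i * v j =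
        φ (Sum.elim ![e * f, f, e, f, e] (fun _ => 1) i) * v i ^ 2 := by
      intro i
      rw [Finset.sum_eq_single i]
      · simp only [A, if_true]
        ring
      · intro j _ hj
        simp only [A]
        rw [if_neg (Ne.symm hj), map_zero, zero_mul, zero_mul]
      · intro hi
        exact absurd (Finset.mem_univ _) hi
    simp only [h3]
    rw [Fintype.sum_sum_type, Fin.sum_univ_five]
    simp
    ring
  have key2 : ∀ (F : Type) [Field F] (φ : K →+* F) (v : Fin 5 ⊕ Fin m → F),
      ∑ i, ∑ j, φ (B i j) * v i * v j =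
        v (Sum.inl 1) * v (Sum.inl 4) - v (Sum.inl 2) * v (Sum.inl 3) := by
    intro F _ φ v
    have h3 : ∀ i, ∑ j, φ (B i j) * v i * v j =
        (if i = Sum.inl 1 then v (Sum.inl 1) * v (Sum.inl 4) else 0) +
        (if i = Sum.inl 2 then - (v (Sum.inl 2) * v (Sum.inl 3)) else 0) := by
      intro i
      by_cases hi1 : i = Sum.inl 1
      · subst hi1
        have h4 : (Sum.inl 1 : Fin 5 ⊕ Fin m) ≠ Sum.inl 2 := by simp
        rw [if_pos rfl, if_neg h4, add_zero, Finset.sum_eq_single (Sum.inl 4)]
        · simp [B]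
        · intro j _ hj
          simp [B, hj]
        · intro hi
          exact absurd (Finset.mem_univ _) hi
      · by_cases hi2 : i = Sum.inl 2
        · subst hi2
          rw [if_neg hi1, if_pos rfl, zero_add, Finset.sum_eq_single (Sum.inl 3)]
          · simp [B]
          · intro j _ hj
            simp [B, hj]
          · intro hi
            exact absurd (Finset.mem_univ _) hi
        · rw [if_neg hi1, if_neg hi2, add_zero]
          refine Finset.sum_eq_zero fun j _ => ?_
          simp [B, hi1, hi2]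
    simp only [h3]
    rw [Finset.sum_add_distrib, Finset.sum_ite_eq' Finset.univ (Sum.inl 1),
      Finset.sum_ite_eq' Finset.univ (Sum.inl 2)]
    simp
    ring
  have hz := common_zero_odd (F := K) (L := L) hodd A B (by
    intro v hA hB
    have hA' := key K (RingHom.id K) v
    have hB' := key2 K (RingHom.id K) v
    simp only [RingHom.id_apply] at hA' hB'
    rw [hA] at hA'
    rw [hB] at hB'
    obtain ⟨c0, c1, c2, c3, c4, c5⟩ := no_common_zero_of_full hrealK e f he hf h m
      (v (Sum.inl 0)) (v (Sum.inl 1)) (v (Sum.inl 2)) (v (Sum.inl 3)) (v (Sum.inl 4))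
      (fun j => v (Sum.inr j)) (by rw [← hA'.symm]) (by rw [← hB'.symm])
    funext i
    rcases i with i | j
    · fin_cases i
      · exact c0
      · exact c1
      · exact c2
      · exact c3
      · exact c4
    · exact congrFun c5 j)
    (Sum.elim ![C₀, M₁₁, M₁₂, M₂₁, M₂₂] s)
    (by
      rw [key L (algebraMap K L)]
      simpa using h₁)
    (by
      rw [key2 L (algebraMap K L)]
      simpa using h₂)
  apply hne
  refine ⟨congrFun hz (Sum.inl 0), congrFun hz (Sum.inl 1), congrFun hz (Sum.inl 2),
    congrFun hz (Sum.inl 3), congrFun hz (Sum.inl 4), ?_⟩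
  funext j
  exact congrFun hz (Sum.inr j)

end Pool.Agent.H697w
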