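import Mathlib
import Pool.Agent.H697w.Defs
import Pool.Agent.H697w.W2

set_option autoImplicit false

namespace Pool.Agent.H697w
open Polynomial

/-! PROOF OF THE TARGET in words.
L/ℚ finite of odd degree. RealF L: for y : Fin m → L use springer_finite with A = the identity matrix (if i = j then 1 else 0); a sum of
squares of rationals that vanishes has all terms 0. The form a² - 3b² - 3c² (ι = Fin 3) is anisotropic over ℚ: clear denominators, integers,
descent mod 3: 3 ∣ a, then 3 ∣ b² + c² so 3 ∣ b, c (or: in lowest terms, mod 9; or use that ℤ squares mod 3 are 0, 1). So over L by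
springer_finite: a² = 3(b²+c²) implies a = b = c = 0. FullOne L (fun _ : Unit => (α²+β²) * (-3)): given q, w, d, c (c : Unit → L, write
c for c ()), d q_j + c w_j = 0. If d ≠ 0: q_j = -(c/d) w_j, put λ_j = w_j/d, q_j = -c λ_j, w_j = d λ_j; if d = 0, c ≠ 0: w_j = 0,
q_j = -c λ_j for λ_j = -q_j/c, w_j = d λ_j. In both cases q_j = -c λ_j, w_j = d λ_j. The relation is
(∑ λ_j²) (c² - 3 (α²+β²) d²) = 0, the second factor is c² - 3 (αd)² - 3 (βd)² ≠ 0 (else c = 0, αd = βd = 0, d = 0). So ∑ λ_j² = 0,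
λ_j = 0 by RealF.
-/

/-! TARGET -/
theorem real_odd (L : Type) [Field L] [Algebra ℚ L] [FiniteDimensional ℚ L]
    (hodd : Odd (Module.finrank ℚ L)) : RealF L := by
  intro m y hy j
  have h := springer_finite (K := ℚ) (L := L) hodd (ι := Fin m)
    (fun i j => if i = j then 1 else 0) ?_ y ?_
  · exact congrFun h j
  · intro v hv
    simp only [ite_mul, one_mul, zero_mul, Finset.sum_ite_eq, Finset.mem_univ, if_true] at hv
    rw [Finset.sum_eq_zero_iff_of_nonneg (fun i _ => mul_self_nonneg (v i))] at hv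
    funext i
    exact mul_self_eq_zero.1 (hv i (Finset.mem_univ _))
  · simp only [apply_ite (algebraMap ℚ L), map_one, map_zero, ite_mul, one_mul, zero_mul,
      Finset.sum_ite_eq, Finset.mem_univ, if_true]
    rw [← hy]
    exact Finset.sum_congr rfl fun i _ => (sq (y i)).symm

theorem int_descent (n : ℕ) : ∀ a b c : ℤ, a.natAbs ≤ n → a ^ 2 = 3 * (b ^ 2 + c ^ 2) →
    a = 0 ∧ b = 0 ∧ c = 0 := by
  induction n with
  | zero =>
    intro a b c ha h
    have ha0 : a = 0 := by omega
    subst ha0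
    have hb : b ^ 2 = 0 := by nlinarith [sq_nonneg b, sq_nonneg c]
    have hc : c ^ 2 = 0 := by nlinarith [sq_nonneg b, sq_nonneg c]
    exact ⟨rfl, pow_eq_zero_iff two_ne_zero |>.1 hb, pow_eq_zero_iff two_ne_zero |>.1 hc⟩
  | succ n ih =>
    intro a b c ha h
    have h3 : (3 : ℤ) ∣ a := Int.prime_three.dvd_of_dvd_pow (n := 2) ⟨_, h⟩
    obtain ⟨a', rfl⟩ := h3
    have h4 : b ^ 2 + c ^ 2 = 3 * a' ^ 2 := by linarith
    have hbc : (3 : ℤ) ∣ b ∧ (3 : ℤ) ∣ c := by
      have h5 : (b ^ 2 + c ^ 2) % 3 = 0 := by omega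
      have hb : b % 3 = 0 ∨ b % 3 = 1 ∨ b % 3 = 2 := by omega
      have hc : c % 3 = 0 ∨ c % 3 = 1 ∨ c % 3 = 2 := by omega
      rcases hb with hb | hb | hb <;> rcases hc with hc | hc | hc <;>
        simp [pow_two, Int.add_emod, Int.mul_emod, hb, hc] at h5 <;> omega
    obtain ⟨⟨b', rfl⟩, ⟨c', rfl⟩⟩ := hbc
    have h6 : a' ^ 2 = 3 * (b' ^ 2 + c' ^ 2) := by linarith
    by_cases h0 : a' = 0
    · subst h0
      have hb : b' ^ 2 = 0 := by nlinarith [sq_nonneg b', sq_nonneg c']
      have hc : c' ^ 2 = 0 := by nlinarith [sq_nonneg b', sq_nonneg c']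
      have hb' := pow_eq_zero_iff two_ne_zero |>.1 hb
      have hc' := pow_eq_zero_iff two_ne_zero |>.1 hc
      subst hb' hc'
      simp
    · obtain ⟨h7, h8, h9⟩ := ih a' b' c' (by omega) h6
      exact absurd h7 h0

theorem rat_aniso (a b c : ℚ) (h : a ^ 2 = 3 * (b ^ 2 + c ^ 2)) : a = 0 ∧ b = 0 ∧ c = 0 := by
  have ha : (a.den : ℚ) ≠ 0 := by exact_mod_cast a.den_nz
  have hb : (b.den : ℚ) ≠ 0 := by exact_mod_cast b.den_nz
  have hc : (c.den : ℚ) ≠ 0 := by exact_mod_cast c.den_nz
  have ea : (a.num : ℚ) = a * a.den := (Rat.mul_den_eq_num a).symm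
  have eb : (b.num : ℚ) = b * b.den := (Rat.mul_den_eq_num b).symm
  have ec : (c.num : ℚ) = c * c.den := (Rat.mul_den_eq_num c).symm
  have h1 : (a.num * b.den * c.den) ^ 2 =
      3 * ((b.num * a.den * c.den) ^ 2 + (c.num * a.den * b.den) ^ 2) := by
    have h2 : ((a.num : ℚ) * b.den * c.den) ^ 2 =
        3 * ((b.num * a.den * c.den) ^ 2 + (c.num * a.den * b.den) ^ 2) := by
      rw [ea, eb, ec]
      linear_combination ((a.den : ℚ) * b.den * c.den) ^ 2 * h
    exact_mod_cast h2
  obtain ⟨h2, h3, h4⟩ := int_descent _ _ _ _ le_rfl h1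
  have ha' : (a.den : ℤ) ≠ 0 := by exact_mod_cast a.den_nz
  have hb' : (b.den : ℤ) ≠ 0 := by exact_mod_cast b.den_nz
  have hc' : (c.den : ℤ) ≠ 0 := by exact_mod_cast c.den_nz
  refine ⟨?_, ?_, ?_⟩
  · have : a.num = 0 := by simpa [hb', hc'] using h2
    exact Rat.num_eq_zero.1 this
  · have : b.num = 0 := by simpa [ha', hc'] using h3
    exact Rat.num_eq_zero.1 this
  · have : c.num = 0 := by simpa [ha', hb'] using h4
    exact Rat.num_eq_zero.1 this

theorem odd_aniso (L : Type) [Field L] [Algebra ℚ L] [FiniteDimensional ℚ L]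
    (hodd : Odd (Module.finrank ℚ L)) (a b c : L) (h : a ^ 2 - 3 * b ^ 2 - 3 * c ^ 2 = 0) :
    a = 0 ∧ b = 0 ∧ c = 0 := by
  have h1 := springer_finite (K := ℚ) (L := L) hodd (ι := Fin 3)
    (fun i j => if i = j then (![1, -3, -3] : Fin 3 → ℚ) i else 0) ?_ ![a, b, c] ?_
  · exact ⟨congrFun h1 0, congrFun h1 1, congrFun h1 2⟩
  · intro v hv
    simp only [ite_mul, zero_mul, Finset.sum_ite_eq, Finset.mem_univ, if_true] at hv
    simp [Fin.sum_univ_three] at hv
    obtain ⟨h2, h3, h4⟩ := rat_aniso (v 0) (v 1) (v 2) (by linarith)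
    funext i
    fin_cases i
    · exact h2
    · exact h3
    · exact h4
  · simp only [apply_ite (algebraMap ℚ L), map_zero, ite_mul, zero_mul,
      Finset.sum_ite_eq, Finset.mem_univ, if_true]
    simp [Fin.sum_univ_three]
    linear_combination h

theorem pOdd_rat : POdd ℚ (fun _ : Unit => (-3 : ℚ)) := by
  intro L _ _ _ hodd α β hαβ m q w d c hsum hhyp hdc
  have hreal := real_odd L hodd
  have e3 : algebraMap ℚ L (-3) = -3 := by simp
  simp only [Finset.univ_unique, Finset.sum_singleton, PUnit.default_eq_unit] at hsum hhyp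
  rw [e3] at hsum
  -- the parameter
  have hex : ∃ t : Fin m → L, ∀ j, q j = -(c ()) * t j ∧ w j () = d * t j := by
    by_cases hd : d = 0
    · have hc : c () ≠ 0 := by
        rcases hdc with h | h
        · exact absurd hd h
        · intro h0
          exact h (funext fun _ => h0)
      refine ⟨fun j => -(q j) / c (), fun j => ⟨?_, ?_⟩⟩
      · field_simp
      · have h1 := hhyp j
        rw [hd, zero_mul, zero_add] at h1
        rw [hd, zero_mul]
        exact (mul_eq_zero.1 h1).resolve_left hc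
    · refine ⟨fun j => w j () / d, fun j => ⟨?_, ?_⟩⟩
      · have h1 := hhyp j
        field_simp
        linear_combination h1
      · field_simp
  obtain ⟨t, ht⟩ := hex
  have h1 : (c () ^ 2 - 3 * (α * d) ^ 2 - 3 * (β * d) ^ 2) * ∑ j, t j ^ 2 = 0 := by
    rw [← hsum, Finset.mul_sum]
    refine Finset.sum_congr rfl fun j _ => ?_
    rw [(ht j).1, (ht j).2]
    ring
  have h2 : c () ^ 2 - 3 * (α * d) ^ 2 - 3 * (β * d) ^ 2 ≠ 0 := by
    intro h0
    obtain ⟨h3, h4, h5⟩ := odd_aniso L hodd _ _ _ h0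
    have hd : d = 0 := by
      rcases hαβ with h | h
      · exact (mul_eq_zero.1 h4).resolve_left h
      · exact (mul_eq_zero.1 h5).resolve_left h
    rcases hdc with h | h
    · exact h hd
    · exact h (funext fun _ => h3)
  have h3 := hreal m t ((mul_eq_zero.1 h1).resolve_left h2)
  intro j
  refine ⟨by rw [(ht j).1, h3 j, mul_zero], ?_⟩
  funext i
  cases i
  rw [(ht j).2, h3 j, mul_zero]
  rfl

end Pool.Agent.H697w
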