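import Mathlib
import Pool.Agent.H697w.Defs
import Pool.Agent.H697w.W14
import Pool.Agent.H697w.W15

set_option autoImplicit false

namespace Pool.Agent.H697w
open Polynomial

/-! PROOF OF THE TARGET in words.
Let K = RatFunc (RatFunc ℚ), g = C ((X+1) * C (-3)) ∈ K, t = C X * (X^2+1) ∈ K (so the two entries are h g t and h g, h = α²+β²). h ≠ 0 and
g ≠ 0, t ≠ 0 (h ≠ 0: K is real; simplest: if h = 0 use thmG itself, or note that K is a field in which -1 is not a sum of squares;
e.g. from thmG with α = 1, β = 0: take m = 2, p = 0, q = (α, β), w = 0, c₀ = 1, c₁ = 0, c = 0: ∑ q_j² = α²+β² = 0 gives α = β = 0).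
Given a relation ∑ (q² + h g t w₀² + h g w₁²) = 0 with d q + c₀ w₀ + c₁ w₁ = 0, multiply by g h: ∑ (g h q² + t (g h w₀)² + (g h w₁)²) = 0.
Apply thmG (k = ℚ, ι = Unit, b = fun _ => -3, pOdd_rat) with p = g h w₀, q = g h w₁, w = fun _ => q, and c₀/(g h), c₁/(g h),
fun _ => d.
-/

/-! TARGET -/
theorem full_level_one (α β : RatFunc (RatFunc ℚ)) (hαβ : α ≠ 0 ∨ β ≠ 0) :
    FullOne (RatFunc (RatFunc ℚ)) (fun i : Fin 2 => (α ^ 2 + β ^ 2) *
      ![RatFunc.C (((RatFunc.X : RatFunc ℚ) + 1) * RatFunc.C (-3 : ℚ)) *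
          (RatFunc.C (RatFunc.X : RatFunc ℚ) * (RatFunc.X ^ 2 + 1)),
        RatFunc.C (((RatFunc.X : RatFunc ℚ) + 1) * RatFunc.C (-3 : ℚ))] i) := by
  have hh : α ^ 2 + β ^ 2 ≠ 0 := by
    intro h
    have h1 := thmG (k := ℚ) (ι := Unit) (fun _ : Unit => (-3 : ℚ)) pOdd_rat 1 0 (Or.inl one_ne_zero)
      2 (fun _ => 0) (fun j => ![α, β] j) (fun _ _ => 0) 1 0 (fun _ => 0)
      (by simpa [Fin.sum_univ_two] using h) (by intro j; simp) (Or.inl one_ne_zero)
    have h2 := (h1 0).2.1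
    have h3 := (h1 1).2.1
    simp only [Matrix.cons_val_zero] at h2
    simp only [Matrix.cons_val_one] at h3
    rcases hαβ with h4 | h4
    · exact h4 h2
    · exact h4 h3
  have hx1 : ((RatFunc.X : RatFunc ℚ) + 1) ≠ 0 := by
    have h : ((RatFunc.X : RatFunc ℚ) + 1) = algebraMap ℚ[X] (RatFunc ℚ) (Polynomial.X + 1) := by
      simp
    rw [h]
    intro h0
    have h1 := (map_eq_zero_iff _ (IsFractionRing.injective ℚ[X] (RatFunc ℚ))).1 h0
    have h2 : (Polynomial.X + 1 : ℚ[X]) = Polynomial.X + Polynomial.C 1 := by simp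
    rw [h2] at h1
    exact Polynomial.X_add_C_ne_zero 1 h1
  have hg : RatFunc.C (((RatFunc.X : RatFunc ℚ) + 1) * RatFunc.C (-3 : ℚ)) ≠
      (0 : RatFunc (RatFunc ℚ)) := by
    intro h0
    have h1 := (map_eq_zero_iff _ (RatFunc.C : RatFunc ℚ →+* RatFunc (RatFunc ℚ)).injective).1 h0
    rcases mul_eq_zero.1 h1 with h2 | h2
    · exact hx1 h2
    · have h3 := (map_eq_zero_iff _ (RatFunc.C : ℚ →+* RatFunc ℚ).injective).1 h2
      norm_num at h3
  set h := α ^ 2 + β ^ 2 with hhd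
  set g : RatFunc (RatFunc ℚ) := RatFunc.C (((RatFunc.X : RatFunc ℚ) + 1) * RatFunc.C (-3 : ℚ)) with hgd
  have hgh : g * h ≠ 0 := mul_ne_zero hg hh
  intro m q w d c hrel horth hdc j
  have key := thmG (k := ℚ) (ι := Unit) (fun _ : Unit => (-3 : ℚ)) pOdd_rat α β hαβ m
    (fun j => g * h * w j 0) (fun j => g * h * w j 1) (fun j _ => q j)
    (c 0 / (g * h)) (c 1 / (g * h)) (fun _ => d)
    (by
      rw [← hhd]
      have h1 : ∑ j, (RatFunc.C (RatFunc.X : RatFunc ℚ) * (RatFunc.X ^ 2 + 1) * (g * h * w j 0) ^ 2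
          + (g * h * w j 1) ^ 2 + ∑ _i : Unit,
            RatFunc.C (((RatFunc.X : RatFunc ℚ) + 1) * RatFunc.C (-3 : ℚ)) * h * q j ^ 2) =
          g * h * ∑ j, (q j ^ 2 + ∑ i, h *
      ![g * (RatFunc.C (RatFunc.X : RatFunc ℚ) * (RatFunc.X ^ 2 + 1)), g] i * w j i ^ 2) := by
        rw [Finset.mul_sum]
        refine Finset.sum_congr rfl fun j _ => ?_
        rw [← hgd]
        simp only [Fin.sum_univ_two, Matrix.cons_val_zero, Matrix.cons_val_one,
          Finset.univ_unique, Finset.sum_singleton]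
        ring
      refine h1.trans ?_
      rw [hrel, mul_zero])
    (by
      intro j
      have h1 := horth j
      simp only [Fin.sum_univ_two] at h1
      simp only [Finset.univ_unique, Finset.sum_singleton]
      rw [← h1]
      field_simp
      ring)
    (by
      rcases hdc with h1 | h1
      · exact Or.inr (Or.inr fun h2 => h1 (congrFun h2 ()))
      · by_contra h2
        push Not at h2
        apply h1
        funext i
        fin_cases i
        · exact (div_eq_zero_iff.1 h2.1).resolve_right hgh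
        · exact (div_eq_zero_iff.1 h2.2.1).resolve_right hgh) j
  refine ⟨congrFun key.2.2 (), ?_⟩
  funext i
  fin_cases i
  · exact (mul_eq_zero.1 key.1).resolve_left hgh
  · exact (mul_eq_zero.1 key.2.1).resolve_left hgh

end Pool.Agent.H697w
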