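import Mathlib

set_option autoImplicit false

namespace Pool.Agent.H697w

/-- A quadratic form on `Kⁿ` is regular if its polar bilinear form `b(x,y) = φ(x+y) - φ(x) - φ(y)`
is nondegenerate. -/
def Regular {K : Type} [Field K] {n : ℕ} (φ : QuadraticForm K (Fin n → K)) : Prop :=
  ∀ x : Fin n → K, (∀ y, QuadraticMap.polar φ x y = 0) → x = 0

/-- `m × φ = φ ⊥ ⋯ ⊥ φ` (`m` copies). -/
def copies {K : Type} [Field K] {n : ℕ} (m : ℕ) (φ : QuadraticForm K (Fin n → K)) :
    QuadraticForm K (Fin m → Fin n → K) :=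
  QuadraticMap.pi (fun _ : Fin m => φ)

/-- `φ` is weakly isotropic if `m × φ` is isotropic for some `m`. -/
def WeaklyIsotropic {K : Type} [Field K] {n : ℕ} (φ : QuadraticForm K (Fin n → K)) : Prop :=
  ∃ m : ℕ, ∃ x : Fin m → Fin n → K, x ≠ 0 ∧ copies m φ x = 0

/-- `ψ` is a subform of `φ` if `φ ≃ ψ ⊥ χ` for some form `χ`. -/
def IsSubform {K : Type} [Field K] {l n : ℕ} (ψ : QuadraticForm K (Fin l → K))
    (φ : QuadraticForm K (Fin n → K)) : Prop :=
  ∃ (r : ℕ) (χ : QuadraticForm K (Fin r → K)), Nonempty (φ.IsometryEquiv (ψ.prod χ))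

/-- `φ` is minimal weakly isotropic if it is regular and weakly isotropic and no proper subform of
`φ` is weakly isotropic. -/
def MinimalWeaklyIsotropic {K : Type} [Field K] {n : ℕ} (φ : QuadraticForm K (Fin n → K)) : Prop :=
  Regular φ ∧ WeaklyIsotropic φ ∧
    ∀ (l : ℕ) (ψ : QuadraticForm K (Fin l → K)), IsSubform ψ φ → l < n → ¬ WeaklyIsotropic ψ

/-- The `w`-invariant: the supremum of the dimensions of the minimal weakly isotropic forms. -/
noncomputable def wInv (K : Type) [Field K] : ℕ∞ :=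
  ⨆ (n : ℕ) (φ : QuadraticForm K (Fin n → K)) (_ : MinimalWeaklyIsotropic φ), (n : ℕ∞)

end Pool.Agent.H697w
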