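import Mathlib
import Pool.Agent.H697w.WDefs

set_option autoImplicit false

namespace Pool.Agent.H697w

/-! PROOF OF THE TARGET in words.
φ x = ∑ i, a i * x i ^ 2 (QuadraticMap.weightedSumSquares_apply, smul_eq_mul), copies m φ w = ∑ j, φ (w j) (QuadraticMap.pi_apply).
Regular: the polar form is 2 ∑ a i x i y i; take y = Pi.single i 1. Weakly isotropic: hwi. Subforms: let e : φ ≃ ψ.prod χ be an isometry
(Fin n → K) ≃ₗ (Fin l → K) × (Fin r → K), l < n, and v : Fin m → Fin l → K, v ≠ 0, ∑ j ψ (v j) = 0. w j = e.symm (v j, 0) satisfies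
φ (w j) = ψ (v j) + χ 0 = ψ (v j). The range W of x ↦ e.symm (x, 0), (Fin l → K) → (Fin n → K), is a subspace of dimension ≤ l < n, so
W ≠ ⊤ and there is a nonzero linear functional on Fin n → K vanishing on W (Submodule.exists_le_ker_of_lt_top, or
Submodule.exists_dual_map_eq_bot...), given by c ≠ 0: f x = ∑ i, c i * x i with c i = f (Pi.single i 1). So hfull gives w j = 0 for all j,
so v j = 0 (e.symm injective): contradiction.
-/

/-! TARGET -/
theorem minimal_of_full {K : Type} [Field K] (h2 : (2 : K) ≠ 0) {n : ℕ} (a : Fin n → K)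
    (ha : ∀ i, a i ≠ 0)
    (hfull : ∀ (m : ℕ) (w : Fin m → Fin n → K) (c : Fin n → K),
      ∑ j, ∑ i, a i * w j i ^ 2 = 0 → (∀ j, ∑ i, c i * w j i = 0) → c ≠ 0 → ∀ j, w j = 0)
    (hwi : ∃ (m : ℕ) (w : Fin m → Fin n → K), w ≠ 0 ∧ ∑ j, ∑ i, a i * w j i ^ 2 = 0) :
    MinimalWeaklyIsotropic (QuadraticMap.weightedSumSquares K a) := by
  classical
  have hφ : ∀ x : Fin n → K, QuadraticMap.weightedSumSquares K a x = ∑ i, a i * x i ^ 2 := by
    intro x
    simp [QuadraticMap.weightedSumSquares_apply, smul_eq_mul, pow_two]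
  have hcop : ∀ (m : ℕ) (w : Fin m → Fin n → K),
      copies m (QuadraticMap.weightedSumSquares K a) w = ∑ j, ∑ i, a i * w j i ^ 2 := by
    intro m w
    simp only [copies, QuadraticMap.pi_apply]
    exact Finset.sum_congr rfl fun j _ => hφ (w j)
  refine ⟨?_, ?_, ?_⟩
  · intro x hx
    funext i
    have h := hx (Pi.single i 1)
    have hpol : QuadraticMap.polar (QuadraticMap.weightedSumSquares K a) x (Pi.single i 1)
        = 2 * a i * x i := by
      rw [QuadraticMap.polar, hφ, hφ, hφ, ← Finset.sum_sub_distrib, ← Finset.sum_sub_distrib]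
      rw [Finset.sum_eq_single i]
      · simp
        ring
      · intro b _ hb
        simp [Pi.single_eq_of_ne hb]
      · simp
    rw [hpol] at h
    have := mul_ne_zero h2 (ha i)
    simpa [this] using h
  · obtain ⟨m, w, hw, h0⟩ := hwi
    exact ⟨m, w, hw, by rw [hcop]; exact h0⟩
  · rintro l ψ ⟨r, χ, ⟨e⟩⟩ hl ⟨m, v, hv, hv0⟩
    -- the range of `x ↦ e.symm (x, 0)`
    let g : (Fin l → K) →ₗ[K] (Fin n → K) :=
      (e.toLinearEquiv.symm : ((Fin l → K) × (Fin r → K)) →ₗ[K] (Fin n → K)).comp
        (LinearMap.inl K (Fin l → K) (Fin r → K))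
    have hg : ∀ x, g x = e.toLinearEquiv.symm (x, 0) := fun x => rfl
    have hgφ : ∀ x, QuadraticMap.weightedSumSquares K a (g x) = ψ x := by
      intro x
      have h1 := e.map_app' (g x)
      have h2' : e.toLinearEquiv.toFun (g x) = (x, 0) := by
        rw [hg]
        exact e.toLinearEquiv.apply_symm_apply (x, 0)
      rw [h2'] at h1
      rw [← h1]
      simp
    have hW : LinearMap.range g < ⊤ := by
      rw [lt_top_iff_ne_top]
      intro htop
      have h1 : Module.finrank K (LinearMap.range g) ≤ l := by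
        have := LinearMap.finrank_range_le g
        simpa using this
      rw [htop, finrank_top] at h1
      simp at h1
      omega
    obtain ⟨f, hf, hker⟩ := Submodule.exists_le_ker_of_lt_top _ hW
    have hfc : ∀ x : Fin n → K, f x = ∑ i, f (Pi.single i 1) * x i := by
      intro x
      have hx : x = ∑ i, x i • (Pi.single i (1 : K) : Fin n → K) := by
        funext k
        simp [Finset.sum_apply, Pi.single_apply]
      conv_lhs => rw [hx]
      rw [map_sum]
      refine Finset.sum_congr rfl fun i _ => ?_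
      rw [map_smul, smul_eq_mul, mul_comm]
    have hc : (fun i => f (Pi.single i 1)) ≠ (0 : Fin n → K) := by
      intro h0
      apply hf
      ext x
      have : ∀ i, f (Pi.single i 1) = 0 := fun i => congrFun h0 i
      simp [this]
    have hsum : ∑ j, ∑ i, a i * (g (v j)) i ^ 2 = 0 := by
      have h1 : ∀ j, ∑ i, a i * (g (v j)) i ^ 2 = ψ (v j) := fun j => by rw [← hφ, hgφ]
      rw [Finset.sum_congr rfl fun j _ => h1 j]
      simpa [copies, QuadraticMap.pi_apply] using hv0
    have hzero := hfull m (fun j => g (v j)) (fun i => f (Pi.single i 1)) hsum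
      (fun j => by
        rw [← hfc]
        exact hker ⟨v j, rfl⟩) hc
    apply hv
    funext j
    have h1 : g (v j) = 0 := hzero j
    rw [hg] at h1
    have h2' := (LinearEquiv.map_eq_zero_iff _).1 h1
    exact (Prod.ext_iff.1 h2').1

end Pool.Agent.H697w

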