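import Mathlib
import Pool.Agent.H697w.Defs
import Pool.Agent.H697w.WDefs
import Pool.Agent.H697w.W14
import Pool.Agent.H697w.W18
import Pool.Agent.H697w.W19
import Pool.Agent.H697w.W20

set_option autoImplicit false

namespace Pool.Agent.H697w

/-- `K₁ = ℚ(x₁)(z₁)`. -/
def K1 : Type := RatFunc (RatFunc ℚ)

noncomputable instance : Field K1 := inferInstanceAs (Field (RatFunc (RatFunc ℚ)))

instance : CharZero K1 := inferInstanceAs (CharZero (RatFunc (RatFunc ℚ)))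

/-- `K₂ = K₁(x₂)(z₂) = ℚ(x₁)(z₁)(x₂)(z₂)`. -/
abbrev K2 : Type := RatFunc (RatFunc K1)

/-- `b₂ = -3 (x₁ + 1)`. -/
noncomputable def b2 : K1 :=
  (RatFunc.C (((RatFunc.X : RatFunc ℚ) + 1) * RatFunc.C (-3 : ℚ)) : RatFunc (RatFunc ℚ))

/-- `b₁ = -3 (x₁ + 1) x₁ (z₁² + 1)`. -/
noncomputable def b1 : K1 :=
  (RatFunc.C (((RatFunc.X : RatFunc ℚ) + 1) * RatFunc.C (-3 : ℚ)) *
    (RatFunc.C (RatFunc.X : RatFunc ℚ) * (RatFunc.X ^ 2 + 1)) : RatFunc (RatFunc ℚ))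

/-- The coefficients `x₂ (z₂² + 1), 1, (x₂ + 1) b₁, (x₂ + 1) b₂` of the form over `K₂`. -/
noncomputable def a4 : Fin 4 → K2 :=
  ![RatFunc.C (RatFunc.X : RatFunc K1) * (RatFunc.X ^ 2 + 1), 1,
    RatFunc.C (((RatFunc.X : RatFunc K1) + 1) * RatFunc.C b1),
    RatFunc.C (((RatFunc.X : RatFunc K1) + 1) * RatFunc.C b2)]

theorem ratFunc_X_add_one_ne {F : Type} [Field F] : (RatFunc.X : RatFunc F) + 1 ≠ 0 := by
  have h : (RatFunc.X : RatFunc F) + 1 =
      algebraMap (Polynomial F) (RatFunc F) (Polynomial.X + Polynomial.C 1) := by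
    simp
  rw [h]
  intro h0
  have h1 := (map_eq_zero_iff _ (IsFractionRing.injective (Polynomial F) (RatFunc F))).1 h0
  exact Polynomial.X_add_C_ne_zero (1 : F) h1

theorem ratFunc_X_sq_add_one_ne {F : Type} [Field F] : (RatFunc.X : RatFunc F) ^ 2 + 1 ≠ 0 := by
  have h : (RatFunc.X : RatFunc F) ^ 2 + 1 =
      algebraMap (Polynomial F) (RatFunc F) (Polynomial.X ^ 2 + Polynomial.C 1) := by
    simp
  rw [h]
  intro h0
  have h1 := (map_eq_zero_iff _ (IsFractionRing.injective (Polynomial F) (RatFunc F))).1 h0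
  exact Polynomial.X_pow_add_C_ne_zero (by norm_num) (1 : F) h1

theorem ratFunc_C_ne {F : Type} [Field F] {a : F} (ha : a ≠ 0) : (RatFunc.C a : RatFunc F) ≠ 0 := by
  simpa using ha

theorem g_ne : (RatFunc.C (((RatFunc.X : RatFunc ℚ) + 1) * RatFunc.C (-3 : ℚ)) :
    RatFunc (RatFunc ℚ)) ≠ 0 :=
  ratFunc_C_ne (mul_ne_zero ratFunc_X_add_one_ne (ratFunc_C_ne (by norm_num)))

theorem t_ne : (RatFunc.C (RatFunc.X : RatFunc ℚ) * (RatFunc.X ^ 2 + 1) :
    RatFunc (RatFunc ℚ)) ≠ 0 :=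
  mul_ne_zero (ratFunc_C_ne RatFunc.X_ne_zero) ratFunc_X_sq_add_one_ne

theorem b2_ne : b2 ≠ 0 := g_ne

theorem gt_ne : (RatFunc.C (((RatFunc.X : RatFunc ℚ) + 1) * RatFunc.C (-3 : ℚ)) *
    (RatFunc.C (RatFunc.X : RatFunc ℚ) * (RatFunc.X ^ 2 + 1)) : RatFunc (RatFunc ℚ)) ≠ 0 :=
  mul_ne_zero g_ne t_ne

theorem b1_ne : b1 ≠ 0 := gt_ne

theorem pOdd_K1 : POdd K1 ![b1, b2] :=
  pOdd_of_full b1 b2 b1_ne b2_ne (fun α β h => full_level_one α β h)

theorem t2_ne : (RatFunc.C (RatFunc.X : RatFunc K1) * (RatFunc.X ^ 2 + 1) : K2) ≠ 0 :=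
  mul_ne_zero (ratFunc_C_ne RatFunc.X_ne_zero) ratFunc_X_sq_add_one_ne

theorem g2_ne {b : K1} (hb : b ≠ 0) :
    (RatFunc.C (((RatFunc.X : RatFunc K1) + 1) * RatFunc.C b) : K2) ≠ 0 :=
  ratFunc_C_ne (mul_ne_zero ratFunc_X_add_one_ne (ratFunc_C_ne hb))

theorem a4_ne : ∀ i, a4 i ≠ 0 := by
  intro i
  fin_cases i
  · exact t2_ne
  · exact one_ne_zero
  · exact g2_ne b1_ne
  · exact g2_ne b2_ne

theorem a4_full (m : ℕ) (w : Fin m → Fin 4 → K2) (c : Fin 4 → K2)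
    (hrel : ∑ j, ∑ i, a4 i * w j i ^ 2 = 0) (horth : ∀ j, ∑ i, c i * w j i = 0) (hc : c ≠ 0) :
    ∀ j, w j = 0 := by
  have h := fun j => thmG (k := K1) (ι := Fin 2) ![b1, b2] pOdd_K1 1 0 (Or.inl one_ne_zero) m
    (fun j => w j 0) (fun j => w j 1) (fun j => ![w j 2, w j 3]) (c 0) (c 1) ![c 2, c 3]
    (by
      refine Eq.trans (Finset.sum_congr rfl fun j _ => ?_) hrel
      simp only [Fin.sum_univ_four, Fin.sum_univ_two, a4]
      simp only [Matrix.cons_val_zero, Matrix.cons_val_one, Matrix.cons_val]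
      ring)
    (by
      intro j
      refine Eq.trans ?_ (horth j)
      simp only [Fin.sum_univ_four, Fin.sum_univ_two]
      simp only [Matrix.cons_val_zero, Matrix.cons_val_one, Matrix.cons_val]
      ring)
    (by
      by_contra hcon
      push Not at hcon
      obtain ⟨h0, h1, h2⟩ := hcon
      apply hc
      have h20 := congrFun h2 0
      have h21 := congrFun h2 1
      simp only [Matrix.cons_val_zero, Matrix.cons_val_one, Matrix.cons_val] at h20 h21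
      funext i
      fin_cases i
      · exact h0
      · exact h1
      · exact h20
      · exact h21) j
  intro j
  obtain ⟨h0, h1, h2⟩ := h j
  have h20 := congrFun h2 0
  have h21 := congrFun h2 1
  simp only [Matrix.cons_val_zero, Matrix.cons_val_one, Matrix.cons_val] at h20 h21
  funext i
  fin_cases i
  · exact h0
  · exact h1
  · exact h20
  · exact h21

/-- The explicit relation over a general field. -/
theorem rel_generic {K : Type} [Field K] (x z X Z : K) (hE : z ^ 2 + 1 ≠ 0) (hF : Z ^ 2 + 1 ≠ 0) :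
    ∃ (m : ℕ) (w : Fin m → Fin 4 → K), w ≠ 0 ∧
      ∑ j, ∑ i, (![X * (Z ^ 2 + 1), 1, (X + 1) * (-3 * (x + 1) * (x * (z ^ 2 + 1))),
        (X + 1) * (-3 * (x + 1))] : Fin 4 → K) i * w j i ^ 2 = 0 := by
  refine ⟨6, ![![(x + 1) * Z / (Z ^ 2 + 1), x + 1, z / (z ^ 2 + 1), 1],
    ![(x + 1) * Z / (Z ^ 2 + 1), x + 1, 1 / (z ^ 2 + 1), 0],
    ![(x + 1) * Z / (Z ^ 2 + 1), x + 1, 0, 0],
    ![(x + 1) / (Z ^ 2 + 1), 0, 0, 0],
    ![(x + 1) / (Z ^ 2 + 1), 0, 0, 0],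
    ![(x + 1) / (Z ^ 2 + 1), 0, 0, 0]], ?_, ?_⟩
  · intro h
    have h0 := congrFun (congrFun h 0) 3
    simp at h0
  · simp only [Fin.sum_univ_six, Fin.sum_univ_four]
    simp only [Matrix.cons_val_zero, Matrix.cons_val_one, Matrix.cons_val]
    field_simp
    ring

/-- The map `K₁ → K₂`. -/
noncomputable def cc : K1 →+* K2 :=
  (RatFunc.C : RatFunc K1 →+* RatFunc (RatFunc K1)).comp (RatFunc.C : K1 →+* RatFunc K1)

theorem a4_rel : ∃ (m : ℕ) (w : Fin m → Fin 4 → K2), w ≠ 0 ∧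
    ∑ j, ∑ i, a4 i * w j i ^ 2 = 0 := by
  let x : RatFunc (RatFunc ℚ) := RatFunc.C (RatFunc.X : RatFunc ℚ)
  let z : RatFunc (RatFunc ℚ) := RatFunc.X
  let x' : K1 := x
  let z' : K1 := z
  have hb2 : b2 = -3 * (x' + 1) := by
    have h : (RatFunc.C (((RatFunc.X : RatFunc ℚ) + 1) * RatFunc.C (-3 : ℚ)) :
        RatFunc (RatFunc ℚ)) = -3 * (x + 1) := by
      simp only [map_mul, map_add, map_one, map_neg, map_ofNat]
      ring
    exact h
  have hb1 : b1 = -3 * (x' + 1) * (x' * (z' ^ 2 + 1)) := by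
    have h : (RatFunc.C (((RatFunc.X : RatFunc ℚ) + 1) * RatFunc.C (-3 : ℚ)) *
        (RatFunc.C (RatFunc.X : RatFunc ℚ) * (RatFunc.X ^ 2 + 1)) : RatFunc (RatFunc ℚ)) =
        -3 * (x + 1) * (x * (z ^ 2 + 1)) := by
      simp only [map_mul, map_add, map_one, map_neg, map_ofNat]
      ring
    exact h
  have hz : z' ^ 2 + 1 ≠ 0 := by
    have h : z ^ 2 + 1 ≠ 0 := ratFunc_X_sq_add_one_ne
    exact h
  have hE : (cc z') ^ 2 + 1 ≠ 0 := by
    have : (cc z') ^ 2 + 1 = cc (z' ^ 2 + 1) := by simp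
    rw [this]
    exact (map_ne_zero cc).2 hz
  obtain ⟨m, w, hw, hrel⟩ := rel_generic (cc x') (cc z') (RatFunc.C (RatFunc.X : RatFunc K1))
    (RatFunc.X : K2) hE ratFunc_X_sq_add_one_ne
  refine ⟨m, w, hw, ?_⟩
  have ha : a4 = ![RatFunc.C (RatFunc.X : RatFunc K1) * (RatFunc.X ^ 2 + 1), 1,
      (RatFunc.C (RatFunc.X : RatFunc K1) + 1) * (-3 * (cc x' + 1) * (cc x' * (cc z' ^ 2 + 1))),
      (RatFunc.C (RatFunc.X : RatFunc K1) + 1) * (-3 * (cc x' + 1))] := by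
    have h1 : (RatFunc.C (((RatFunc.X : RatFunc K1) + 1) * RatFunc.C b1) : K2) =
        (RatFunc.C (RatFunc.X : RatFunc K1) + 1) *
          (-3 * (cc x' + 1) * (cc x' * (cc z' ^ 2 + 1))) := by
      have : (RatFunc.C (((RatFunc.X : RatFunc K1) + 1) * RatFunc.C b1) : K2) =
        (RatFunc.C (RatFunc.X : RatFunc K1) + 1) * cc b1 := by
        simp [cc]
      rw [this, hb1]
      simp only [map_mul, map_add, map_one, map_neg, map_ofNat, map_pow]
    have h2 : (RatFunc.C (((RatFunc.X : RatFunc K1) + 1) * RatFunc.C b2) : K2) =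
        (RatFunc.C (RatFunc.X : RatFunc K1) + 1) * (-3 * (cc x' + 1)) := by
      have : (RatFunc.C (((RatFunc.X : RatFunc K1) + 1) * RatFunc.C b2) : K2) =
        (RatFunc.C (RatFunc.X : RatFunc K1) + 1) * cc b2 := by
        simp [cc]
      rw [this, hb2]
      simp only [map_mul, map_add, map_one, map_neg, map_ofNat]
    unfold a4
    rw [h1, h2]
  rw [ha]
  exact hrel

theorem le_wInv {K : Type} [Field K] {n : ℕ} (φ : QuadraticForm K (Fin n → K))
    (h : MinimalWeaklyIsotropic φ) : (n : ℕ∞) ≤ wInv K :=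
  le_iSup_of_le n (le_iSup_of_le φ (le_iSup_of_le h le_rfl))

theorem a4_minimal : MinimalWeaklyIsotropic (QuadraticMap.weightedSumSquares K2 a4) :=
  minimal_of_full two_ne_zero a4 a4_ne a4_full a4_rel

end Pool.Agent.H697w
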